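import Pool.Agent.H933.TI.Op
import Pool.Graph.R_pool_sql_team_seeded_843ab51a.Results.MP_f981b0_an.LogIntegrableNests

/-!
# Factorisation of `T - z`, chains and the spectrum
-/

set_option autoImplicit false
set_option linter.unusedSectionVars false
set_option linter.deprecated false
set_option linter.unusedVariables false

open scoped BigOperators Nat
open MeasureTheory AddCircle Pool.Agent.Results.MP_f981b0_an.LogIntegrableNests

namespace Pool.Agent.H933.TI

lemma norm_fourier_apply (n : ℤ) (t : UnitAddCircle) : ‖(fourier n t : ℂ)‖ = 1 := by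
  rw [fourier_apply]; exact Circle.norm_coe _

/-- evaluation -/
noncomputable def ev (t : UnitAddCircle) : W →L[ℂ] ℂ :=
  lift (fun n => fourier n t) 1 (fun n => (norm_fourier_apply n t).le)

lemma ev_del (t : UnitAddCircle) (n : ℤ) : ev t (del n) = fourier n t := lift_del _ _ _ _

lemma ev_apply (t : UnitAddCircle) (f : W) : ev t f = ∑' n, f n • (fourier n t : ℂ) := rfl

lemma norm_ev_le (t : UnitAddCircle) (f : W) : ‖ev t f‖ ≤ ‖f‖ := by
  have := norm_lift_le (fun n => (fourier n t : ℂ)) 1 (fun n => (norm_fourier_apply n t).le) f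
  rwa [one_mul] at this

lemma ev_conv (t : UnitAddCircle) (g f : W) : ev t (conv g f) = ev t g * ev t f := by
  have h1 : ∀ n, ev t (conv g (del n)) = ev t g * ev t (del n) := by
    intro n
    have h2 : (ev t).comp ((ContinuousLinearMap.apply ℂ W (del n)).comp conv)
        = (ev t (del n)) • ev t := by
      refine ext_del fun m => ?_
      simp only [ContinuousLinearMap.comp_apply, conv_del, ContinuousLinearMap.apply_apply, tau_del,
        ev_del, ContinuousLinearMap.smul_apply, smul_eq_mul]
      rw [fourier_add]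
    have h3 := DFunLike.congr_fun h2 g
    simp only [ContinuousLinearMap.comp_apply, ContinuousLinearMap.apply_apply,
      ContinuousLinearMap.smul_apply, smul_eq_mul] at h3
    rw [h3, mul_comm]
  have h4 : (ev t).comp (conv g) = (ev t g) • ev t := by
    refine ext_del fun n => ?_
    simp only [ContinuousLinearMap.comp_apply, ContinuousLinearMap.smul_apply, smul_eq_mul, h1]
  have := DFunLike.congr_fun h4 f
  simpa using this

lemma ev_exp (t : UnitAddCircle) (g f : W) :
    ev t (NormedSpace.exp (conv g) f) = Complex.exp (ev t g) * ev t f := by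
  rw [exp_intertwine_left (ev t) (conv g) (ev t g) (fun f => ev_conv t g f) f,
    Complex.exp_eq_exp_ℂ]

/-- evaluation as a continuous function -/
noncomputable def Ev : W →L[ℂ] C(UnitAddCircle, ℂ) :=
  lift (fun n => fourier n) 1 (fun n => (fourier_norm n).le)

lemma Ev_apply (f : W) (t : UnitAddCircle) : Ev f t = ev t f := by
  have : (ContinuousMap.evalCLM ℂ t).comp Ev = ev t := by
    refine ext_del fun n => ?_
    rw [ContinuousLinearMap.comp_apply, Ev, lift_del, ev_del]
    rfl
  exact DFunLike.congr_fun this f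

/-- Fourier coefficients -/
noncomputable def fc (n : ℤ) : C(UnitAddCircle, ℂ) →L[ℂ] ℂ :=
  LinearMap.mkContinuous
    { toFun := fun f => fourierCoeff f n
      map_add' := by
        intro f g
        exact congrFun (fourierCoeff.add (map_continuous f |>.integrable_of_hasCompactSupport
          (HasCompactSupport.of_compactSpace _)) (map_continuous g |>.integrable_of_hasCompactSupport
          (HasCompactSupport.of_compactSpace _))) n
      map_smul' := by
        intro c f
        exact fourierCoeff.const_smul f c n } 1 (by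
    intro f
    rw [one_mul]
    simp only [LinearMap.coe_mk, AddHom.coe_mk]
    unfold fourierCoeff
    have h := norm_integral_le_of_norm_le_const (μ := haarAddCircle) (C := ‖f‖)
      (f := fun t : UnitAddCircle => (fourier (-n) t : ℂ) • f t)
      (Filter.Eventually.of_forall (fun t => by
        rw [norm_smul, norm_fourier_apply, one_mul]
        exact f.norm_coe_le_norm t))
    simpa using h)

lemma fc_apply (n : ℤ) (f : C(UnitAddCircle, ℂ)) : fc n f = fourierCoeff f n := rfl

lemma coeff_Ev (f : W) (n : ℤ) : fourierCoeff (Ev f) n = f n := by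
  have hb : ∀ m : ℤ, ‖(if n = m then (1 : ℂ) else 0)‖ ≤ 1 := by
    intro m; split_ifs <;> simp
  have : (fc n).comp Ev = lift (fun m => if n = m then (1 : ℂ) else 0) 1 hb := by
    refine ext_del fun m => ?_
    rw [ContinuousLinearMap.comp_apply, Ev, lift_del, lift_del, fc_apply, fourierCoeff_fourier,
      Pi.single_apply]
  have h := DFunLike.congr_fun this f
  rw [ContinuousLinearMap.comp_apply, fc_apply] at h
  rw [h, lift_apply, tsum_eq_single n]
  · simp
  · intro m hm
    rw [if_neg (Ne.symm hm), smul_zero]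

lemma coeff_ev (f : W) (n : ℤ) : fourierCoeff (fun t : UnitAddCircle => ev t f) n = f n := by
  rw [← coeff_Ev f n]
  congr 1
  ext t
  rw [Ev_apply]

lemma ev_inj {f g : W} (h : ∀ t, ev t f = ev t g) : f = g := by
  ext n
  rw [← coeff_ev f n, ← coeff_ev g n]
  simp only [h]

lemma continuous_ev (f : W) : Continuous fun t : UnitAddCircle => ev t f := by
  have : (fun t : UnitAddCircle => ev t f) = Ev f := by ext t; rw [Ev_apply]
  rw [this]
  exact map_continuous _

section Fact

variable {X : Type} [NormedAddCommGroup X] [NormedSpace ℂ X] [CompleteSpace X]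

lemma top_sub (S R : X →L[ℂ] X) (K : ℝ) (hK : ∀ n : ℤ, ‖U S R n‖ ≤ K) (h : R * S = 1)
    (c g : W) (l : ℂ) (k : ℤ)
    (he : ∀ t, ev t c - l = fourier k t * Complex.exp (ev t g)) :
    top S R K hK c - l • (1 : X →L[ℂ] X)
      = NormedSpace.exp (top S R K hK (gm g)) * U S R k
        * NormedSpace.exp (top S R K hK (gp g)) := by
  have h1 : c - l • del 0 = NormedSpace.exp (conv g) (del k) := by
    refine ev_inj fun t => ?_
    rw [map_sub, map_smul, ev_del, fourier_zero, ev_exp, ev_del, smul_eq_mul, mul_one, he t,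
      mul_comm]
  rw [← top_exp S R K hK h g k, ← h1, map_sub, map_smul, top_del, U_zero]

lemma pow_one_sided {L A : X →L[ℂ] X} (h : L * A = 1) (n : ℕ) : L ^ n * A ^ n = 1 := by
  rw [R_pow_mul_S_pow h, sub_self, U_zero]

lemma commute_pow {T A Q : X →L[ℂ] X} {l : ℂ} (hA : T - l • (1 : X →L[ℂ] X) = A)
    (hQ : Q * T = T * Q) (n : ℕ) : Q * A ^ n = A ^ n * Q := by
  have h1 : Commute Q A := by
    rw [← hA]
    refine Commute.sub_right hQ ?_
    exact (Commute.one_right Q).smul_right l
  exact (h1.pow_right n).eq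

lemma chain_left {T A L : X →L[ℂ] X} {l : ℂ} (hA : T - l • (1 : X →L[ℂ] X) = A)
    (hL : L * A = 1) (hns : ¬ Function.Surjective A) : InfiniteChain T := by
  have hinj : ∀ n : ℕ, Function.Injective (A ^ n : X →L[ℂ] X) := by
    intro n x y hxy
    have := congrArg (L ^ n : X →L[ℂ] X) hxy
    rw [← mul_apply_eq_comp, ← mul_apply_eq_comp, pow_one_sided hL] at this
    simpa using this
  refine ⟨fun n => LinearMap.range ((A ^ n : X →L[ℂ] X) : X →ₗ[ℂ] X), fun n => ⟨?_, ?_⟩, Or.inr ?_⟩
  · have : ((LinearMap.range ((A ^ n : X →L[ℂ] X) : X →ₗ[ℂ] X) : Submodule ℂ X) : Set X)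
        = {x | (A ^ n * L ^ n : X →L[ℂ] X) x = x} := by
      ext x
      simp only [SetLike.mem_coe, LinearMap.mem_range, ContinuousLinearMap.coe_coe,
        Set.mem_setOf_eq]
      constructor
      · rintro ⟨y, rfl⟩
        rw [mul_apply_eq_comp, ← mul_apply_eq_comp (L ^ n), pow_one_sided hL]
        simp
      · intro hx
        exact ⟨(L ^ n : X →L[ℂ] X) x, by rw [← mul_apply_eq_comp]; exact hx⟩
    rw [this]
    exact isClosed_eq (A ^ n * L ^ n : X →L[ℂ] X).continuous continuous_id
  · rintro Q hQ x ⟨y, rfl⟩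
    refine ⟨Q y, ?_⟩
    simp only [ContinuousLinearMap.coe_coe]
    rw [← mul_apply_eq_comp, ← commute_pow hA hQ n, mul_apply_eq_comp]
  · refine strictAnti_nat_of_succ_lt fun n => lt_of_le_of_ne ?_ ?_
    · rintro _ ⟨y, rfl⟩
      refine ⟨A y, ?_⟩
      simp only [ContinuousLinearMap.coe_coe]
      rw [← mul_apply_eq_comp, ← pow_succ]
    · intro heq
      refine hns fun x => ?_
      have hx : (A ^ n : X →L[ℂ] X) x ∈ LinearMap.range ((A ^ (n + 1) : X →L[ℂ] X) : X →ₗ[ℂ] X) := by
        rw [heq]
        exact ⟨x, rfl⟩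
      obtain ⟨y, hy⟩ := hx
      refine ⟨y, hinj n ?_⟩
      simp only [ContinuousLinearMap.coe_coe] at hy
      rw [← mul_apply_eq_comp, ← pow_succ, hy]

lemma chain_right {T A L : X →L[ℂ] X} {l : ℂ} (hA : T - l • (1 : X →L[ℂ] X) = A)
    (hL : A * L = 1) (hni : ¬ Function.Injective A) : InfiniteChain T := by
  have hsurj : ∀ n : ℕ, Function.Surjective (A ^ n : X →L[ℂ] X) := by
    intro n x
    refine ⟨(L ^ n : X →L[ℂ] X) x, ?_⟩
    rw [← mul_apply_eq_comp, pow_one_sided hL]
    simp
  refine ⟨fun n => LinearMap.ker ((A ^ n : X →L[ℂ] X) : X →ₗ[ℂ] X), fun n => ⟨?_, ?_⟩, Or.inl ?_⟩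
  · exact isClosed_eq (A ^ n : X →L[ℂ] X).continuous continuous_const
  · intro Q hQ x hx
    simp only [LinearMap.mem_ker, ContinuousLinearMap.coe_coe] at hx ⊢
    rw [← mul_apply_eq_comp, ← commute_pow hA hQ n, mul_apply_eq_comp, hx, map_zero]
  · refine strictMono_nat_of_lt_succ fun n => lt_of_le_of_ne ?_ ?_
    · intro x hx
      simp only [LinearMap.mem_ker, ContinuousLinearMap.coe_coe] at hx ⊢
      rw [pow_succ', mul_apply_eq_comp, hx, map_zero]
    · intro heq
      refine hni ?_
      rw [injective_iff_map_eq_zero]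
      intro x hx
      obtain ⟨y, rfl⟩ := hsurj n x
      have hy : y ∈ LinearMap.ker ((A ^ (n + 1) : X →L[ℂ] X) : X →ₗ[ℂ] X) := by
        simp only [LinearMap.mem_ker, ContinuousLinearMap.coe_coe]
        rw [pow_succ', mul_apply_eq_comp]
        exact hx
      rw [← heq] at hy
      simpa only [LinearMap.mem_ker, ContinuousLinearMap.coe_coe] using hy

lemma surj_of_surj_pow {S : X →L[ℂ] X} {k : ℕ} (hk : 0 < k)
    (h : Function.Surjective (S ^ k : X →L[ℂ] X)) : Function.Surjective S := by
  intro x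
  obtain ⟨y, hy⟩ := h x
  obtain ⟨m, rfl⟩ := Nat.exists_eq_succ_of_ne_zero hk.ne'
  exact ⟨(S ^ m : X →L[ℂ] X) y, by rw [← mul_apply_eq_comp, ← pow_succ']; exact hy⟩

lemma inj_of_inj_pow {S : X →L[ℂ] X} {k : ℕ} (hk : 0 < k)
    (h : Function.Injective (S ^ k : X →L[ℂ] X)) : Function.Injective S := by
  intro x y hxy
  refine h ?_
  obtain ⟨m, rfl⟩ := Nat.exists_eq_succ_of_ne_zero hk.ne'
  rw [Nat.succ_eq_add_one, pow_succ, mul_apply_eq_comp, mul_apply_eq_comp, hxy]

lemma chain_of_ne {S R : X →L[ℂ] X} (K : ℝ) (hK : ∀ n : ℤ, ‖U S R n‖ ≤ K) (h : R * S = 1)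
    (hSR : S * R ≠ 1) (c g : W) (l : ℂ) (k : ℤ) (hk : k ≠ 0)
    (he : ∀ t, ev t c - l = fourier k t * Complex.exp (ev t g)) :
    InfiniteChain (top S R K hK c) := by
  have hf := top_sub S R K hK h c g l k he
  set E := NormedSpace.exp (top S R K hK (gm g)) with hE
  set F := NormedSpace.exp (top S R K hK (gp g)) with hF
  set E' := NormedSpace.exp (-(top S R K hK (gm g))) with hE'
  set F' := NormedSpace.exp (-(top S R K hK (gp g))) with hF'
  have e1 : E * E' = 1 := exp_mul_exp_neg _
  have e2 : E' * E = 1 := exp_neg_mul_exp _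
  have f1 : F * F' = 1 := exp_mul_exp_neg _
  have f2 : F' * F = 1 := exp_neg_mul_exp _
  rcases lt_or_gt_of_ne hk with hk | hk
  · -- `k < 0`
    obtain ⟨m, hm⟩ := Int.eq_ofNat_of_zero_le (show 0 ≤ -k by omega)
    have hm' : k = -(m : ℤ) := by omega
    have hm0 : 0 < m := by omega
    rw [hm', U_neg_natCast] at hf
    refine chain_right hf (L := F' * S ^ m * E') ?_ ?_
    · calc E * R ^ m * F * (F' * S ^ m * E') = E * R ^ m * (F * F') * S ^ m * E' := by
            simp only [mul_assoc]
        _ = E * (R ^ m * S ^ m) * E' := by rw [f1, mul_one]; simp only [mul_assoc]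
        _ = 1 := by rw [pow_one_sided h, mul_one, e1]
    · intro hinj
      apply hSR
      have hRm : Function.Injective (R ^ m : X →L[ℂ] X) := by
        intro x y hxy
        have hx : (E * R ^ m * F) (F' x) = (E * R ^ m * F) (F' y) := by
          have hz : ∀ z, (E * R ^ m * F) (F' z) = E ((R ^ m : X →L[ℂ] X) z) := by
            intro z
            rw [← mul_apply_eq_comp, mul_assoc, f1, mul_one, mul_apply_eq_comp]
          rw [hz, hz, hxy]
        have hx2 := congrArg F (hinj hx)
        rw [← mul_apply_eq_comp, ← mul_apply_eq_comp, f1] at hx2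
        simpa using hx2
      have hR := inj_of_inj_pow hm0 hRm
      ext x
      apply hR
      rw [← mul_apply_eq_comp, ← mul_assoc, h, one_mul]
      rfl
  · -- `k > 0`
    obtain ⟨m, rfl⟩ := Int.eq_ofNat_of_zero_le hk.le
    have hm0 : 0 < m := by omega
    rw [U_natCast] at hf
    refine chain_left hf (L := F' * R ^ m * E') ?_ ?_
    · calc F' * R ^ m * E' * (E * S ^ m * F) = F' * R ^ m * (E' * E) * S ^ m * F := by
            simp only [mul_assoc]
        _ = F' * (R ^ m * S ^ m) * F := by rw [e2, mul_one]; simp only [mul_assoc]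
        _ = 1 := by rw [pow_one_sided h, mul_one, f2]
    · intro hsurj
      apply hSR
      have hSm : Function.Surjective (S ^ m : X →L[ℂ] X) := by
        intro x
        obtain ⟨y, hy⟩ := hsurj (E x)
        refine ⟨F y, ?_⟩
        have hy2 := congrArg E' hy
        rw [← mul_apply_eq_comp, ← mul_apply_eq_comp, e2, ← mul_assoc, ← mul_assoc, e2, one_mul,
          mul_apply_eq_comp] at hy2
        simpa using hy2
      have hS := surj_of_surj_pow hm0 hSm
      ext x
      obtain ⟨y, rfl⟩ := hS x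
      rw [← mul_apply_eq_comp, mul_assoc, h, mul_one]
      rfl

lemma resolvent_of_zero {S R : X →L[ℂ] X} (K : ℝ) (hK : ∀ n : ℤ, ‖U S R n‖ ≤ K) (h : R * S = 1)
    (c g : W) (l : ℂ) (he : ∀ t, ev t c - l = Complex.exp (ev t g)) :
    l ∉ spectrum ℂ (top S R K hK c) ∧ ‖resolvent (top S R K hK c) l‖ ≤ Real.exp (K * ‖g‖) := by
  have hf := top_sub S R K hK h c g l 0 (fun t => by rw [fourier_zero, one_mul]; exact he t)
  rw [U_zero, mul_one] at hf
  set E := NormedSpace.exp (top S R K hK (gm g)) with hE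
  set F := NormedSpace.exp (top S R K hK (gp g)) with hF
  set E' := NormedSpace.exp (-(top S R K hK (gm g))) with hE'
  set F' := NormedSpace.exp (-(top S R K hK (gp g))) with hF'
  have e1 : E * E' = 1 := exp_mul_exp_neg _
  have e2 : E' * E = 1 := exp_neg_mul_exp _
  have f1 : F * F' = 1 := exp_mul_exp_neg _
  have f2 : F' * F = 1 := exp_neg_mul_exp _
  have halg : algebraMap ℂ (X →L[ℂ] X) l - top S R K hK c = -(E * F) := by
    rw [← hf, Algebra.algebraMap_eq_smul_one]; abel
  have a1 : -(E * F) * -(F' * E') = 1 := by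
    rw [neg_mul_neg]
    calc E * F * (F' * E') = E * (F * F') * E' := by simp only [mul_assoc]
      _ = 1 := by rw [f1, mul_one, e1]
  have a2 : -(F' * E') * -(E * F) = 1 := by
    rw [neg_mul_neg]
    calc F' * E' * (E * F) = F' * (E' * E) * F := by simp only [mul_assoc]
      _ = 1 := by rw [e2, mul_one, f2]
  let u : (X →L[ℂ] X)ˣ := ⟨-(E * F), -(F' * E'), a1, a2⟩
  have hu : algebraMap ℂ (X →L[ℂ] X) l - top S R K hK c = (u : X →L[ℂ] X) := halg
  refine ⟨?_, ?_⟩
  · rw [spectrum.notMem_iff, hu]
    exact u.isUnit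
  · have hr : resolvent (top S R K hK c) l = -(F' * E') := by
      rw [resolvent, hu, Ring.inverse_unit]
      rfl
    have hone : ‖(1 : X →L[ℂ] X)‖ ≤ 1 := ContinuousLinearMap.norm_id_le
    rw [hr, norm_neg]
    calc ‖F' * E'‖ ≤ ‖F'‖ * ‖E'‖ := norm_mul_le _ _
      _ ≤ Real.exp ‖-(top S R K hK (gp g))‖ * Real.exp ‖-(top S R K hK (gm g))‖ :=
          mul_le_mul (norm_exp_le hone _) (norm_exp_le hone _) (norm_nonneg _) (Real.exp_nonneg _)
      _ = Real.exp (‖top S R K hK (gp g)‖ + ‖top S R K hK (gm g)‖) := by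
          rw [Real.exp_add, norm_neg, norm_neg]
      _ ≤ Real.exp (K * ‖g‖) := by
          refine Real.exp_le_exp.2 ?_
          rw [← norm_gp_add g, mul_add]
          exact add_le_add (norm_top_le _ _ _ _ _) (norm_top_le _ _ _ _ _)

end Fact

end Pool.Agent.H933.TI
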