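import Pool.Agent.H933.TI.Grid
import Pool.Agent.H933.TI.Op2

/-!
# The logarithm of `a - z` belongs to the Wiener algebra
-/

set_option autoImplicit false
set_option linter.unusedVariables false

open scoped BigOperators
open MeasureTheory AddCircle

namespace Pool.Agent.H933.TI

lemma exists_winding {G : ℝ → ℂ} (hG : Continuous G)
    (h : ∀ t, Complex.exp (G (t + 1)) = Complex.exp (G t)) :
    ∃ k : ℤ, ∀ t, G (t + 1) = G t + k * (2 * Real.pi * Complex.I) := by
  choose n hn using fun t => Complex.exp_eq_exp_iff_exists_int.1 (h t)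
  have hc : Continuous n := by
    rw [Int.isClosedEmbedding_coe_real.isInducing.continuous_iff]
    have h1 : ((fun x : ℤ => (x : ℝ)) ∘ n)
        = fun t => ((G (t + 1) - G t) / (2 * Real.pi * Complex.I)).re := by
      ext1 t
      have h0 : (2 * (Real.pi : ℂ) * Complex.I) ≠ 0 := Complex.two_pi_I_ne_zero
      rw [Function.comp_apply, hn t, add_sub_cancel_left, mul_div_cancel_right₀ _ h0]
      simp
    change Continuous ((fun x : ℤ => (x : ℝ)) ∘ n)
    rw [h1]
    fun_prop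
  refine ⟨n 0, fun t => ?_⟩
  rw [PreconnectedSpace.constant inferInstance hc (x := 0) (y := t)]
  exact hn t

lemma exists_circle {f : ℝ → ℂ} (hf : Continuous f) (hp : ∀ t, f (t + 1) = f t) :
    ∃ F : C(UnitAddCircle, ℂ), ∀ t : ℝ, F (t : UnitAddCircle) = f t := by
  have hper : Function.Periodic f 1 := hp
  refine ⟨⟨hper.lift, ?_⟩, fun t => hper.lift_coe t⟩
  rw [continuous_coinduced_dom]
  exact hf

lemma sum_sq_le' (s : Finset ℕ) (f : ℕ → ℝ) (hf : ∀ i, 0 ≤ f i) :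
    ∑ i ∈ s, f i ^ 2 ≤ (∑ i ∈ s, f i) ^ 2 := by
  classical
  induction s using Finset.induction_on with
  | empty => simp
  | insert a s ha ih =>
    rw [Finset.sum_insert ha, Finset.sum_insert ha]
    have h1 := hf a
    have h2 : 0 ≤ ∑ i ∈ s, f i := Finset.sum_nonneg fun i _ => hf i
    nlinarith [mul_nonneg h1 h2]

theorem grid_log {A : ℝ → ℂ} (hA : Continuous A) (hper : ∀ t, A (t + 1) = A t)
    {ρ : ℕ → ℕ → ℝ} (hρ0 : ∀ n j, 0 < ρ n j) (hρp : ∀ n j, ρ n (j + 2 ^ n) = ρ n j)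
    (hρ : ∀ n j t, pt n j ≤ t → t ≤ pt n (j + 1) → ‖A t - A (pt n j)‖ ≤ ρ n j)
    {s κ : ℝ} (hs0 : 0 < s) (hs2 : s ≤ 2) (hκ0 : 0 < κ) (hκ1 : κ < 1) (z : ℂ)
    (hd : ∀ n j, A (pt n j) ≠ z)
    (hsum : Summable fun n : ℕ => κ⁻¹ ^ n
      * ∑ j ∈ Finset.range (2 ^ n), (2 * ρ n j / ‖A (pt n j) - z‖) ^ s) :
    ∃ (k : ℤ) (g : W),
      (∀ t : UnitAddCircle, ∀ x : ℝ, (x : UnitAddCircle) = t →
        A x - z = fourier k t * Complex.exp (ev t g)) ∧
      (k = 0 → ‖g‖ ≤ |Real.log ‖A 0 - z‖| + (5 + 3 / (1 - κ)) + (4 + 12 / (1 - κ))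
        * ∑' n : ℕ, κ⁻¹ ^ n
          * ∑ j ∈ Finset.range (2 ^ n), (2 * ρ n j / ‖A (pt n j) - z‖) ^ s) := by
  set w : ℝ → ℂ := fun t => A t - z with hw
  have hwc : Continuous w := by fun_prop
  have hd0 : ∀ n j, 0 < ‖w (pt n j)‖ := fun n j => norm_pos_iff.2 (sub_ne_zero.2 (hd n j))
  set v : ℕ → ℕ → ℝ := fun n j => (2 * ρ n j / ‖w (pt n j)‖) ^ s with hv
  have hx0 : ∀ n j, 0 ≤ 2 * ρ n j / ‖w (pt n j)‖ := fun n j => by
    have := hρ0 n j; have := hd0 n j; positivity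
  have hv0 : ∀ n j, 0 ≤ v n j := fun n j => Real.rpow_nonneg (hx0 n j) _
  have hv1 : ∀ n j, ‖w (pt n j)‖ ≤ 2 * ρ n j → 1 ≤ v n j := fun n j h =>
    Real.one_le_rpow ((one_le_div (hd0 n j)).2 h) hs0.le
  have hvp : ∀ n j, v n (j + 2 ^ n) = v n j := fun n j => by
    simp only [hv, hw, hρp, pt_period, hper]
  set Th : ℕ → ℝ := fun n => ∑ j ∈ Finset.range (2 ^ n), v n j with hTh
  have hTh0 : ∀ n, 0 ≤ Th n := fun n => Finset.sum_nonneg fun j _ => hv0 n j
  set q : ℕ → ℝ := fun n => κ⁻¹ ^ n * Th n with hq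
  have hq0 : ∀ n, 0 ≤ q n := fun n => mul_nonneg (by positivity) (hTh0 n)
  have hqs : Summable q := hsum
  set Ψ : ℝ := ∑' n, q n with hΨ
  have hΨ0 : 0 ≤ Ψ := tsum_nonneg hq0
  have hThq : ∀ n, Th n = κ ^ n * q n := fun n => by
    rw [hq]; simp only
    rw [← mul_assoc, ← mul_pow, mul_inv_cancel₀ hκ0.ne', one_pow, one_mul]
  have hκn : ∀ n : ℕ, κ ^ n ≤ 1 := fun n => pow_le_one₀ hκ0.le hκ1.le
  -- all intervals of high level are good
  obtain ⟨N, hN⟩ : ∃ N, ∀ m, N ≤ m → ∀ i, 2 * ρ m i < ‖w (pt m i)‖ := by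
    have h1 : ∀ᶠ n in Filter.atTop, q n < 1 :=
      (hqs.tendsto_atTop_zero).eventually_lt_const one_pos
    obtain ⟨N, hN⟩ := Filter.eventually_atTop.1 h1
    refine ⟨N, fun m hm i => ?_⟩
    have h2 : Th m < 1 := by
      rw [hThq]
      calc κ ^ m * q m ≤ 1 * q m := mul_le_mul_of_nonneg_right (hκn m) (hq0 m)
        _ < 1 := by rw [one_mul]; exact hN m hm
    have hperv : Function.Periodic (v m) (2 ^ m) := hvp m
    have h3 : v m i < 1 := by
      rw [← hperv.map_mod_nat]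
      refine lt_of_le_of_lt ?_ h2
      exact Finset.single_le_sum (f := fun j => v m j) (fun j _ => hv0 m j)
        (Finset.mem_range.2 (Nat.mod_lt _ (by positivity)))
    by_contra hcon
    exact absurd (hv1 m i (not_lt.1 hcon)) (not_le.2 h3)
  -- `w` has no zero
  have hwne0 : ∀ t : ℝ, 0 ≤ t → w t ≠ 0 := by
    intro t ht h0
    set j := ⌊t * 2 ^ N⌋₊ with hj
    have h2N : (0 : ℝ) < 2 ^ N := by positivity
    have h1 : pt N j ≤ t := by
      unfold pt; rw [div_le_iff₀ h2N]; exact Nat.floor_le (by positivity)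
    have h2 : t ≤ pt N (j + 1) := by
      unfold pt; rw [le_div_iff₀ h2N]; push_cast; exact (Nat.lt_floor_add_one _).le
    have h3 := hρ N j t h1 h2
    have h4 := hN N le_rfl j
    have h5 : ‖w t - w (pt N j)‖ ≤ ρ N j := by
      have : w t - w (pt N j) = A t - A (pt N j) := by simp only [hw]; ring
      rw [this]; exact h3
    rw [h0, zero_sub, norm_neg] at h5
    have := hρ0 N j
    linarith
  have hwper : Function.Periodic w 1 := fun t => by simp only [hw, hper]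
  have hwne : ∀ t, w t ≠ 0 := by
    intro t
    obtain ⟨y, hy, hy2⟩ := hwper.exists_mem_Ico₀ one_pos t
    rw [hy2]
    exact hwne0 y hy.1
  obtain ⟨G, hG, hexp, hG0⟩ := exists_log w hwc hwne
  obtain ⟨k, hk⟩ := exists_winding hG (fun t => by rw [hexp, hexp]; exact hwper t)
  have hρw : ∀ n j t, pt n j ≤ t → t ≤ pt n (j + 1) → ‖w t - w (pt n j)‖ ≤ ρ n j := by
    intro n j t h1 h2
    have : w t - w (pt n j) = A t - A (pt n j) := by simp only [hw]; ring
    rw [this]; exact hρ n j t h1 h2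
  -- oscillations
  have hosc1 : ∀ n j t, pt n j ≤ t → t ≤ pt n (j + 1) →
      ‖G t - G (pt n j)‖ ≤ 1 + cnt v (N + 1) n j := fun n j =>
    osc_cnt hG hexp (fun n j => (hρ0 n j).le) hρw hv0 hv1 (N + 1) n j
      (fun m hm i => hN m (by omega) i)
  have hc0 : ∀ n j, 0 ≤ cnt v (N + 1) n j := cnt_nonneg hv0 (N + 1)
  set b : ℕ → ℕ → ℝ := fun n j => √(v n j) + 2 * cnt v (N + 1) n j with hb
  have hosc2 : ∀ n j t, pt n j ≤ t → t ≤ pt n (j + 1) → ‖G t - G (pt n j)‖ ≤ b n j := by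
    intro n j t h1 h2
    by_cases hg : 2 * ρ n j < ‖w (pt n j)‖
    · have h3 := osc_good hG hexp (hρw n j) hg (hρ0 n j).le h1 h2
      set x := 2 * ρ n j / ‖w (pt n j)‖ with hx
      have hx1 : x ≤ 1 := (div_le_one (hd0 n j)).2 hg.le
      have hx0' : 0 ≤ x := hx0 n j
      have h4 : x ≤ √(v n j) := by
        rcases eq_or_lt_of_le hx0' with h | h
        · rw [← h]; positivity
        refine Real.le_sqrt_of_sq_le ?_
        rw [← Real.rpow_natCast]
        exact Real.rpow_le_rpow_of_exponent_ge h hx1 (by exact_mod_cast hs2)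
      have h5 : 3 / 2 * (ρ n j / ‖w (pt n j)‖) = 3 / 4 * x := by rw [hx]; ring
      have h6 := hc0 n j
      rw [h5] at h3
      simp only [hb]
      linarith
    · have h3 := hosc1 n j t h1 h2
      have h4 := hv1 n j (not_lt.1 hg)
      have h5 : v n j ≤ cnt v (N + 1) n j := by
        rw [cnt]
        have := cnt_nonneg hv0 N (n + 1) (2 * j)
        have := cnt_nonneg hv0 N (n + 1) (2 * j + 1)
        linarith
      have h6 := Real.sqrt_nonneg (v n j)
      simp only [hb]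
      linarith
  have hb0 : ∀ n j, 0 ≤ b n j := fun n j => by
    have := hc0 n j
    simp only [hb]; positivity
  have hbp : ∀ n, b n (2 ^ n) = b n 0 := by
    intro n
    have h1 := hvp n 0
    have h2 := cnt_periodic hvp (N + 1) n 0
    rw [zero_add] at h1 h2
    simp only [hb, h1, h2]
  have hcs : ∀ n, ∑ j ∈ Finset.range (2 ^ n), cnt v (N + 1) n j ≤ κ ^ n * Ψ := by
    intro n
    rw [sum_cnt]
    calc ∑ i ∈ Finset.range (N + 1), ∑ j ∈ Finset.range (2 ^ (n + i)), v (n + i) j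
        = ∑ i ∈ Finset.range (N + 1), κ ^ (n + i) * q (n + i) :=
          Finset.sum_congr rfl fun i _ => hThq (n + i)
      _ ≤ ∑ i ∈ Finset.range (N + 1), κ ^ n * q (n + i) := by
          refine Finset.sum_le_sum fun i _ => mul_le_mul_of_nonneg_right ?_ (hq0 _)
          rw [pow_add]
          exact mul_le_of_le_one_right (by positivity) (hκn i)
      _ = κ ^ n * ∑ i ∈ Finset.range (N + 1), q (n + i) := by rw [Finset.mul_sum]
      _ ≤ κ ^ n * Ψ := by
          refine mul_le_mul_of_nonneg_left ?_ (by positivity)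
          have h1 : Summable fun i => q (n + i) := by
            have := (summable_nat_add_iff n).2 hqs
            simpa only [add_comm] using this
          calc ∑ i ∈ Finset.range (N + 1), q (n + i) ≤ ∑' i, q (n + i) :=
                h1.sum_le_tsum _ fun _ _ => hq0 _
            _ ≤ Ψ := by
                rw [hΨ, ← hqs.sum_add_tsum_nat_add n]
                have h2 : 0 ≤ ∑ i ∈ Finset.range n, q i := Finset.sum_nonneg fun i _ => hq0 i
                have h3 : ∑' i, q (n + i) = ∑' i, q (i + n) := tsum_congr fun i => by rw [add_comm]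
                rw [h3]; linarith
  have hint : ∀ n : ℕ, ∫ t in (0 : ℝ)..1, ‖G (t + 1 / 2 ^ n) - G t‖ ^ 2
      ≤ 9 / 2 ^ n * (2 * Th n + 8 * (κ ^ n * Ψ) ^ 2) := by
    intro n
    refine (int_dif hG n (b n) (hb0 n) (hbp n) (hosc2 n)).trans ?_
    refine mul_le_mul_of_nonneg_left ?_ (by positivity)
    calc ∑ j ∈ Finset.range (2 ^ n), b n j ^ 2
        ≤ ∑ j ∈ Finset.range (2 ^ n), (2 * v n j + 8 * cnt v (N + 1) n j ^ 2) := by
          refine Finset.sum_le_sum fun j _ => ?_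
          have h1 := Real.sq_sqrt (hv0 n j)
          simp only [hb]
          nlinarith [sq_nonneg (√(v n j) - 2 * cnt v (N + 1) n j)]
      _ = 2 * Th n + 8 * ∑ j ∈ Finset.range (2 ^ n), cnt v (N + 1) n j ^ 2 := by
          rw [Finset.sum_add_distrib, ← Finset.mul_sum, ← Finset.mul_sum]
      _ ≤ 2 * Th n + 8 * (κ ^ n * Ψ) ^ 2 := by
          have h1 : ∑ j ∈ Finset.range (2 ^ n), cnt v (N + 1) n j ^ 2
              ≤ (∑ j ∈ Finset.range (2 ^ n), cnt v (N + 1) n j) ^ 2 :=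
            sum_sq_le' _ _ fun j => hc0 n j
          have h2 : (∑ j ∈ Finset.range (2 ^ n), cnt v (N + 1) n j) ^ 2 ≤ (κ ^ n * Ψ) ^ 2 :=
            pow_le_pow_left₀ (Finset.sum_nonneg fun j _ => hc0 n j) (hcs n) 2
          linarith
  -- the periodic function
  set g0 : ℝ → ℂ := fun t => G t - k * (2 * Real.pi * Complex.I) * t with hg0
  have hg0c : Continuous g0 := by fun_prop
  have hg0p : ∀ t, g0 (t + 1) = g0 t := by
    intro t; simp only [hg0, hk t]; push_cast; ring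
  obtain ⟨F, hF⟩ := exists_circle hg0c hg0p
  set E : ℕ → ℝ := fun n => 3 * (κ ^ n + q n) + 12 * (κ ^ n * Ψ) + 9 * (|(k : ℝ)| * (3 / 4) ^ n)
    with hE
  have hE0 : ∀ n, 0 ≤ E n := fun n => by have := hq0 n; simp only [hE]; positivity
  have hgeo : HasSum (fun n : ℕ => κ ^ n) (1 - κ)⁻¹ := hasSum_geometric_of_lt_one hκ0.le hκ1
  have hEs : HasSum E (3 * ((1 - κ)⁻¹ + Ψ) + 12 * ((1 - κ)⁻¹ * Ψ)
      + 9 * (|(k : ℝ)| * (1 - 3 / 4)⁻¹)) :=
    ((hgeo.add hqs.hasSum).mul_left 3).add ((hgeo.mul_right Ψ).mul_left 12) |>.add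
      (((hasSum_geometric_of_lt_one (by norm_num : (0 : ℝ) ≤ 3 / 4)
        (by norm_num)).mul_left _).mul_left 9)
  have hbern := bern F E hE0 hEs.summable (by
    intro n
    rw [integral_circle]
    have h1 : ∀ t : ℝ, ‖F ((t + 1 / 2 ^ n : ℝ) : UnitAddCircle) - F (t : UnitAddCircle)‖ ^ 2
        ≤ 2 * ‖G (t + 1 / 2 ^ n) - G t‖ ^ 2 + 2 * (|(k : ℝ)| * (2 * Real.pi) * (1 / 2 ^ n)) ^ 2 := by
      intro t
      rw [hF, hF]
      have h2 : g0 (t + 1 / 2 ^ n) - g0 t
          = (G (t + 1 / 2 ^ n) - G t) - k * (2 * Real.pi * Complex.I) * ((1 / 2 ^ n : ℝ) : ℂ) := by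
        simp only [hg0]; push_cast; ring
      have h3 : ‖(k : ℂ) * (2 * Real.pi * Complex.I) * ((1 / 2 ^ n : ℝ) : ℂ)‖
          = |(k : ℝ)| * (2 * Real.pi) * (1 / 2 ^ n) := by
        rw [norm_mul, norm_mul, norm_mul, norm_mul, Complex.norm_I, Complex.norm_intCast, mul_one,
          Complex.norm_real, Real.norm_of_nonneg Real.pi_pos.le, Complex.norm_real,
          Real.norm_of_nonneg (by positivity : (0 : ℝ) ≤ 1 / 2 ^ n)]
        simp
      rw [h2]
      have h4 := norm_sub_le (G (t + 1 / 2 ^ n) - G t)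
        (k * (2 * Real.pi * Complex.I) * ((1 / 2 ^ n : ℝ) : ℂ))
      rw [h3] at h4
      have h5 := pow_le_pow_left₀ (norm_nonneg _) h4 2
      nlinarith [sq_nonneg (‖G (t + 1 / 2 ^ n) - G t‖ - |(k : ℝ)| * (2 * Real.pi) * (1 / 2 ^ n))]
    have hcont1 : Continuous fun t : ℝ =>
        ‖F ((t + 1 / 2 ^ n : ℝ) : UnitAddCircle) - F (t : UnitAddCircle)‖ ^ 2 := by
      simp only [hF]; fun_prop
    have hcont2 : Continuous fun t : ℝ => 2 * ‖G (t + 1 / 2 ^ n) - G t‖ ^ 2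
        + 2 * (|(k : ℝ)| * (2 * Real.pi) * (1 / 2 ^ n)) ^ 2 := by fun_prop
    have h2 : ∫ t in (0 : ℝ)..1, ‖F ((t + 1 / 2 ^ n : ℝ) : UnitAddCircle) - F (t : UnitAddCircle)‖ ^ 2
        ≤ 2 * (9 / 2 ^ n * (2 * Th n + 8 * (κ ^ n * Ψ) ^ 2))
          + 2 * (|(k : ℝ)| * (2 * Real.pi) * (1 / 2 ^ n)) ^ 2 := by
      calc ∫ t in (0 : ℝ)..1, ‖F ((t + 1 / 2 ^ n : ℝ) : UnitAddCircle) - F (t : UnitAddCircle)‖ ^ 2
          ≤ ∫ t in (0 : ℝ)..1, (2 * ‖G (t + 1 / 2 ^ n) - G t‖ ^ 2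
            + 2 * (|(k : ℝ)| * (2 * Real.pi) * (1 / 2 ^ n)) ^ 2) :=
            intervalIntegral.integral_mono_on zero_le_one (hcont1.intervalIntegrable _ _)
              (hcont2.intervalIntegrable _ _) (fun t _ => h1 t)
        _ = 2 * (∫ t in (0 : ℝ)..1, ‖G (t + 1 / 2 ^ n) - G t‖ ^ 2)
            + 2 * (|(k : ℝ)| * (2 * Real.pi) * (1 / 2 ^ n)) ^ 2 := by
            have hc3 : Continuous fun t : ℝ => 2 * ‖G (t + 1 / 2 ^ n) - G t‖ ^ 2 := by fun_prop
            rw [intervalIntegral.integral_add (hc3.intervalIntegrable _ _)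
              (continuous_const.intervalIntegrable _ _), intervalIntegral.integral_const_mul,
              intervalIntegral.integral_const, sub_zero, one_smul]
        _ ≤ _ := by
            have := hint n
            linarith
    have h2n : (0 : ℝ) < 2 ^ n := by positivity
    have h3 : 2 ^ n * ∫ t in (0 : ℝ)..1,
        ‖F ((t + 1 / 2 ^ n : ℝ) : UnitAddCircle) - F (t : UnitAddCircle)‖ ^ 2
        ≤ 36 * Th n + 144 * (κ ^ n * Ψ) ^ 2 + 8 * Real.pi ^ 2 * |(k : ℝ)| ^ 2 * (1 / 2 ^ n) := by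
      refine (mul_le_mul_of_nonneg_left h2 h2n.le).trans (le_of_eq ?_)
      field_simp
      ring
    refine h3.trans ?_
    have hp : Real.pi ^ 2 ≤ 10 := by
      have := Real.pi_lt_d2
      have := Real.pi_pos
      nlinarith
    have h4 : (1 : ℝ) / 2 ^ n ≤ ((3 / 4) ^ n) ^ 2 := by
      rw [← pow_mul, mul_comm n 2, pow_mul, ← one_div_pow]
      exact pow_le_pow_left₀ (by norm_num) (by norm_num) n
    have h5 : 8 * Real.pi ^ 2 * |(k : ℝ)| ^ 2 * (1 / 2 ^ n) ≤ (9 * (|(k : ℝ)| * (3 / 4) ^ n)) ^ 2 := by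
      calc 8 * Real.pi ^ 2 * |(k : ℝ)| ^ 2 * (1 / 2 ^ n)
          ≤ 8 * 10 * |(k : ℝ)| ^ 2 * ((3 / 4) ^ n) ^ 2 := by gcongr
        _ ≤ (9 * (|(k : ℝ)| * (3 / 4) ^ n)) ^ 2 := by
            have : 0 ≤ (|(k : ℝ)| * (3 / 4) ^ n) ^ 2 := by positivity
            nlinarith
    have h6 : 36 * Th n ≤ (3 * (κ ^ n + q n)) ^ 2 := by
      rw [hThq]
      nlinarith [sq_nonneg (κ ^ n - q n)]
    have x1 : 0 ≤ 3 * (κ ^ n + q n) := by have := hq0 n; positivity
    have x2 : 0 ≤ 12 * (κ ^ n * Ψ) := by positivity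
    have x3 : 0 ≤ 9 * (|(k : ℝ)| * (3 / 4) ^ n) := by positivity
    have h7 : 144 * (κ ^ n * Ψ) ^ 2 = (12 * (κ ^ n * Ψ)) ^ 2 := by ring
    rw [h7]
    simp only [hE]
    nlinarith [mul_nonneg x1 x2, mul_nonneg x1 x3, mul_nonneg x2 x3])
  obtain ⟨hsF, hsumF⟩ := hbern
  refine ⟨k, mkW (fourierCoeff F) hsF, ?_, ?_⟩
  · rintro _ x rfl
    have h1 : ev (x : UnitAddCircle) (mkW (fourierCoeff F) hsF) = F (x : UnitAddCircle) := by
      have h2 := has_pointwise_sum_fourier_series_of_summable (f := F) hsF.of_norm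
        (x : UnitAddCircle)
      rw [ev_apply, ← h2.tsum_eq]
      rfl
    rw [h1, hF, fourier_coe_apply, ← Complex.exp_add]
    have h3 := hexp x
    simp only [hw] at h3
    rw [← h3]
    congr 1
    simp only [hg0]
    push_cast
    ring
  · intro hk0
    rw [norm_mkW]
    refine hsumF.trans ?_
    have h1 : ‖fourierCoeff F 0‖ ≤ |Real.log ‖w 0‖| + 4 + (1 + Ψ) := by
      have h2 : ∀ t : UnitAddCircle, ‖F t‖ ≤ |Real.log ‖w 0‖| + 4 + (1 + Ψ) := by
        intro t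
        obtain ⟨x, hx, rfl⟩ := AddCircle.eq_coe_Ico (p := (1 : ℝ)) t
        rw [hF]
        have h3 : g0 x = G x := by simp only [hg0, hk0]; simp
        rw [h3]
        have e0 : pt 0 0 = 0 := by unfold pt; simp
        have e1 : pt 0 (0 + 1) = 1 := by unfold pt; simp
        have h4 := hosc1 0 0 x (by rw [e0]; exact hx.1) (by rw [e1]; exact hx.2.le)
        rw [e0] at h4
        have h5 := hcs 0
        simp only [pow_zero, Finset.range_one, Finset.sum_singleton, one_mul] at h5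
        have h6 : ‖G 0‖ ≤ |Real.log ‖w 0‖| + 4 := by
          rw [hG0]
          refine (Complex.norm_le_abs_re_add_abs_im _).trans ?_
          rw [Complex.log_re, Complex.log_im]
          have := Complex.abs_arg_le_pi (w 0)
          have := Real.pi_lt_four
          linarith
        have h7 : ‖G x‖ ≤ ‖G x - G 0‖ + ‖G 0‖ := by
          have := norm_add_le (G x - G 0) (G 0)
          rwa [sub_add_cancel] at this
        linarith
      unfold fourierCoeff
      have h := norm_integral_le_of_norm_le_const (μ := haarAddCircle)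
        (C := |Real.log ‖w 0‖| + 4 + (1 + Ψ))
        (f := fun t : UnitAddCircle => (fourier (-0) t : ℂ) • F t)
        (Filter.Eventually.of_forall (fun t => by
          rw [norm_smul, norm_fourier_apply, one_mul]
          exact h2 t))
      simpa using h
    rw [hEs.tsum_eq, hk0]
    have h0 : |Real.log ‖w 0‖| = |Real.log ‖A 0 - z‖| := rfl
    rw [h0] at h1
    simp only [Int.cast_zero, abs_zero, zero_mul, mul_zero, add_zero]
    have hΨ' : (∑' n : ℕ, κ⁻¹ ^ n
      * ∑ j ∈ Finset.range (2 ^ n), (2 * ρ n j / ‖A (pt n j) - z‖) ^ s) = Ψ := rfl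
    have e3 : (3 : ℝ) / (1 - κ) = 3 * (1 - κ)⁻¹ := by rw [div_eq_mul_inv]
    have e4 : (12 : ℝ) / (1 - κ) = 12 * (1 - κ)⁻¹ := by rw [div_eq_mul_inv]
    rw [e3, e4]
    nlinarith [h1]

end Pool.Agent.H933.TI
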