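import Mathlib

/-!
# Absolute convergence of Fourier series from dyadic differences
-/

set_option autoImplicit false
set_option linter.unusedVariables false

open scoped BigOperators
open MeasureTheory AddCircle

namespace Pool.Agent.H933.TI

lemma parseval (f : C(UnitAddCircle, ℂ)) :
    HasSum (fun i => ‖fourierCoeff f i‖ ^ 2) (∫ t : UnitAddCircle, ‖f t‖ ^ 2 ∂haarAddCircle) := by
  have h := hasSum_sq_fourierCoeff (ContinuousMap.toLp (E := ℂ) 2 haarAddCircle ℂ f)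
  simp_rw [fourierCoeff_toLp] at h
  convert h using 1
  refine integral_congr_ae ?_
  filter_upwards [ContinuousMap.coeFn_toLp (E := ℂ) (p := 2) haarAddCircle (𝕜 := ℂ) f] with t ht
  rw [ht]

lemma coeff_shift (f : C(UnitAddCircle, ℂ)) (h : UnitAddCircle) (n : ℤ) :
    fourierCoeff (fun t => f (t + h)) n = fourier n h * fourierCoeff f n := by
  unfold fourierCoeff
  have h1 : ∀ t : UnitAddCircle, (fourier (-n) t : ℂ) • f (t + h)
      = (fun u => fourier n h * ((fourier (-n) u : ℂ) • f u)) (t + h) := by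
    intro t
    simp only [smul_eq_mul]
    rw [← mul_assoc]
    congr 1
    have h2 : (fourier (-n) (t + h) : ℂ) = fourier (-n) t * fourier (-n) h := by
      simp only [fourier_apply, smul_add, AddCircle.toCircle_add, Circle.coe_mul]
    have h3 : (fourier n h : ℂ) * fourier (-n) h = 1 := by
      rw [← fourier_add, add_neg_cancel, fourier_zero]
    rw [h2]
    calc (fourier (-n) t : ℂ) = fourier (-n) t * (fourier n h * fourier (-n) h) := by
          rw [h3, mul_one]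
      _ = _ := by ring
  simp_rw [h1]
  rw [integral_add_right_eq_self (μ := haarAddCircle)
    (fun u : UnitAddCircle => fourier n h * ((fourier (-n) u : ℂ) • f u)) h]
  exact integral_const_mul _ _

/-- the difference -/
noncomputable def dif (f : C(UnitAddCircle, ℂ)) (h : UnitAddCircle) : C(UnitAddCircle, ℂ) :=
  ⟨fun t => f (t + h) - f t, by fun_prop⟩

lemma coeff_dif (f : C(UnitAddCircle, ℂ)) (h : UnitAddCircle) (n : ℤ) :
    fourierCoeff (dif f h) n = (fourier n h - 1) * fourierCoeff f n := by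
  have hi : ∀ g : C(UnitAddCircle, ℂ), Integrable g haarAddCircle := fun g =>
    (map_continuous g).integrable_of_hasCompactSupport (HasCompactSupport.of_compactSpace _)
  set fs : C(UnitAddCircle, ℂ) := ⟨fun t => f (t + h), by fun_prop⟩ with hfs
  have h1 : fourierCoeff fs n = fourier n h * fourierCoeff f n := coeff_shift f h n
  have h2 : fourierCoeff (dif f h) + fourierCoeff f = fourierCoeff fs := by
    rw [← fourierCoeff.add (hi _) (hi _)]
    congr 1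
    ext t
    simp [dif, hfs]
  have h3 := congrFun h2 n
  rw [Pi.add_apply] at h3
  rw [sub_mul, one_mul, ← h1, ← h3]
  ring

lemma one_le_norm_fourier_sub (j : ℕ) (n : ℤ) (h1 : 2 ^ j ≤ |n|) (h2 : |n| < 2 ^ (j + 1)) :
    1 ≤ ‖(fourier n (((1 / 2 ^ (j + 2) : ℝ)) : UnitAddCircle) : ℂ) - 1‖ := by
  rw [fourier_coe_apply]
  have hθ : (2 * (Real.pi : ℂ) * Complex.I * n * (((1 / 2 ^ (j + 2) : ℝ)) : ℂ) / ((1 : ℝ) : ℂ))
      = ((2 * Real.pi * n * (1 / 2 ^ (j + 2)) : ℝ) : ℂ) * Complex.I := by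
    push_cast; ring
  rw [hθ]
  set θ : ℝ := 2 * Real.pi * n * (1 / 2 ^ (j + 2)) with hθd
  have habs : |θ| = 2 * Real.pi * |(n : ℝ)| * (1 / 2 ^ (j + 2)) := by
    rw [hθd, abs_mul, abs_mul, abs_mul, abs_of_pos (show (0 : ℝ) < 2 by norm_num),
      abs_of_pos Real.pi_pos, abs_of_pos (show (0 : ℝ) < 1 / 2 ^ (j + 2) by positivity)]
  have h1' : (2 : ℝ) ^ j ≤ |(n : ℝ)| := by exact_mod_cast h1
  have h2' : |(n : ℝ)| < (2 : ℝ) ^ (j + 1) := by exact_mod_cast h2
  have hpi := Real.pi_pos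
  have e1 : (2 : ℝ) ^ (j + 2) = 4 * 2 ^ j := by ring
  have e2 : (2 : ℝ) ^ (j + 1) = 2 * 2 ^ j := by ring
  have hj : (0 : ℝ) < 2 ^ j := by positivity
  have hlow : Real.pi / 2 ≤ |θ| := by
    rw [habs, e1, mul_one_div, le_div_iff₀ (by positivity)]
    nlinarith
  have hupp : |θ| ≤ Real.pi + Real.pi / 2 := by
    rw [habs, e1, mul_one_div, div_le_iff₀ (by positivity)]
    nlinarith
  have hcos : Real.cos θ ≤ 0 := by
    rw [← Real.cos_abs]
    exact Real.cos_nonpos_of_pi_div_two_le_of_le hlow hupp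
  have hre : (Complex.exp ((θ : ℂ) * Complex.I) - 1).re = Real.cos θ - 1 := by
    rw [Complex.sub_re, Complex.exp_ofReal_mul_I_re, Complex.one_re]
  calc (1 : ℝ) ≤ |Real.cos θ - 1| := by rw [abs_of_nonpos (by linarith)]; linarith
    _ = |(Complex.exp ((θ : ℂ) * Complex.I) - 1).re| := by rw [hre]
    _ ≤ _ := Complex.abs_re_le_norm _

/-- blocks of frequencies -/
lemma block_le (f : C(UnitAddCircle, ℂ)) (j : ℕ) :
    (∑ n ∈ Finset.Ioo (-2 ^ (j + 1) : ℤ) (2 ^ (j + 1)) \ Finset.Ioo (-2 ^ j : ℤ) (2 ^ j),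
      ‖fourierCoeff f n‖) ^ 2 ≤
    2 ^ (j + 2) * ∫ t : UnitAddCircle,
      ‖f (t + ((1 / 2 ^ (j + 2) : ℝ) : UnitAddCircle)) - f t‖ ^ 2 ∂haarAddCircle := by
  set s : Finset ℤ := Finset.Ioo (-2 ^ (j + 1) : ℤ) (2 ^ (j + 1)) \ Finset.Ioo (-2 ^ j : ℤ) (2 ^ j)
    with hs
  set H : UnitAddCircle := ((1 / 2 ^ (j + 2) : ℝ) : UnitAddCircle) with hH
  have hcard : ((s.card : ℕ) : ℝ) ≤ 2 ^ (j + 2) := by
    have h1 : s.card ≤ (Finset.Ioo (-2 ^ (j + 1) : ℤ) (2 ^ (j + 1))).card :=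
      Finset.card_le_card Finset.sdiff_subset
    have h2 : (Finset.Ioo (-2 ^ (j + 1) : ℤ) (2 ^ (j + 1))).card ≤ 2 ^ (j + 2) := by
      rw [Int.card_Ioo]
      have : (2 : ℤ) ^ (j + 1) - -2 ^ (j + 1) - 1 ≤ ((2 ^ (j + 2) : ℕ) : ℤ) := by
        push_cast
        have : (2 : ℤ) ^ (j + 2) = 2 * 2 ^ (j + 1) := by ring
        rw [this]; linarith
      exact Int.toNat_le.2 this
    calc ((s.card : ℕ) : ℝ) ≤ ((2 ^ (j + 2) : ℕ) : ℝ) := by exact_mod_cast h1.trans h2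
      _ = 2 ^ (j + 2) := by push_cast; ring
  have hint0 : 0 ≤ ∫ t : UnitAddCircle, ‖f (t + H) - f t‖ ^ 2 ∂haarAddCircle :=
    integral_nonneg fun t => by positivity
  calc (∑ n ∈ s, ‖fourierCoeff f n‖) ^ 2 ≤ s.card * ∑ n ∈ s, ‖fourierCoeff f n‖ ^ 2 :=
        sq_sum_le_card_mul_sum_sq
    _ ≤ s.card * ∑ n ∈ s, ‖fourierCoeff (dif f H) n‖ ^ 2 := by
        refine mul_le_mul_of_nonneg_left (Finset.sum_le_sum fun n hn => ?_) (Nat.cast_nonneg _)
        rw [coeff_dif, norm_mul]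
        have hn' : 2 ^ j ≤ |n| ∧ |n| < 2 ^ (j + 1) := by
          rw [hs, Finset.mem_sdiff, Finset.mem_Ioo, Finset.mem_Ioo] at hn
          refine ⟨?_, abs_lt.2 hn.1⟩
          by_contra hcon
          exact hn.2 (abs_lt.1 (not_le.1 hcon))
        have h1 := one_le_norm_fourier_sub j n hn'.1 hn'.2
        have h0 := norm_nonneg (fourierCoeff f n)
        refine pow_le_pow_left₀ h0 ?_ 2
        nlinarith
    _ ≤ s.card * ∫ t : UnitAddCircle, ‖dif f H t‖ ^ 2 ∂haarAddCircle := by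
        refine mul_le_mul_of_nonneg_left ?_ (Nat.cast_nonneg _)
        exact sum_le_hasSum s (fun n _ => by positivity) (parseval (dif f H))
    _ ≤ 2 ^ (j + 2) * ∫ t : UnitAddCircle, ‖f (t + H) - f t‖ ^ 2 ∂haarAddCircle :=
        mul_le_mul_of_nonneg_right hcard hint0

/-- Absolute convergence of the Fourier series. -/
theorem bern (f : C(UnitAddCircle, ℂ)) (E : ℕ → ℝ) (hE0 : ∀ n, 0 ≤ E n) (hE : Summable E)
    (h : ∀ n : ℕ, 2 ^ n * ∫ t : UnitAddCircle,
      ‖f (t + ((1 / 2 ^ n : ℝ) : UnitAddCircle)) - f t‖ ^ 2 ∂haarAddCircle ≤ E n ^ 2) :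
    Summable (fun n => ‖fourierCoeff f n‖) ∧
      ∑' n, ‖fourierCoeff f n‖ ≤ ‖fourierCoeff f 0‖ + ∑' n, E n := by
  have hblock : ∀ j : ℕ,
      ∑ n ∈ Finset.Ioo (-2 ^ (j + 1) : ℤ) (2 ^ (j + 1)) \ Finset.Ioo (-2 ^ j : ℤ) (2 ^ j),
      ‖fourierCoeff f n‖ ≤ E (j + 2) := fun j =>
    le_of_sq_le_sq ((block_le f j).trans (h (j + 2))) (hE0 _)
  have hdy : ∀ J : ℕ, ∑ n ∈ Finset.Ioo (-2 ^ J : ℤ) (2 ^ J), ‖fourierCoeff f n‖
      ≤ ‖fourierCoeff f 0‖ + ∑ j ∈ Finset.range J, E (j + 2) := by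
    intro J
    induction J with
    | zero =>
      have : Finset.Ioo (-2 ^ 0 : ℤ) (2 ^ 0) = {0} := by decide
      rw [this]; simp
    | succ J ih =>
      have hsub : Finset.Ioo (-2 ^ J : ℤ) (2 ^ J) ⊆ Finset.Ioo (-2 ^ (J + 1) : ℤ) (2 ^ (J + 1)) := by
        have : (2 : ℤ) ^ J ≤ 2 ^ (J + 1) := pow_le_pow_right₀ (by norm_num) (by omega)
        exact Finset.Ioo_subset_Ioo (by linarith) this
      rw [← Finset.sum_sdiff hsub, Finset.sum_range_succ]
      have := hblock J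
      linarith
  have hE2 : Summable fun j => E (j + 2) := (summable_nat_add_iff 2).2 hE
  have hb : ∀ u : Finset ℤ, ∑ n ∈ u, ‖fourierCoeff f n‖ ≤ ‖fourierCoeff f 0‖ + ∑' n, E n := by
    intro u
    set J := u.sup (fun n => n.natAbs) with hJ
    have hsub : u ⊆ Finset.Ioo (-2 ^ J : ℤ) (2 ^ J) := by
      intro n hn
      have h1 : n.natAbs ≤ J := Finset.le_sup (f := fun n : ℤ => n.natAbs) hn
      have h2 : J < 2 ^ J := Nat.lt_two_pow_self
      have h3 : |n| < (2 : ℤ) ^ J := by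
        rw [Int.abs_eq_natAbs]
        exact_mod_cast lt_of_le_of_lt h1 h2
      rw [Finset.mem_Ioo]
      exact abs_lt.1 h3
    calc ∑ n ∈ u, ‖fourierCoeff f n‖ ≤ ∑ n ∈ Finset.Ioo (-2 ^ J : ℤ) (2 ^ J), ‖fourierCoeff f n‖ :=
          Finset.sum_le_sum_of_subset_of_nonneg hsub fun _ _ _ => norm_nonneg _
      _ ≤ ‖fourierCoeff f 0‖ + ∑ j ∈ Finset.range J, E (j + 2) := hdy J
      _ ≤ ‖fourierCoeff f 0‖ + ∑' j, E (j + 2) := by
          gcongr
          exact hE2.sum_le_tsum _ fun _ _ => hE0 _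
      _ ≤ ‖fourierCoeff f 0‖ + ∑' n, E n := by
          rw [← hE.sum_add_tsum_nat_add 2]
          have : 0 ≤ ∑ i ∈ Finset.range 2, E i := Finset.sum_nonneg fun i _ => hE0 i
          linarith
  have hs : Summable (fun n => ‖fourierCoeff f n‖) :=
    summable_of_sum_le (fun n => norm_nonneg _) hb
  exact ⟨hs, hs.tsum_le_of_sum_le hb⟩

/-- integrals over the circle -/
lemma integral_circle (f : C(UnitAddCircle, ℂ)) (h : ℝ) :
    ∫ t : UnitAddCircle, ‖f (t + (h : UnitAddCircle)) - f t‖ ^ 2 ∂haarAddCircle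
      = ∫ t in (0 : ℝ)..1, ‖f ((t + h : ℝ) : UnitAddCircle) - f (t : UnitAddCircle)‖ ^ 2 := by
  rw [AddCircle.integral_haarAddCircle, inv_one, one_smul]
  rw [← AddCircle.intervalIntegral_preimage (1 : ℝ) 0
    (fun t : UnitAddCircle => ‖f (t + (h : UnitAddCircle)) - f t‖ ^ 2), zero_add]
  rfl

end Pool.Agent.H933.TI
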