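import Pool.Agent.H933.TI.Grid

/-!
# Oscillations over dyadic intervals from dyadic differences
-/

set_option autoImplicit false
set_option linter.unusedVariables false

open scoped BigOperators
open MeasureTheory

namespace Pool.Agent.H933.TI

lemma cnt_mono {w : ℕ → ℕ → ℝ} (hw : ∀ n j, 0 ≤ w n j) :
    ∀ e n j, cnt w e n j ≤ cnt w (e + 1) n j
  | 0, n, j => by
      have := cnt_nonneg hw 1 n j
      simpa [cnt] using this
  | e + 1, n, j => by
      have h1 := cnt_mono hw e (n + 1) (2 * j)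
      have h2 := cnt_mono hw e (n + 1) (2 * j + 1)
      have e1 : cnt w (e + 1) n j = w n j + cnt w e (n + 1) (2 * j) + cnt w e (n + 1) (2 * j + 1) :=
        rfl
      have e2 : cnt w (e + 1 + 1) n j
        = w n j + cnt w (e + 1) (n + 1) (2 * j) + cnt w (e + 1) (n + 1) (2 * j + 1) := rfl
      rw [e1, e2]
      linarith

lemma chain_dyadic {B : ℝ → ℂ} {u : ℝ} (hu0 : 0 < u) (hu1 : u < 1) {w : ℕ → ℕ → ℝ}
    (hw0 : ∀ n j, 0 ≤ w n j)
    (hw : ∀ n j, ‖B (pt (n + 1) (2 * j + 1)) - B (pt n j)‖ ^ 2 ≤ (1 - u) * (u ^ n * w n j)) :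
    ∀ e n j i : ℕ, 2 ^ e * j ≤ i → i < 2 ^ e * (j + 1) →
      ‖B (pt (n + e) i) - B (pt n j)‖ ^ 2 ≤ u ^ n * cnt w e n j := by
  intro e
  induction e with
  | zero =>
    intro n j i h1 h2
    have : i = j := by simp at h1 h2; omega
    subst this
    simp [cnt]
  | succ e ih =>
    intro n j i h1 h2
    have hc1 := cnt_nonneg hw0 e (n + 1) (2 * j)
    have hc2 := cnt_nonneg hw0 e (n + 1) (2 * j + 1)
    have hwn := hw0 n j
    have hun : 0 < u ^ n := by positivity
    have hidx : n + (e + 1) = n + 1 + e := by ring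
    rw [hidx, cnt]
    rcases lt_or_ge i (2 ^ e * (2 * j + 1)) with hi | hi
    · have h3 := ih (n + 1) (2 * j) i (by rw [pow_succ] at h1; nlinarith) hi
      rw [pt_two] at h3
      refine h3.trans ?_
      have h4 : u ^ (n + 1) ≤ u ^ n := pow_le_pow_of_le_one hu0.le hu1.le (Nat.le_succ n)
      calc u ^ (n + 1) * cnt w e (n + 1) (2 * j) ≤ u ^ n * cnt w e (n + 1) (2 * j) :=
            mul_le_mul_of_nonneg_right h4 hc1
        _ ≤ _ := by
            refine mul_le_mul_of_nonneg_left ?_ hun.le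
            linarith
    · have h3 := ih (n + 1) (2 * j + 1) i hi (by rw [pow_succ] at h2; nlinarith)
      set x := ‖B (pt (n + 1) (2 * j + 1)) - B (pt n j)‖ with hx
      set y := ‖B (pt (n + 1 + e) i) - B (pt (n + 1) (2 * j + 1))‖ with hy
      have h4 : ‖B (pt (n + 1 + e) i) - B (pt n j)‖ ≤ y + x := by
        have : B (pt (n + 1 + e) i) - B (pt n j) = (B (pt (n + 1 + e) i)
          - B (pt (n + 1) (2 * j + 1))) + (B (pt (n + 1) (2 * j + 1)) - B (pt n j)) := by ring
        rw [this]; exact norm_add_le _ _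
      have h5 : x ^ 2 ≤ (1 - u) * (u ^ n * w n j) := hw n j
      have h6 : y ^ 2 ≤ u * (u ^ n * cnt w e (n + 1) (2 * j + 1)) := by
        rw [pow_succ] at h3
        calc y ^ 2 ≤ u ^ n * u * cnt w e (n + 1) (2 * j + 1) := h3
          _ = _ := by ring
      have h7 : ‖B (pt (n + 1 + e) i) - B (pt n j)‖ ^ 2 ≤ (y + x) ^ 2 :=
        pow_le_pow_left₀ (norm_nonneg _) h4 2
      -- `(y + x) ^ 2 ≤ x ^ 2 / (1 - u) + y ^ 2 / u`
      set a := u ^ n * w n j with ha
      set b := u ^ n * cnt w e (n + 1) (2 * j + 1) with hb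
      have h1u : 0 < 1 - u := by linarith
      have h8 : (y + x) ^ 2 ≤ a + b := by
        have hxa : x ^ 2 / (1 - u) ≤ a := by rw [div_le_iff₀ h1u]; linarith
        have hyb : y ^ 2 / u ≤ b := by rw [div_le_iff₀ hu0]; linarith
        have key : (y + x) ^ 2 ≤ x ^ 2 / (1 - u) + y ^ 2 / u := by
          rw [div_add_div _ _ h1u.ne' hu0.ne', le_div_iff₀ (by positivity)]
          nlinarith [sq_nonneg (u * x - (1 - u) * y)]
        linarith
      have h9 : 0 ≤ u ^ n * cnt w e (n + 1) (2 * j) := by positivity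
      calc ‖B (pt (n + 1 + e) i) - B (pt n j)‖ ^ 2 ≤ a + b := h7.trans h8
        _ ≤ a + u ^ n * cnt w e (n + 1) (2 * j) + b := by linarith
        _ = _ := by rw [ha, hb]; ring

/-- chaining -/
lemma chaining {B : ℝ → ℂ} (hB : Continuous B) (hBp : ∀ t, B (t + 1) = B t) {u C : ℝ}
    (hu0 : 0 < u) (hu1 : u < 1)
    (hV : ∀ m, ∑ i ∈ Finset.range (2 ^ m), ‖B (pt m (i + 1)) - B (pt m i)‖ ^ 2 ≤ C * (u ^ m) ^ 2) :
    ∃ (ρ : ℕ → ℕ → ℝ) (C' : ℝ), (∀ n j, 0 ≤ ρ n j) ∧ (∀ n j, ρ n (j + 2 ^ n) = ρ n j) ∧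
      (∀ n j t, pt n j ≤ t → t ≤ pt n (j + 1) → ‖B t - B (pt n j)‖ ≤ ρ n j) ∧
      ∀ n, ∑ j ∈ Finset.range (2 ^ n), (ρ n j) ^ 2 ≤ C' * (u ^ n) ^ 2 := by
  have h1u : 0 < 1 - u := by linarith
  have hC0 : 0 ≤ C := by
    have h := hV 0
    have h2 : 0 ≤ ∑ i ∈ Finset.range (2 ^ 0), ‖B (pt 0 (i + 1)) - B (pt 0 i)‖ ^ 2 :=
      Finset.sum_nonneg fun _ _ => by positivity
    simp only [pow_zero, one_pow, mul_one] at h h2
    exact h2.trans h
  set w : ℕ → ℕ → ℝ := fun n j =>
    ((1 - u) * u ^ n)⁻¹ * ‖B (pt (n + 1) (2 * j + 1)) - B (pt n j)‖ ^ 2 with hwd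
  have hw0 : ∀ n j, 0 ≤ w n j := fun n j => by simp only [hwd]; positivity
  have hw : ∀ n j, ‖B (pt (n + 1) (2 * j + 1)) - B (pt n j)‖ ^ 2 ≤ (1 - u) * (u ^ n * w n j) := by
    intro n j
    simp only [hwd]
    rw [← mul_assoc, ← mul_assoc, mul_inv_cancel₀ (by positivity), one_mul]
  have hwp : ∀ n j, w n (j + 2 ^ n) = w n j := by
    intro n j
    simp only [hwd]
    have e2 : 2 * (j + 2 ^ n) + 1 = (2 * j + 1) + 2 ^ (n + 1) := by ring
    rw [e2, pt_period, pt_period, hBp, hBp]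
  -- sums of the weights
  set D : ℝ := C / (1 - u) with hD
  have hD0 : 0 ≤ D := by positivity
  have hws : ∀ n, ∑ j ∈ Finset.range (2 ^ n), w n j ≤ D * u ^ n := by
    intro n
    simp only [hwd]
    rw [← Finset.mul_sum]
    have h2 : ∑ j ∈ Finset.range (2 ^ n), ‖B (pt (n + 1) (2 * j + 1)) - B (pt n j)‖ ^ 2
        ≤ C * (u ^ (n + 1)) ^ 2 := by
      refine le_trans ?_ (hV (n + 1))
      rw [show 2 ^ (n + 1) = 2 * 2 ^ n by ring, ← sum_two]
      refine Finset.sum_le_sum fun j _ => ?_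
      rw [← pt_two n j]
      have : 0 ≤ ‖B (pt (n + 1) (2 * j + 1 + 1)) - B (pt (n + 1) (2 * j + 1))‖ ^ 2 := by positivity
      linarith
    calc ((1 - u) * u ^ n)⁻¹ * ∑ j ∈ Finset.range (2 ^ n),
          ‖B (pt (n + 1) (2 * j + 1)) - B (pt n j)‖ ^ 2
        ≤ ((1 - u) * u ^ n)⁻¹ * (C * (u ^ (n + 1)) ^ 2) :=
          mul_le_mul_of_nonneg_left h2 (by positivity)
      _ ≤ ((1 - u) * u ^ n)⁻¹ * (C * (u ^ n) ^ 2) := by
          have : u ^ (n + 1) ≤ u ^ n := pow_le_pow_of_le_one hu0.le hu1.le (Nat.le_succ n)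
          gcongr
      _ = D * u ^ n := by
          rw [hD]; field_simp
  set D' : ℝ := D / (1 - u) with hD'
  have hcs : ∀ e n, ∑ j ∈ Finset.range (2 ^ n), cnt w e n j ≤ D' * u ^ n := by
    intro e n
    rw [sum_cnt]
    have hgeo : ∑ i ∈ Finset.range e, u ^ i ≤ (1 - u)⁻¹ := by
      have := (summable_geometric_of_lt_one hu0.le hu1).sum_le_tsum (Finset.range e)
        (fun i _ => by positivity)
      rwa [tsum_geometric_of_lt_one hu0.le hu1] at this
    calc ∑ i ∈ Finset.range e, ∑ j ∈ Finset.range (2 ^ (n + i)), w (n + i) j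
        ≤ ∑ i ∈ Finset.range e, D * u ^ (n + i) := Finset.sum_le_sum fun i _ => hws (n + i)
      _ = D * u ^ n * ∑ i ∈ Finset.range e, u ^ i := by
          rw [Finset.mul_sum]
          exact Finset.sum_congr rfl fun i _ => by ring
      _ ≤ D * u ^ n * (1 - u)⁻¹ := mul_le_mul_of_nonneg_left hgeo (by positivity)
      _ = D' * u ^ n := by rw [hD']; ring
  have hcnt0 := cnt_nonneg hw0
  have hmono : ∀ n j, Monotone fun e => cnt w e n j := fun n j =>
    monotone_nat_of_le_succ fun e => cnt_mono hw0 e n j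
  have hcb : ∀ e n j, cnt w e n j ≤ D' * u ^ n := by
    intro e n j
    have hper : Function.Periodic (fun j => cnt w e n j) (2 ^ n) := cnt_periodic hwp e n
    have h1 := hper.map_mod_nat j
    rw [← h1]
    refine le_trans ?_ (hcs e n)
    exact Finset.single_le_sum (f := fun j => cnt w e n j) (fun i _ => hcnt0 e n i)
      (Finset.mem_range.2 (Nat.mod_lt _ (by positivity)))
  have hbdd : ∀ n j, BddAbove (Set.range fun e => cnt w e n j) := by
    intro n j
    refine ⟨D' * u ^ n, ?_⟩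
    rintro _ ⟨e, rfl⟩
    exact hcb e n j
  set Z : ℕ → ℕ → ℝ := fun n j => ⨆ e, cnt w e n j with hZ
  have hZt : ∀ n j, Filter.Tendsto (fun e => cnt w e n j) Filter.atTop (nhds (Z n j)) := fun n j =>
    tendsto_atTop_ciSup (hmono n j) (hbdd n j)
  have hZle : ∀ e n j, cnt w e n j ≤ Z n j := fun e n j => le_ciSup (hbdd n j) e
  have hZ0 : ∀ n j, 0 ≤ Z n j := fun n j => (hcnt0 0 n j).trans (hZle 0 n j)
  have hZs : ∀ n, ∑ j ∈ Finset.range (2 ^ n), Z n j ≤ D' * u ^ n := by
    intro n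
    have h2 : Filter.Tendsto (fun e => ∑ j ∈ Finset.range (2 ^ n), cnt w e n j) Filter.atTop
        (nhds (∑ j ∈ Finset.range (2 ^ n), Z n j)) := tendsto_finsetSum _ fun j _ => hZt n j
    exact le_of_tendsto' h2 fun e => hcs e n
  refine ⟨fun n j => √(u ^ n * Z n j), D', fun n j => Real.sqrt_nonneg _, ?_, ?_, ?_⟩
  · intro n j
    have : Z n (j + 2 ^ n) = Z n j := by
      simp only [hZ]
      exact congrArg _ (funext fun e => cnt_periodic hwp e n j)
    simp only [this]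
  · intro n j t h1 h2
    have hclosed : IsClosed {t : ℝ | ‖B t - B (pt n j)‖ ≤ √(u ^ n * Z n j)} :=
      isClosed_le (by fun_prop) continuous_const
    have hlt : pt n j < pt n (j + 1) := by
      rw [pt_succ]; have : (0 : ℝ) < 1 / 2 ^ n := by positivity
      linarith
    have hIco : Set.Ico (pt n j) (pt n (j + 1)) ⊆ {t : ℝ | ‖B t - B (pt n j)‖ ≤ √(u ^ n * Z n j)} := by
      rintro x ⟨hx1, hx2⟩
      have hx0 : 0 ≤ x := by
        refine le_trans ?_ hx1
        unfold pt; positivity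
      set i : ℕ → ℕ := fun e => ⌊x * 2 ^ (n + e)⌋₊ with hi
      have hlim : Filter.Tendsto (fun e => pt (n + e) (i e)) Filter.atTop (nhds x) := by
        have hup : ∀ e, pt (n + e) (i e) ≤ x := by
          intro e
          unfold pt
          rw [div_le_iff₀ (by positivity)]
          exact Nat.floor_le (by positivity)
        have hlow : ∀ e, x - (1 / 2) ^ e ≤ pt (n + e) (i e) := by
          intro e
          have h3 : x * 2 ^ (n + e) < i e + 1 := Nat.lt_floor_add_one _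
          have h4 : x - 1 / 2 ^ (n + e) ≤ pt (n + e) (i e) := by
            unfold pt
            rw [le_div_iff₀ (by positivity), sub_mul, div_mul_cancel₀ _ (by positivity)]
            linarith
          have h5 : (1 : ℝ) / 2 ^ (n + e) ≤ (1 / 2) ^ e := by
            rw [one_div_pow]
            refine one_div_le_one_div_of_le (by positivity) ?_
            exact pow_le_pow_right₀ (by norm_num) (by omega)
          linarith
        have hl : Filter.Tendsto (fun e : ℕ => x - (1 / 2 : ℝ) ^ e) Filter.atTop (nhds x) := by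
          have := (tendsto_pow_atTop_nhds_zero_of_lt_one (by norm_num : (0 : ℝ) ≤ 1 / 2)
            (by norm_num)).const_sub x
          simpa using this
        exact tendsto_of_tendsto_of_tendsto_of_le_of_le hl tendsto_const_nhds hlow hup
      have hlim2 : Filter.Tendsto (fun e => ‖B (pt (n + e) (i e)) - B (pt n j)‖) Filter.atTop
          (nhds ‖B x - B (pt n j)‖) :=
        (((hB.tendsto x).comp hlim).sub_const _).norm
      refine le_of_tendsto' hlim2 fun e => ?_
      refine Real.le_sqrt_of_sq_le ?_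
      have hpe : (0 : ℝ) < 2 ^ n := by positivity
      have h3 : 2 ^ e * j ≤ i e := by
        refine Nat.le_floor ?_
        push_cast
        unfold pt at hx1
        rw [div_le_iff₀ hpe] at hx1
        calc (2 : ℝ) ^ e * j ≤ 2 ^ e * (x * 2 ^ n) :=
              mul_le_mul_of_nonneg_left hx1 (by positivity)
          _ = x * 2 ^ (n + e) := by rw [pow_add]; ring
      have h4 : i e < 2 ^ e * (j + 1) := by
        refine (Nat.floor_lt (by positivity)).2 ?_
        push_cast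
        unfold pt at hx2
        rw [lt_div_iff₀ hpe] at hx2
        push_cast at hx2
        calc x * 2 ^ (n + e) = 2 ^ e * (x * 2 ^ n) := by rw [pow_add]; ring
          _ < 2 ^ e * (j + 1) := mul_lt_mul_of_pos_left hx2 (by positivity)
      refine (chain_dyadic hu0 hu1 hw0 hw e n j (i e) h3 h4).trans ?_
      exact mul_le_mul_of_nonneg_left (hZle e n j) (by positivity)
    have hIcc := hclosed.closure_subset_iff.2 hIco
    rw [closure_Ico hlt.ne] at hIcc
    exact hIcc ⟨h1, h2⟩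
  · intro n
    have h3 : ∀ j ∈ Finset.range (2 ^ n), √(u ^ n * Z n j) ^ 2 = u ^ n * Z n j := fun j _ =>
      Real.sq_sqrt (mul_nonneg (by positivity) (hZ0 n j))
    rw [Finset.sum_congr rfl h3, ← Finset.mul_sum]
    calc u ^ n * ∑ j ∈ Finset.range (2 ^ n), Z n j ≤ u ^ n * (D' * u ^ n) :=
          mul_le_mul_of_nonneg_left (hZs n) (by positivity)
      _ = D' * (u ^ n) ^ 2 := by ring

/-- From squares to powers with an exponent below two. -/
lemma chaining' {B : ℝ → ℂ} (hB : Continuous B) (hBp : ∀ t, B (t + 1) = B t) {γ C : ℝ}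
    (hγ0 : 0 < γ) (hγ1 : γ ≤ 1 / 2)
    (hV : ∀ m : ℕ, ∑ i ∈ Finset.range (2 ^ m), ‖B (pt m (i + 1)) - B (pt m i)‖ ^ 2
      ≤ C * (((2 : ℝ) ^ (-(γ / 2))) ^ m) ^ 2) :
    ∃ (ρ : ℕ → ℕ → ℝ) (C' : ℝ), (∀ n j, 0 < ρ n j) ∧ (∀ n j, ρ n (j + 2 ^ n) = ρ n j) ∧
      (∀ n j t, pt n j ≤ t → t ≤ pt n (j + 1) → ‖B t - B (pt n j)‖ ≤ ρ n j) ∧
      ∀ n, ∑ j ∈ Finset.range (2 ^ n), (ρ n j) ^ (2 - γ / 2)
        ≤ C' * (((2 : ℝ) ^ (-(γ / 4))) ^ n) ^ 2 := by
  set u : ℝ := (2 : ℝ) ^ (-(γ / 2)) with hu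
  have hu0 : 0 < u := by positivity
  have hu1 : u < 1 := Real.rpow_lt_one_of_one_lt_of_neg (by norm_num) (by linarith)
  obtain ⟨ρ, C', h1, h2, h3, h4⟩ := chaining hB hBp hu0 hu1 hV
  have h2n : ∀ n : ℕ, (0 : ℝ) < 1 / 2 ^ n := fun n => by positivity
  have hC0 : 0 ≤ C' := by
    have h := h4 0
    have h' : 0 ≤ ∑ j ∈ Finset.range (2 ^ 0), (ρ 0 j) ^ 2 :=
      Finset.sum_nonneg fun _ _ => by positivity
    simp only [pow_zero, one_pow, mul_one] at h h'
    exact h'.trans h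
  refine ⟨fun n j => ρ n j + 1 / 2 ^ n, 2 * C' + 3, fun n j => by
    have := h1 n j; have := h2n n; linarith, fun n j => by simp only [h2], fun n j t ht1 ht2 => by
    have := h3 n j t ht1 ht2; have := h2n n; linarith, fun n => ?_⟩
  set lam : ℝ := 1 / 2 ^ n with hlam
  have hlam0 : 0 < lam := h2n n
  -- `x ^ s ≤ lam ^ (s - 2) * x ^ 2` for `x ≥ lam`
  have hun : u ^ n = (lam) ^ (γ / 2) := by
    rw [hu, hlam, one_div, ← Real.rpow_natCast, ← Real.rpow_mul (by norm_num),
      ← Real.rpow_natCast 2 n, Real.inv_rpow (by positivity), ← Real.rpow_mul (by norm_num),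
      ← Real.rpow_neg (by norm_num)]
    congr 1; ring
  have hkn : (((2 : ℝ) ^ (-(γ / 4))) ^ n) ^ 2 = u ^ n := by
    rw [hu, ← pow_mul, ← Real.rpow_natCast, ← Real.rpow_natCast,
      ← Real.rpow_mul (by norm_num), ← Real.rpow_mul (by norm_num)]
    congr 1; push_cast; ring
  have hx : ∀ j, (ρ n j + lam) ^ (2 - γ / 2) ≤ (u ^ n)⁻¹ * (ρ n j + lam) ^ 2 := by
    intro j
    have hp : 0 < ρ n j + lam := by have := h1 n j; linarith
    have hge : lam ≤ ρ n j + lam := by have := h1 n j; linarith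
    rw [hun, Real.rpow_sub hp, Real.rpow_two, div_eq_inv_mul]
    refine mul_le_mul_of_nonneg_right ?_ (by positivity)
    refine inv_anti₀ (by positivity) ?_
    exact Real.rpow_le_rpow hlam0.le hge (by positivity)
  calc ∑ j ∈ Finset.range (2 ^ n), (ρ n j + lam) ^ (2 - γ / 2)
      ≤ ∑ j ∈ Finset.range (2 ^ n), (u ^ n)⁻¹ * (ρ n j + lam) ^ 2 :=
        Finset.sum_le_sum fun j _ => hx j
    _ = (u ^ n)⁻¹ * ∑ j ∈ Finset.range (2 ^ n), (ρ n j + lam) ^ 2 := by rw [Finset.mul_sum]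
    _ ≤ (u ^ n)⁻¹ * ∑ j ∈ Finset.range (2 ^ n), (2 * (ρ n j) ^ 2 + 2 * lam ^ 2) := by
        refine mul_le_mul_of_nonneg_left (Finset.sum_le_sum fun j _ => ?_) (by positivity)
        nlinarith [sq_nonneg (ρ n j - lam)]
    _ = (u ^ n)⁻¹ * (2 * ∑ j ∈ Finset.range (2 ^ n), (ρ n j) ^ 2 + 2 * lam) := by
        rw [Finset.sum_add_distrib, ← Finset.mul_sum, Finset.sum_const, Finset.card_range,
          nsmul_eq_mul]
        congr 2
        push_cast
        rw [hlam]
        field_simp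
    _ ≤ (u ^ n)⁻¹ * (2 * (C' * (u ^ n) ^ 2) + 2 * (u ^ n) ^ 2) := by
        refine mul_le_mul_of_nonneg_left ?_ (by positivity)
        have h5 : lam ≤ (u ^ n) ^ 2 := by
          rw [hun, ← Real.rpow_natCast, ← Real.rpow_mul hlam0.le]
          have hl1 : lam ≤ 1 := by
            rw [hlam, div_le_one (by positivity)]; exact one_le_pow₀ (by norm_num)
          calc lam = lam ^ (1 : ℝ) := (Real.rpow_one _).symm
            _ ≤ lam ^ (γ / 2 * ((2 : ℕ) : ℝ)) := by
                refine Real.rpow_le_rpow_of_exponent_ge hlam0 hl1 ?_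
                push_cast; linarith
        have := h4 n
        linarith
    _ = (2 * C' + 2) * u ^ n := by
        have : u ^ n ≠ 0 := by positivity
        field_simp
    _ ≤ (2 * C' + 3) * (((2 : ℝ) ^ (-(γ / 4))) ^ n) ^ 2 := by
        rw [hkn]
        have : 0 < u ^ n := by positivity
        nlinarith

end Pool.Agent.H933.TI
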