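import Pool.Agent.H933.TI.Bern

/-!
# Logarithms of functions on the circle and dyadic intervals
-/

set_option autoImplicit false
set_option linter.unusedVariables false

open scoped BigOperators
open MeasureTheory

namespace Pool.Agent.H933.TI

/-! ### Logarithms -/

lemma exists_log (w : ℝ → ℂ) (hw : Continuous w) (hw0 : ∀ t, w t ≠ 0) :
    ∃ G : ℝ → ℂ, Continuous G ∧ (∀ t, Complex.exp (G t) = w t) ∧ G 0 = Complex.log (w 0) := by
  obtain ⟨F, ⟨hF1, hF2⟩, -⟩ := Complex.isCoveringMapOn_exp.existsUnique_continuousMap_lifts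
    (⟨w, hw⟩ : C(ℝ, ℂ)) (a₀ := 0) (e₀ := Complex.log (w 0)) (Complex.exp_log (hw0 0))
    (fun t => hw0 t)
  exact ⟨F, F.continuous, fun t => congrFun hF2 t, hF1⟩

lemma exp_dich {x y : ℂ} (h : Complex.exp x = Complex.exp y) (hy : ‖y‖ ≤ 3 / 4) :
    ‖x‖ ≤ ‖y‖ ∨ 5 ≤ ‖x‖ := by
  obtain ⟨n, hn⟩ := Complex.exp_eq_exp_iff_exists_int.1 h
  by_cases h0 : n = 0
  · left; rw [hn, h0]; simp
  · right
    have h1 : (1 : ℝ) ≤ |(n : ℝ)| := by exact_mod_cast Int.one_le_abs h0
    have h2 : ‖(n : ℂ) * (2 * Real.pi * Complex.I)‖ = |(n : ℝ)| * (2 * Real.pi) := by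
      rw [norm_mul, norm_mul, norm_mul, Complex.norm_I, Complex.norm_intCast, mul_one,
        Complex.norm_real, Real.norm_of_nonneg Real.pi_pos.le]
      simp
    have h3 : ‖(n : ℂ) * (2 * Real.pi * Complex.I)‖ ≤ ‖x‖ + ‖y‖ := by
      have : (n : ℂ) * (2 * Real.pi * Complex.I) = x - y := by rw [hn]; ring
      rw [this]; exact norm_sub_le _ _
    rw [h2] at h3
    have := Real.pi_gt_three
    nlinarith

lemma osc_good {G w : ℝ → ℂ} (hG : Continuous G) (hexp : ∀ t, Complex.exp (G t) = w t)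
    {a b r : ℝ} (hw : ∀ t, a ≤ t → t ≤ b → ‖w t - w a‖ ≤ r) (hr : 2 * r < ‖w a‖) (hr0 : 0 ≤ r)
    {t : ℝ} (h1 : a ≤ t) (h2 : t ≤ b) : ‖G t - G a‖ ≤ 3 / 2 * (r / ‖w a‖) := by
  have hwa : 0 < ‖w a‖ := lt_of_le_of_lt (by positivity) hr
  have hwa0 : w a ≠ 0 := norm_pos_iff.1 hwa
  -- the dichotomy
  have hd : ∀ u, a ≤ u → u ≤ b → ‖G u - G a‖ ≤ 3 / 2 * (r / ‖w a‖) ∨ 5 ≤ ‖G u - G a‖ := by
    intro u hu1 hu2
    have e1 : Complex.exp (G u - G a) = 1 + (w u - w a) / w a := by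
      rw [Complex.exp_sub, hexp, hexp]; field_simp; ring
    set v := (w u - w a) / w a with hv
    have hvn : ‖v‖ ≤ r / ‖w a‖ := by
      rw [hv, norm_div]; gcongr; exact hw u hu1 hu2
    have hrw : r / ‖w a‖ ≤ 1 / 2 := by
      rw [div_le_iff₀ hwa]; linarith
    have hv2 : ‖v‖ ≤ 1 / 2 := hvn.trans hrw
    have hlog := Complex.norm_log_one_add_half_le_self hv2
    have hne : (1 + v) ≠ 0 := by
      intro h0
      have : v = -1 := by linear_combination h0
      rw [this, norm_neg, norm_one] at hv2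
      norm_num at hv2
    have e2 : Complex.exp (G u - G a) = Complex.exp (Complex.log (1 + v)) := by
      rw [Complex.exp_log hne, e1]
    have hl : ‖Complex.log (1 + v)‖ ≤ 3 / 4 := by linarith
    rcases exp_dich e2 hl with h | h
    · left; exact h.trans (hlog.trans (by gcongr))
    · right; exact h
  rcases hd t h1 h2 with h | h
  · exact h
  · exfalso
    have hcont : ContinuousOn (fun u => ‖G u - G a‖) (Set.Icc a t) :=
      (hG.sub continuous_const).norm.continuousOn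
    have hivt := intermediate_value_Icc h1 hcont
    have h2mem : (2 : ℝ) ∈ Set.Icc (‖G a - G a‖) (‖G t - G a‖) := by
      rw [sub_self, norm_zero]; constructor <;> linarith
    obtain ⟨u, hu, hu2⟩ := hivt h2mem
    simp only at hu2
    have hrw : r / ‖w a‖ ≤ 1 / 2 := by
      rw [div_le_iff₀ hwa]; linarith
    rcases hd u hu.1 (hu.2.trans h2) with h' | h'
    · rw [hu2] at h'; linarith
    · rw [hu2] at h'; linarith

/-! ### Sums over the dyadic tree -/

/-- total weight of the descendants, to depth `e` -/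
noncomputable def cnt (w : ℕ → ℕ → ℝ) : ℕ → ℕ → ℕ → ℝ
  | 0, _, _ => 0
  | e + 1, n, j => w n j + cnt w e (n + 1) (2 * j) + cnt w e (n + 1) (2 * j + 1)

lemma cnt_nonneg {w : ℕ → ℕ → ℝ} (hw : ∀ n j, 0 ≤ w n j) : ∀ e n j, 0 ≤ cnt w e n j
  | 0, n, j => le_refl _
  | e + 1, n, j => by
      rw [cnt]
      have h1 := cnt_nonneg hw e (n + 1) (2 * j)
      have h2 := cnt_nonneg hw e (n + 1) (2 * j + 1)
      have h3 := hw n j
      linarith

lemma cnt_periodic {w : ℕ → ℕ → ℝ} (hw : ∀ n j, w n (j + 2 ^ n) = w n j) :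
    ∀ e n j, cnt w e n (j + 2 ^ n) = cnt w e n j
  | 0, n, j => rfl
  | e + 1, n, j => by
      rw [cnt, cnt, hw]
      have e1 : 2 * (j + 2 ^ n) = 2 * j + 2 ^ (n + 1) := by ring
      have e2 : 2 * (j + 2 ^ n) + 1 = (2 * j + 1) + 2 ^ (n + 1) := by ring
      rw [e2, e1, cnt_periodic hw e (n + 1), cnt_periodic hw e (n + 1)]

lemma sum_two (f : ℕ → ℝ) (m : ℕ) :
    ∑ j ∈ Finset.range m, (f (2 * j) + f (2 * j + 1)) = ∑ j ∈ Finset.range (2 * m), f j := by
  induction m with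
  | zero => simp
  | succ m ih =>
    rw [Finset.sum_range_succ, ih, show 2 * (m + 1) = 2 * m + 1 + 1 by ring, Finset.sum_range_succ,
      Finset.sum_range_succ]
    ring

lemma sum_cnt (w : ℕ → ℕ → ℝ) : ∀ e n : ℕ, ∑ j ∈ Finset.range (2 ^ n), cnt w e n j
    = ∑ i ∈ Finset.range e, ∑ j ∈ Finset.range (2 ^ (n + i)), w (n + i) j
  | 0, n => by simp [cnt]
  | e + 1, n => by
      simp only [cnt]
      have h1 : ∑ j ∈ Finset.range (2 ^ n),
          (w n j + cnt w e (n + 1) (2 * j) + cnt w e (n + 1) (2 * j + 1))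
          = ∑ j ∈ Finset.range (2 ^ n), w n j
            + ∑ j ∈ Finset.range (2 ^ n), (cnt w e (n + 1) (2 * j) + cnt w e (n + 1) (2 * j + 1)) := by
        rw [← Finset.sum_add_distrib]
        exact Finset.sum_congr rfl fun j _ => by ring
      rw [h1, sum_two (cnt w e (n + 1)), show 2 * 2 ^ n = 2 ^ (n + 1) by ring, sum_cnt w e (n + 1),
        Finset.sum_range_succ']
      rw [add_comm]
      congr 1
      refine Finset.sum_congr rfl fun i _ => ?_
      rw [show n + (i + 1) = n + 1 + i by ring]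

/-- dyadic points -/
noncomputable def pt (n j : ℕ) : ℝ := (j : ℝ) / 2 ^ n

lemma pt_two (n j : ℕ) : pt (n + 1) (2 * j) = pt n j := by
  unfold pt; push_cast; rw [pow_succ]; field_simp

lemma pt_succ (n j : ℕ) : pt n (j + 1) = pt n j + 1 / 2 ^ n := by
  unfold pt; push_cast; ring

lemma pt_period (n j : ℕ) : pt n (j + 2 ^ n) = pt n j + 1 := by
  unfold pt; push_cast; rw [add_div, div_self (by positivity)]

/-- Oscillation of the logarithm, in terms of the weights of the descendants. -/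
lemma osc_cnt {G w : ℝ → ℂ} (hG : Continuous G) (hexp : ∀ t, Complex.exp (G t) = w t)
    {ρ v : ℕ → ℕ → ℝ} (hρ0 : ∀ n j, 0 ≤ ρ n j)
    (hρ : ∀ n j t, pt n j ≤ t → t ≤ pt n (j + 1) → ‖w t - w (pt n j)‖ ≤ ρ n j)
    (hv0 : ∀ n j, 0 ≤ v n j) (hv : ∀ n j, ‖w (pt n j)‖ ≤ 2 * ρ n j → 1 ≤ v n j) :
    ∀ (e n j : ℕ), (∀ m, n + e ≤ m → ∀ i, 2 * ρ m i < ‖w (pt m i)‖) →
      ∀ t, pt n j ≤ t → t ≤ pt n (j + 1) → ‖G t - G (pt n j)‖ ≤ 1 + cnt v e n j := by
  intro e
  induction e with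
  | zero =>
    intro n j hgood t h1 h2
    have hg := hgood n le_rfl j
    have h := osc_good hG hexp (hρ n j) hg (hρ0 n j) h1 h2
    have hpos : 0 < ‖w (pt n j)‖ := lt_of_le_of_lt (by have := hρ0 n j; positivity) hg
    have h3 : ρ n j / ‖w (pt n j)‖ ≤ 1 / 2 := by
      rw [div_le_iff₀ hpos]; linarith
    rw [cnt]; linarith
  | succ e ih =>
    intro n j hgood t h1 h2
    have hc1 := cnt_nonneg hv0 e (n + 1) (2 * j)
    have hc2 := cnt_nonneg hv0 e (n + 1) (2 * j + 1)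
    have hvn := hv0 n j
    rw [cnt]
    by_cases hg : 2 * ρ n j < ‖w (pt n j)‖
    · have h := osc_good hG hexp (hρ n j) hg (hρ0 n j) h1 h2
      have hpos : 0 < ‖w (pt n j)‖ := lt_of_le_of_lt (by have := hρ0 n j; positivity) hg
      have h3 : ρ n j / ‖w (pt n j)‖ ≤ 1 / 2 := by
        rw [div_le_iff₀ hpos]; linarith
      linarith
    · have hv1 := hv n j (not_lt.1 hg)
      have hgood' : ∀ m, n + 1 + e ≤ m → ∀ i, 2 * ρ m i < ‖w (pt m i)‖ := fun m hm i =>
        hgood m (by omega) i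
      have ih1 := ih (n + 1) (2 * j) hgood'
      have ih2 := ih (n + 1) (2 * j + 1) hgood'
      have e1 : pt (n + 1) (2 * j + 1 + 1) = pt n (j + 1) := by
        rw [← pt_two n (j + 1)]; rfl
      rw [pt_two] at ih1
      rw [e1] at ih2
      rcases le_total t (pt (n + 1) (2 * j + 1)) with ht | ht
      · have := ih1 t h1 ht
        linarith
      · have hm1 : pt n j ≤ pt (n + 1) (2 * j + 1) := by
          rw [← pt_two n j, pt_succ]
          have : (0 : ℝ) ≤ 1 / 2 ^ (n + 1) := by positivity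
          linarith
        have k1 := ih1 _ hm1 le_rfl
        have k2 := ih2 t ht h2
        have k3 : ‖G t - G (pt n j)‖
            ≤ ‖G t - G (pt (n + 1) (2 * j + 1))‖ + ‖G (pt (n + 1) (2 * j + 1)) - G (pt n j)‖ := by
          have : G t - G (pt n j) = (G t - G (pt (n + 1) (2 * j + 1)))
            + (G (pt (n + 1) (2 * j + 1)) - G (pt n j)) := by ring
          rw [this]; exact norm_add_le _ _
        linarith

/-- The integral of the square of a dyadic difference. -/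
lemma int_dif {G : ℝ → ℂ} (hG : Continuous G) (n : ℕ) (b : ℕ → ℝ) (hb0 : ∀ j, 0 ≤ b j)
    (hbp : b (2 ^ n) = b 0)
    (hb : ∀ j t, pt n j ≤ t → t ≤ pt n (j + 1) → ‖G t - G (pt n j)‖ ≤ b j) :
    ∫ t in (0 : ℝ)..1, ‖G (t + 1 / 2 ^ n) - G t‖ ^ 2
      ≤ 9 / 2 ^ n * ∑ j ∈ Finset.range (2 ^ n), b j ^ 2 := by
  have hcont : Continuous fun t : ℝ => ‖G (t + 1 / 2 ^ n) - G t‖ ^ 2 := by fun_prop
  have h1 : ∫ t in (0 : ℝ)..1, ‖G (t + 1 / 2 ^ n) - G t‖ ^ 2
      = ∑ j ∈ Finset.range (2 ^ n), ∫ t in (pt n j)..(pt n (j + 1)), ‖G (t + 1 / 2 ^ n) - G t‖ ^ 2 := by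
    rw [intervalIntegral.sum_integral_adjacent_intervals (fun k _ => hcont.intervalIntegrable _ _)]
    have e0 : pt n 0 = 0 := by unfold pt; simp
    have e1 : pt n (2 ^ n) = 1 := by unfold pt; push_cast; exact div_self (by positivity)
    rw [e0, e1]
  rw [h1]
  have h2 : ∀ j ∈ Finset.range (2 ^ n),
      ∫ t in (pt n j)..(pt n (j + 1)), ‖G (t + 1 / 2 ^ n) - G t‖ ^ 2
        ≤ (6 * b j ^ 2 + 3 * b (j + 1) ^ 2) * (1 / 2 ^ n) := by
    intro j _
    have hle : pt n j ≤ pt n (j + 1) := by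
      rw [pt_succ]; have : (0 : ℝ) ≤ 1 / 2 ^ n := by positivity
      linarith
    have h3 : ∀ t ∈ Set.Icc (pt n j) (pt n (j + 1)),
        ‖G (t + 1 / 2 ^ n) - G t‖ ^ 2 ≤ 6 * b j ^ 2 + 3 * b (j + 1) ^ 2 := by
      rintro t ⟨ht1, ht2⟩
      have k1 := hb j t ht1 ht2
      have k2 := hb j (pt n (j + 1)) hle le_rfl
      have k3 := hb (j + 1) (t + 1 / 2 ^ n) (by rw [pt_succ]; linarith) (by
        rw [pt_succ n (j + 1)]; linarith)
      have k4 : ‖G (t + 1 / 2 ^ n) - G t‖ ≤ b (j + 1) + b j + b j := by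
        have : G (t + 1 / 2 ^ n) - G t = (G (t + 1 / 2 ^ n) - G (pt n (j + 1)))
          + (G (pt n (j + 1)) - G (pt n j)) - (G t - G (pt n j)) := by ring
        rw [this]
        refine (norm_sub_le _ _).trans ?_
        have := norm_add_le (G (t + 1 / 2 ^ n) - G (pt n (j + 1))) (G (pt n (j + 1)) - G (pt n j))
        linarith
      have k5 : ‖G (t + 1 / 2 ^ n) - G t‖ ^ 2 ≤ (b (j + 1) + b j + b j) ^ 2 :=
        pow_le_pow_left₀ (norm_nonneg _) k4 2
      nlinarith [sq_nonneg (b (j + 1) - b j)]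
    calc ∫ t in (pt n j)..(pt n (j + 1)), ‖G (t + 1 / 2 ^ n) - G t‖ ^ 2
        ≤ ∫ t in (pt n j)..(pt n (j + 1)), (6 * b j ^ 2 + 3 * b (j + 1) ^ 2) :=
          intervalIntegral.integral_mono_on hle (hcont.intervalIntegrable _ _)
            (continuous_const.intervalIntegrable _ _) h3
      _ = (6 * b j ^ 2 + 3 * b (j + 1) ^ 2) * (1 / 2 ^ n) := by
          rw [intervalIntegral.integral_const, smul_eq_mul, pt_succ]; ring
  refine (Finset.sum_le_sum h2).trans (le_of_eq ?_)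
  have h4 : ∑ j ∈ Finset.range (2 ^ n), b (j + 1) ^ 2 = ∑ j ∈ Finset.range (2 ^ n), b j ^ 2 := by
    have k1 := Finset.sum_range_succ (fun j => b j ^ 2) (2 ^ n)
    have k2 := Finset.sum_range_succ' (fun j => b j ^ 2) (2 ^ n)
    rw [hbp] at k1
    linarith
  rw [← Finset.sum_mul, Finset.sum_add_distrib, ← Finset.mul_sum, ← Finset.mul_sum, h4]
  ring

end Pool.Agent.H933.TI
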