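import Pool.Agent.H933.TI.Shift

/-!
# Hölder functions of order above `1/2` satisfy the Sobolev condition
-/

set_option autoImplicit false
set_option linter.unusedVariables false

open scoped BigOperators ENNReal
open MeasureTheory AddCircle Metric

namespace Pool.Agent.H933.TI

lemma summable_of_blocks {f : ℤ → ℝ} (hf : ∀ n, 0 ≤ f n) {E : ℕ → ℝ} (hE0 : ∀ n, 0 ≤ E n)
    (hE : Summable E)
    (h : ∀ j : ℕ, ∑ n ∈ Finset.Ioo (-2 ^ (j + 1) : ℤ) (2 ^ (j + 1)) \ Finset.Ioo (-2 ^ j : ℤ) (2 ^ j),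
      f n ≤ E j) : Summable f := by
  have hdy : ∀ J : ℕ, ∑ n ∈ Finset.Ioo (-2 ^ J : ℤ) (2 ^ J), f n
      ≤ f 0 + ∑ j ∈ Finset.range J, E j := by
    intro J
    induction J with
    | zero =>
      have : Finset.Ioo (-2 ^ 0 : ℤ) (2 ^ 0) = {0} := by decide
      rw [this]; simp
    | succ J ih =>
      have hsub : Finset.Ioo (-2 ^ J : ℤ) (2 ^ J) ⊆ Finset.Ioo (-2 ^ (J + 1) : ℤ) (2 ^ (J + 1)) := by
        have : (2 : ℤ) ^ J ≤ 2 ^ (J + 1) := pow_le_pow_right₀ (by norm_num) (by omega)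
        exact Finset.Ioo_subset_Ioo (by linarith) this
      rw [← Finset.sum_sdiff hsub, Finset.sum_range_succ]
      have := h J
      linarith
  refine summable_of_sum_le (c := f 0 + ∑' j, E j) hf fun u => ?_
  set J := u.sup (fun n => n.natAbs) with hJ
  have hsub : u ⊆ Finset.Ioo (-2 ^ J : ℤ) (2 ^ J) := by
    intro n hn
    have h1 : n.natAbs ≤ J := Finset.le_sup (f := fun n : ℤ => n.natAbs) hn
    have h2 : J < 2 ^ J := Nat.lt_two_pow_self
    have h3 : |n| < (2 : ℤ) ^ J := by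
      rw [Int.abs_eq_natAbs]
      exact_mod_cast lt_of_le_of_lt h1 h2
    rw [Finset.mem_Ioo]
    exact abs_lt.1 h3
  calc ∑ n ∈ u, f n ≤ ∑ n ∈ Finset.Ioo (-2 ^ J : ℤ) (2 ^ J), f n :=
        Finset.sum_le_sum_of_subset_of_nonneg hsub fun _ _ _ => hf _
    _ ≤ f 0 + ∑ j ∈ Finset.range J, E j := hdy J
    _ ≤ f 0 + ∑' j, E j := by
        have := hE.sum_le_tsum (Finset.range J) fun _ _ => hE0 _
        linarith

lemma sobolev_of_hoelder (f : C(UnitAddCircle, ℂ)) {β C r : ℝ} (hβ : 0 < β) (hr0 : 0 < r)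
    (hr : r < β) (hf : ∀ s t, ‖f s - f t‖ ≤ C * dist s t ^ β) :
    Summable fun m : ℤ => |(m : ℝ)| ^ (2 * r) * ‖fourierCoeff f m‖ ^ 2 := by
  have hC0 : 0 ≤ C := by
    have h1 := hf 0 ((1 / 2 : ℝ) : UnitAddCircle)
    have h2 : 0 < dist (0 : UnitAddCircle) ((1 / 2 : ℝ) : UnitAddCircle) := by
      rw [dist_pos]
      intro h0
      have h3 : ((1 / 2 : ℝ) : UnitAddCircle) = 0 := h0.symm
      rw [AddCircle.coe_eq_zero_iff] at h3
      obtain ⟨n, hn⟩ := h3
      simp only [zsmul_eq_mul, mul_one] at hn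
      have h4 : (2 * n : ℤ) = 1 := by
        have : ((2 * n : ℤ) : ℝ) = 1 := by push_cast; rw [hn]; norm_num
        exact_mod_cast this
      omega
    have h3 : 0 < dist (0 : UnitAddCircle) ((1 / 2 : ℝ) : UnitAddCircle) ^ β := by positivity
    by_contra hC
    rw [not_le] at hC
    have := mul_neg_of_neg_of_pos hC h3
    linarith [norm_nonneg (f 0 - f ((1 / 2 : ℝ) : UnitAddCircle))]
  set θ : ℝ := (2 : ℝ) ^ (2 * (r - β)) with hθ
  have hθ0 : 0 < θ := by positivity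
  have hθ1 : θ < 1 := Real.rpow_lt_one_of_one_lt_of_neg (by norm_num) (by linarith)
  refine summable_of_blocks (fun n => by positivity) (E := fun j => (2 : ℝ) ^ (2 * r) * C ^ 2 * θ ^ j)
    (fun n => by positivity) ((summable_geometric_of_lt_one hθ0.le hθ1).mul_left _) fun j => ?_
  set H : UnitAddCircle := ((1 / 2 ^ (j + 2) : ℝ) : UnitAddCircle) with hH
  set s : Finset ℤ := Finset.Ioo (-2 ^ (j + 1) : ℤ) (2 ^ (j + 1)) \ Finset.Ioo (-2 ^ j : ℤ) (2 ^ j)
    with hs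
  have h1 : ∀ n ∈ s, |(n : ℝ)| ^ (2 * r) * ‖fourierCoeff f n‖ ^ 2
      ≤ ((2 : ℝ) ^ (j + 1)) ^ (2 * r) * ‖fourierCoeff (dif f H) n‖ ^ 2 := by
    intro n hn
    have hn' : 2 ^ j ≤ |n| ∧ |n| < 2 ^ (j + 1) := by
      rw [hs, Finset.mem_sdiff, Finset.mem_Ioo, Finset.mem_Ioo] at hn
      refine ⟨?_, abs_lt.2 hn.1⟩
      by_contra hcon
      exact hn.2 (abs_lt.1 (not_le.1 hcon))
    have h2 := one_le_norm_fourier_sub j n hn'.1 hn'.2
    have h3 : |(n : ℝ)| ≤ 2 ^ (j + 1) := by exact_mod_cast hn'.2.le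
    rw [coeff_dif, norm_mul]
    refine mul_le_mul (Real.rpow_le_rpow (abs_nonneg _) h3 (by positivity)) ?_ (by positivity)
      (by positivity)
    refine pow_le_pow_left₀ (norm_nonneg _) ?_ 2
    have h0 := norm_nonneg (fourierCoeff f n)
    nlinarith
  have hHd : ‖H‖ ≤ 1 / 2 ^ (j + 2) := by
    rw [hH]
    refine (QuotientAddGroup.norm_mk_le_norm (S := AddSubgroup.zmultiples (1 : ℝ))).trans ?_
    rw [Real.norm_of_nonneg (by positivity)]
  have h2 : ∫ t : UnitAddCircle, ‖dif f H t‖ ^ 2 ∂haarAddCircle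
      ≤ (C * (1 / 2 ^ (j + 2)) ^ β) ^ 2 := by
    have hb : ∀ t : UnitAddCircle, ‖dif f H t‖ ^ 2 ≤ (C * (1 / 2 ^ (j + 2)) ^ β) ^ 2 := by
      intro t
      refine pow_le_pow_left₀ (norm_nonneg _) ?_ 2
      refine (hf (t + H) t).trans ?_
      rw [dist_eq_norm, add_sub_cancel_left]
      exact mul_le_mul_of_nonneg_left (Real.rpow_le_rpow (norm_nonneg _) hHd hβ.le) hC0
    have hc : Continuous fun t => ‖dif f H t‖ ^ 2 := by fun_prop
    calc ∫ t : UnitAddCircle, ‖dif f H t‖ ^ 2 ∂haarAddCircle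
        ≤ ∫ t : UnitAddCircle, (C * (1 / 2 ^ (j + 2)) ^ β) ^ 2 ∂haarAddCircle :=
          integral_mono (int_circle hc) (integrable_const _) hb
      _ = _ := by simp
  calc ∑ n ∈ s, |(n : ℝ)| ^ (2 * r) * ‖fourierCoeff f n‖ ^ 2
      ≤ ∑ n ∈ s, ((2 : ℝ) ^ (j + 1)) ^ (2 * r) * ‖fourierCoeff (dif f H) n‖ ^ 2 :=
        Finset.sum_le_sum h1
    _ = ((2 : ℝ) ^ (j + 1)) ^ (2 * r) * ∑ n ∈ s, ‖fourierCoeff (dif f H) n‖ ^ 2 := by
        rw [Finset.mul_sum]
    _ ≤ ((2 : ℝ) ^ (j + 1)) ^ (2 * r) * ∫ t : UnitAddCircle, ‖dif f H t‖ ^ 2 ∂haarAddCircle := by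
        refine mul_le_mul_of_nonneg_left ?_ (by positivity)
        exact sum_le_hasSum s (fun n _ => by positivity) (parseval (dif f H))
    _ ≤ ((2 : ℝ) ^ (j + 1)) ^ (2 * r) * (C * (1 / 2 ^ (j + 2)) ^ β) ^ 2 :=
        mul_le_mul_of_nonneg_left h2 (by positivity)
    _ ≤ (2 : ℝ) ^ (2 * r) * C ^ 2 * θ ^ j := by
        have e1 : ((2 : ℝ) ^ (j + 1)) ^ (2 * r) = (2 : ℝ) ^ (2 * r) * (2 : ℝ) ^ (2 * r * j) := by
          rw [← Real.rpow_natCast, ← Real.rpow_mul (by norm_num), ← Real.rpow_add (by norm_num)]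
          congr 1; push_cast; ring
        have e2 : ((1 / 2 ^ (j + 2) : ℝ)) ^ β ≤ (2 : ℝ) ^ (-(β * j)) := by
          rw [one_div, ← Real.rpow_natCast, ← Real.rpow_neg (by norm_num),
            ← Real.rpow_mul (by norm_num)]
          refine Real.rpow_le_rpow_of_exponent_le (by norm_num) ?_
          push_cast
          nlinarith
        have e3 : θ ^ j = (2 : ℝ) ^ (2 * r * j) * ((2 : ℝ) ^ (-(β * j))) ^ 2 := by
          rw [hθ, ← Real.rpow_natCast, ← Real.rpow_natCast, ← Real.rpow_mul (by norm_num),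
            ← Real.rpow_mul (by norm_num), ← Real.rpow_add (by norm_num)]
          congr 1; push_cast; ring
        rw [e1, e3]
        have e4 : (C * (1 / 2 ^ (j + 2)) ^ β) ^ 2 ≤ (C * (2 : ℝ) ^ (-(β * j))) ^ 2 :=
          pow_le_pow_left₀ (by positivity) (mul_le_mul_of_nonneg_left e2 hC0) 2
        calc (2 : ℝ) ^ (2 * r) * (2 : ℝ) ^ (2 * r * j) * (C * (1 / 2 ^ (j + 2)) ^ β) ^ 2
            ≤ (2 : ℝ) ^ (2 * r) * (2 : ℝ) ^ (2 * r * j) * (C * (2 : ℝ) ^ (-(β * j))) ^ 2 :=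
              mul_le_mul_of_nonneg_left e4 (by positivity)
          _ = _ := by ring

lemma top_split {X : Type} [NormedAddCommGroup X] [NormedSpace ℂ X] [CompleteSpace X]
    (S R : X →L[ℂ] X) (K : ℝ) (hK : ∀ n : ℤ, ‖U S R n‖ ≤ K) (c : W) :
    top S R K hK c = ∑' n : ℕ, c n • S ^ n + ∑' n : ℕ, c (-((n : ℤ) + 1)) • R ^ (n + 1) := by
  set F : ℤ → (X →L[ℂ] X) := fun n => c n • U S R n with hF
  have h1 : HasSum F (top S R K hK c) := (summable_lift _ K hK _).of_norm.hasSum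
  have hs := h1.summable
  have hs1 : Summable fun n : ℕ => F n :=
    hs.comp_injective (i := fun n : ℕ => (n : ℤ)) Nat.cast_injective
  have hs2 : Summable fun n : ℕ => F (-((n : ℤ) + 1)) :=
    hs.comp_injective (i := fun n : ℕ => (-((n : ℤ) + 1))) (fun a b hab => by
      simp only at hab; omega)
  have h2 := tsum_of_nat_of_neg_add_one (f := F) hs1 hs2
  rw [h1.tsum_eq] at h2
  rw [h2]
  have e1 : ∀ n : ℕ, F n = c n • S ^ n := fun n => by simp only [hF]; rw [U_natCast]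
  have e2 : ∀ n : ℕ, F (-((n : ℤ) + 1)) = c (-((n : ℤ) + 1)) • R ^ (n + 1) := fun n => by
    have h3 : (-((n : ℤ) + 1)) = -((n + 1 : ℕ) : ℤ) := by push_cast; ring
    simp only [hF]
    rw [h3, U_neg_natCast]
  rw [tsum_congr e1, tsum_congr e2]

/-- Hölder functions satisfy the conditions. -/
theorem hoelder_data {a : UnitAddCircle → ℂ} {β C : ℝ} (hβ : 1 / 2 < β)
    (ha : ∀ s t, ‖a s - a t‖ ≤ C * dist s t ^ β) (hne : ∃ s t, a s ≠ a t) :
    (∃ r : ℝ, 1 / 2 < r ∧ Summable fun m : ℤ => |(m : ℝ)| ^ (2 * r) * ‖fourierCoeff a m‖ ^ 2) ∧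
      ∃ n : ℤ, n ≠ 0 ∧ fourierCoeff a n ≠ 0 := by
  have hβ0 : 0 < β := by linarith
  have hac : Continuous a := by
    rw [continuous_iff_continuousAt]
    intro t
    rw [ContinuousAt, tendsto_iff_norm_sub_tendsto_zero]
    have h1 : Filter.Tendsto (fun s : UnitAddCircle => C * dist s t ^ β) (nhds t) (nhds 0) := by
      have h2 : Continuous fun s : UnitAddCircle => C * dist s t ^ β :=
        continuous_const.mul ((continuous_id.dist continuous_const).rpow_const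
          fun _ => Or.inr hβ0.le)
      have h3 := h2.tendsto t
      simp only [dist_self, Real.zero_rpow hβ0.ne', mul_zero] at h3
      exact h3
    exact squeeze_zero (fun s => norm_nonneg _) (fun s => ha s t) h1
  set f : C(UnitAddCircle, ℂ) := ⟨a, hac⟩ with hf
  have hs := sobolev_of_hoelder f (r := (β + 1 / 2) / 2) hβ0 (by linarith) (by linarith) ha
  refine ⟨⟨(β + 1 / 2) / 2, by linarith, hs⟩, ?_⟩
  by_contra hcon
  push Not at hcon
  have hsum : Summable fun n => ‖fourierCoeff f n‖ := summable_of_sobolev (by linarith) hs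
  obtain ⟨s, t, hst⟩ := hne
  apply hst
  have h1 : ∀ x, a x = fourierCoeff a 0 := by
    intro x
    have h2 := has_pointwise_sum_fourier_series_of_summable (f := f) hsum.of_norm x
    have h3 : HasSum (fun i => fourierCoeff f i • (fourier i x : ℂ)) (fourierCoeff a 0) := by
      have h4 := hasSum_single (f := fun i => fourierCoeff f i • (fourier i x : ℂ)) 0 (fun n hn => by
        have : fourierCoeff f n = 0 := hcon n hn
        simp only [this, zero_smul])
      simp only [fourier_zero, smul_eq_mul, mul_one] at h4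
      exact h4
    exact h2.unique h3
  rw [h1 s, h1 t]

end Pool.Agent.H933.TI
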