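import Pool.Agent.H933.TI.Op2

/-!
# The values of the symbol belong to the spectrum
-/

set_option autoImplicit false
set_option linter.unusedSectionVars false
set_option linter.deprecated false
set_option linter.unusedVariables false

open scoped BigOperators Nat
open MeasureTheory AddCircle Pool.Agent.Results.MP_f981b0_an.LogIntegrableNests

namespace Pool.Agent.H933.TI

section Approx

variable {X : Type} [NormedAddCommGroup X] [NormedSpace ℂ X] [CompleteSpace X]

/-- `S` has approximate eigenvectors for every number of modulus one -/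
lemma approx_eigen {S R : X →L[ℂ] X} (K : ℝ) (hK : ∀ n : ℤ, ‖U S R n‖ ≤ K) (h : R * S = 1)
    (hSR : S * R ≠ 1) (ζ : ℂ) (hζ : ‖ζ‖ = 1) (δ : ℝ) (hδ : 0 < δ) :
    ∃ x : X, ‖x‖ = 1 ∧ ‖S x - ζ • x‖ ≤ δ := by
  by_contra hcon
  push Not at hcon
  have hζ0 : ζ ≠ 0 := by intro h0; rw [h0, norm_zero] at hζ; exact zero_ne_one hζ
  have hbelow : ∀ x : X, δ * ‖x‖ ≤ ‖S x - ζ • x‖ := by
    intro x
    by_cases hx : x = 0
    · subst hx; simp
    have hx0 : ‖x‖ ≠ 0 := norm_ne_zero_iff.2 hx
    have h1 := hcon (((‖x‖ : ℝ) : ℂ)⁻¹ • x) (by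
      rw [norm_smul, norm_inv, Complex.norm_real, norm_norm, inv_mul_cancel₀ hx0])
    rw [map_smul, smul_comm, ← smul_sub, norm_smul, norm_inv, Complex.norm_real, norm_norm] at h1
    have h2 := mul_le_mul_of_nonneg_right h1.le (norm_nonneg x)
    rwa [mul_comm (‖x‖⁻¹) _, mul_assoc, inv_mul_cancel₀ hx0, mul_one] at h2
  -- a vector of the kernel of `R`
  obtain ⟨v, hv0, hv⟩ : ∃ v : X, v ≠ 0 ∧ R v = 0 := by
    by_contra hno
    push Not at hno
    apply hSR
    ext x
    by_contra hx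
    refine hno ((S * R) x - x) (sub_ne_zero.2 hx) ?_
    rw [map_sub, ← mul_apply_eq_comp R, ← mul_assoc, h, one_mul, sub_self]
  set A : X →L[ℂ] X := ζ⁻¹ • S with hA
  have hApow : ∀ n : ℕ, A ^ n = (ζ⁻¹) ^ n • S ^ n := fun n => by rw [hA, smul_pow]
  have hζn : ∀ n : ℕ, ‖(ζ⁻¹) ^ n‖ = 1 := fun n => by rw [norm_pow, norm_inv, hζ, inv_one, one_pow]
  have hK0 : 0 ≤ K := (norm_nonneg _).trans (hK 0)
  have hAn : ∀ n : ℕ, ‖A ^ n‖ ≤ K := fun n => by
    rw [hApow, norm_smul, hζn, one_mul, ← U_natCast S R]; exact hK n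
  have hbelowA : ∀ x : X, δ * ‖x‖ ≤ ‖(A - 1) x‖ := by
    intro x
    have : (A - 1) x = ζ⁻¹ • (S x - ζ • x) := by
      rw [hA, smul_sub, smul_smul, inv_mul_cancel₀ hζ0, one_smul]
      rfl
    rw [this, norm_smul, norm_inv, hζ, inv_one, one_mul]
    exact hbelow x
  set P : ℕ → (X →L[ℂ] X) := fun N => ∑ i ∈ Finset.range N, A ^ i with hP
  have hPb : ∀ N x, ‖P N x‖ ≤ (K + 1) / δ * ‖x‖ := by
    intro N x
    have h1 : (A - 1) * P N = A ^ N - 1 := by rw [hP]; exact mul_geom_sum A N
    have h2 := hbelowA (P N x)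
    rw [← mul_apply_eq_comp, h1] at h2
    have h3 : ‖(A ^ N - 1) x‖ ≤ (K + 1) * ‖x‖ := by
      have : (A ^ N - 1) x = (A ^ N) x - x := rfl
      rw [this]
      calc ‖(A ^ N) x - x‖ ≤ ‖(A ^ N) x‖ + ‖x‖ := norm_sub_le _ _
        _ ≤ K * ‖x‖ + ‖x‖ := by
            gcongr
            exact (A ^ N).le_of_opNorm_le (hAn N) x
        _ = (K + 1) * ‖x‖ := by ring
    rw [div_mul_eq_mul_div, le_div_iff₀ hδ, mul_comm]
    exact h2.trans h3
  -- lower bound
  have hRv : ∀ m : ℕ, 0 < m → (R ^ m : X →L[ℂ] X) v = 0 := by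
    intro m hm
    obtain ⟨k, rfl⟩ := Nat.exists_eq_succ_of_ne_zero hm.ne'
    rw [Nat.succ_eq_add_one, pow_succ, mul_apply_eq_comp, hv, map_zero]
  have hSj : ∀ j : ℕ, (1 - S * R : X →L[ℂ] X) ((S ^ j : X →L[ℂ] X) v) = if j = 0 then v else 0 := by
    intro j
    cases j with
    | zero =>
      simp only [pow_zero, if_true]
      change v - (S * R) v = v
      rw [mul_apply_eq_comp, hv, map_zero, sub_zero]
    | succ j =>
      rw [if_neg (Nat.succ_ne_zero j)]
      change (S ^ (j + 1) : X →L[ℂ] X) v - (S * R) ((S ^ (j + 1) : X →L[ℂ] X) v) = 0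
      rw [← mul_apply_eq_comp, mul_assoc, pow_succ', ← mul_assoc R, h, one_mul, sub_self]
  set Q : ℕ → (X →L[ℂ] X) := fun M => (1 - S * R) * R ^ M with hQ
  have hQA : ∀ M m : ℕ, Q M ((A ^ m) v) = if m = M then (ζ⁻¹) ^ M • v else 0 := by
    intro M m
    rw [hApow, ContinuousLinearMap.smul_apply, map_smul, hQ]
    simp only
    rw [mul_apply_eq_comp, ← mul_apply_eq_comp (R ^ M), R_pow_mul_S_pow h]
    rcases lt_trichotomy m M with hm | hm | hm
    · rw [if_neg hm.ne]
      have : (m : ℤ) - M = -((M - m : ℕ) : ℤ) := by omega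
      rw [this, U_neg_natCast, hRv _ (by omega), map_zero, smul_zero]
    · subst hm
      rw [sub_self, U_zero, if_pos rfl]
      have := hSj 0
      rw [pow_zero, if_pos rfl] at this
      rw [this]
    · rw [if_neg hm.ne']
      have : (m : ℤ) - M = ((m - M : ℕ) : ℤ) := by omega
      rw [this, U_natCast, hSj, if_neg (by omega), smul_zero]
  have hPP : ∀ M : ℕ, Q M (P (M + 1) (P (M + 1) v)) = ((M + 1 : ℕ) : ℂ) • ((ζ⁻¹) ^ M • v) := by
    intro M
    have h1 : P (M + 1) (P (M + 1) v)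
        = ∑ i ∈ Finset.range (M + 1), ∑ j ∈ Finset.range (M + 1), (A ^ (i + j)) v := by
      simp only [hP]
      rw [ContinuousLinearMap.sum_apply, ContinuousLinearMap.sum_apply]
      refine Finset.sum_congr rfl fun i _ => ?_
      rw [map_sum]
      refine Finset.sum_congr rfl fun j _ => ?_
      rw [← mul_apply_eq_comp, ← pow_add]
    rw [h1, map_sum]
    have h2 : ∀ i ∈ Finset.range (M + 1), Q M (∑ j ∈ Finset.range (M + 1), (A ^ (i + j)) v)
        = (ζ⁻¹) ^ M • v := by
      intro i hi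
      rw [Finset.mem_range] at hi
      rw [map_sum, Finset.sum_eq_single (M - i)]
      · rw [hQA, if_pos (by omega)]
      · intro j _ hj
        rw [hQA, if_neg (by omega)]
      · intro hj
        exact absurd (Finset.mem_range.2 (by omega)) hj
    rw [Finset.sum_congr rfl h2, Finset.sum_const, Finset.card_range, Nat.cast_smul_eq_nsmul]
  have hvn : 0 < ‖v‖ := norm_pos_iff.2 hv0
  obtain ⟨M, hM⟩ := exists_nat_gt (‖(1 - S * R : X →L[ℂ] X)‖ * K * (((K + 1) / δ) * ((K + 1) / δ)))
  have h1 : ‖Q M (P (M + 1) (P (M + 1) v))‖ = (M + 1 : ℕ) * ‖v‖ := by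
    rw [hPP, norm_smul, norm_smul, hζn, one_mul, Complex.norm_natCast]
  have h2 : ‖Q M (P (M + 1) (P (M + 1) v))‖
      ≤ ‖(1 - S * R : X →L[ℂ] X)‖ * K * (((K + 1) / δ) * ((K + 1) / δ)) * ‖v‖ := by
    calc ‖Q M (P (M + 1) (P (M + 1) v))‖ ≤ ‖Q M‖ * ‖P (M + 1) (P (M + 1) v)‖ :=
          (Q M).le_opNorm _
      _ ≤ (‖(1 - S * R : X →L[ℂ] X)‖ * K) * ((K + 1) / δ * ((K + 1) / δ * ‖v‖)) := by
          refine mul_le_mul ?_ ((hPb _ _).trans ?_) (norm_nonneg _) (by positivity)
          · refine (norm_mul_le _ _).trans ?_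
            gcongr
            rw [← U_neg_natCast S R]; exact hK _
          · exact mul_le_mul_of_nonneg_left (hPb _ _) (by positivity)
      _ = _ := by ring
  rw [h1] at h2
  have h3 := le_of_mul_le_mul_right h2 hvn
  push_cast at h3
  linarith

lemma fourier_natCast (t : UnitAddCircle) (n : ℕ) :
    (fourier (n : ℤ) t : ℂ) = (fourier 1 t : ℂ) ^ n := by
  induction n with
  | zero => simp
  | succ n ih => rw [Nat.cast_succ, fourier_add, ih, pow_succ]

lemma fourier_neg_natCast (t : UnitAddCircle) (n : ℕ) :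
    (fourier (-(n : ℤ)) t : ℂ) * (fourier 1 t : ℂ) ^ n = 1 := by
  rw [← fourier_natCast, ← fourier_add, neg_add_cancel, fourier_zero]

/-- the values of the symbol belong to the spectrum -/
lemma mem_spectrum {S R : X →L[ℂ] X} (K : ℝ) (hK : ∀ n : ℤ, ‖U S R n‖ ≤ K) (h : R * S = 1)
    (hSR : S * R ≠ 1) (c : W) (t : UnitAddCircle) : ev t c ∈ spectrum ℂ (top S R K hK c) := by
  by_contra hcon
  rw [spectrum.notMem_iff] at hcon
  set T := top S R K hK c with hT
  set l := ev t c with hl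
  obtain ⟨u, hu⟩ := hcon
  set J : X →L[ℂ] X := ((u⁻¹ : (X →L[ℂ] X)ˣ) : X →L[ℂ] X) with hJ
  have hJu : J * (algebraMap ℂ (X →L[ℂ] X) l - T) = 1 := by rw [← hu, hJ]; exact u.inv_mul
  have hK0 : 0 ≤ K := (norm_nonneg _).trans (hK 0)
  choose x hx1 hx2 using fun j : ℕ => approx_eigen K hK h hSR (fourier 1 t) (norm_fourier_apply 1 t)
    (1 / ((j : ℝ) + 1)) (by positivity)
  -- all of the operators `U n` are approximated
  have hpos : ∀ (m : ℕ) (j : ℕ), ‖(S ^ m : X →L[ℂ] X) (x j) - (fourier 1 t : ℂ) ^ m • x j‖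
      ≤ m * K * (1 / ((j : ℝ) + 1)) := by
    intro m j
    induction m with
    | zero => simp
    | succ m ih =>
      have he : (S ^ (m + 1) : X →L[ℂ] X) (x j) - (fourier 1 t : ℂ) ^ (m + 1) • x j
          = (S ^ m : X →L[ℂ] X) (S (x j) - (fourier 1 t : ℂ) • x j)
            + (fourier 1 t : ℂ) • ((S ^ m : X →L[ℂ] X) (x j) - (fourier 1 t : ℂ) ^ m • x j) := by
        rw [pow_succ, mul_apply_eq_comp, map_sub, map_smul, smul_sub, smul_smul, ← pow_succ']
        abel
      rw [he]
      refine (norm_add_le _ _).trans ?_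
      rw [norm_smul, norm_fourier_apply, one_mul]
      have h1 : ‖(S ^ m : X →L[ℂ] X) (S (x j) - (fourier 1 t : ℂ) • x j)‖
          ≤ K * (1 / ((j : ℝ) + 1)) := by
        refine ((S ^ m : X →L[ℂ] X).le_opNorm _).trans ?_
        refine mul_le_mul ?_ (hx2 j) (norm_nonneg _) hK0
        rw [← U_natCast S R]; exact hK _
      rw [Nat.cast_succ]
      calc _ ≤ K * (1 / ((j : ℝ) + 1)) + m * K * (1 / ((j : ℝ) + 1)) := add_le_add h1 ih
        _ = _ := by ring
  have hneg : ∀ (m : ℕ) (j : ℕ), ‖(R ^ m : X →L[ℂ] X) (x j) - (fourier (-(m : ℤ)) t : ℂ) • x j‖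
      ≤ K * (m * K * (1 / ((j : ℝ) + 1))) := by
    intro m j
    have he : (R ^ m : X →L[ℂ] X) (x j) - (fourier (-(m : ℤ)) t : ℂ) • x j
        = -((fourier (-(m : ℤ)) t : ℂ) • (R ^ m : X →L[ℂ] X)
          ((S ^ m : X →L[ℂ] X) (x j) - (fourier 1 t : ℂ) ^ m • x j)) := by
      rw [map_sub, ← mul_apply_eq_comp, pow_one_sided h, map_smul, smul_sub, smul_smul,
        fourier_neg_natCast, one_smul]
      simp
    rw [he, norm_neg, norm_smul, norm_fourier_apply, one_mul]
    refine ((R ^ m : X →L[ℂ] X).le_opNorm _).trans ?_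
    refine mul_le_mul ?_ (hpos m j) (norm_nonneg _) hK0
    rw [← U_neg_natCast S R]; exact hK _
  have hlim1 : Filter.Tendsto (fun j : ℕ => (1 / ((j : ℝ) + 1))) Filter.atTop (nhds 0) :=
    tendsto_one_div_add_atTop_nhds_zero_nat
  have hterm : ∀ n : ℤ, Filter.Tendsto
      (fun j : ℕ => ‖c n‖ * ‖U S R n (x j) - (fourier n t : ℂ) • x j‖) Filter.atTop (nhds 0) := by
    intro n
    have h0 : Filter.Tendsto (fun j : ℕ => ‖U S R n (x j) - (fourier n t : ℂ) • x j‖)
        Filter.atTop (nhds 0) := by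
      rcases le_total 0 n with hn | hn
      · obtain ⟨m, rfl⟩ := Int.eq_ofNat_of_zero_le hn
        have hb : Filter.Tendsto (fun j : ℕ => (m : ℝ) * K * (1 / ((j : ℝ) + 1))) Filter.atTop
            (nhds 0) := by simpa using hlim1.const_mul ((m : ℝ) * K)
        refine squeeze_zero (fun j => norm_nonneg _) (fun j => ?_) hb
        rw [U_natCast, fourier_natCast]
        exact hpos m j
      · obtain ⟨m, hm⟩ := Int.eq_ofNat_of_zero_le (show 0 ≤ -n by omega)
        have hm' : n = -(m : ℤ) := by omega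
        subst hm'
        have hb : Filter.Tendsto (fun j : ℕ => K * ((m : ℝ) * K * (1 / ((j : ℝ) + 1))))
            Filter.atTop (nhds 0) := by
          simpa using (hlim1.const_mul ((m : ℝ) * K)).const_mul K
        refine squeeze_zero (fun j => norm_nonneg _) (fun j => ?_) hb
        rw [U_neg_natCast]
        exact hneg m j
    simpa using h0.const_mul ‖c n‖
  have hsum : Filter.Tendsto
      (fun j : ℕ => ∑' n : ℤ, ‖c n‖ * ‖U S R n (x j) - (fourier n t : ℂ) • x j‖) Filter.atTop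
      (nhds (∑' n : ℤ, (0 : ℝ))) := by
    refine tendsto_tsum_of_dominated_convergence (bound := fun n => ‖c n‖ * (K + 1))
      ((W.summable_norm c).mul_right _) hterm ?_
    refine Filter.Eventually.of_forall fun j n => ?_
    rw [Real.norm_of_nonneg (by positivity)]
    refine mul_le_mul_of_nonneg_left ?_ (norm_nonneg _)
    refine (norm_sub_le _ _).trans ?_
    rw [norm_smul, norm_fourier_apply, hx1, mul_one]
    have : ‖U S R n (x j)‖ ≤ K * ‖x j‖ := (U S R n).le_of_opNorm_le (hK n) _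
    rw [hx1, mul_one] at this
    linarith
  rw [tsum_zero] at hsum
  have hTx : ∀ j, ‖T (x j) - l • x j‖
      ≤ ∑' n : ℤ, ‖c n‖ * ‖U S R n (x j) - (fourier n t : ℂ) • x j‖ := by
    intro j
    have h1 : HasSum (fun n => c n • U S R n) T := (summable_lift _ K hK c).of_norm.hasSum
    have h2 := h1.mapL (ContinuousLinearMap.apply ℂ X (x j))
    have h3 : HasSum (fun n => c n • (fourier n t : ℂ)) l :=
      (summable_lift (fun n => (fourier n t : ℂ)) 1 (fun n => (norm_fourier_apply n t).le)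
        c).of_norm.hasSum
    have h4 := h3.smul_const (x j)
    have h5 := h2.sub h4
    have h6 : (fun n => (ContinuousLinearMap.apply ℂ X (x j)) (c n • U S R n)
        - (c n • (fourier n t : ℂ)) • x j)
        = fun n => c n • (U S R n (x j) - (fourier n t : ℂ) • x j) := by
      ext1 n
      rw [ContinuousLinearMap.apply_apply, ContinuousLinearMap.smul_apply, smul_sub, smul_assoc]
    rw [h6, ContinuousLinearMap.apply_apply] at h5
    rw [← h5.tsum_eq]
    have hs : Summable fun n : ℤ => ‖c n • (U S R n (x j) - (fourier n t : ℂ) • x j)‖ := by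
      refine Summable.of_nonneg_of_le (fun n => norm_nonneg _) (fun n => ?_)
        ((W.summable_norm c).mul_right (K + 1))
      rw [norm_smul]
      refine mul_le_mul_of_nonneg_left ?_ (norm_nonneg _)
      refine (norm_sub_le _ _).trans ?_
      rw [norm_smul, norm_fourier_apply, hx1, mul_one]
      have : ‖U S R n (x j)‖ ≤ K * ‖x j‖ := (U S R n).le_of_opNorm_le (hK n) _
      rw [hx1, mul_one] at this
      linarith
    refine (norm_tsum_le_tsum_norm hs).trans (le_of_eq ?_)
    exact tsum_congr fun n => norm_smul _ _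
  have hone : ∀ j, (1 : ℝ) ≤ ‖J‖ * ∑' n : ℤ, ‖c n‖ * ‖U S R n (x j) - (fourier n t : ℂ) • x j‖ := by
    intro j
    have h1 : x j = J ((algebraMap ℂ (X →L[ℂ] X) l - T) (x j)) := by
      rw [← mul_apply_eq_comp, hJu]; rfl
    have h2 : (algebraMap ℂ (X →L[ℂ] X) l - T) (x j) = -(T (x j) - l • x j) := by
      rw [Algebra.algebraMap_eq_smul_one, neg_sub]; rfl
    calc (1 : ℝ) = ‖x j‖ := (hx1 j).symm
      _ = ‖J ((algebraMap ℂ (X →L[ℂ] X) l - T) (x j))‖ := by rw [← h1]
      _ ≤ ‖J‖ * ‖(algebraMap ℂ (X →L[ℂ] X) l - T) (x j)‖ := J.le_opNorm _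
      _ ≤ _ := by
          rw [h2, norm_neg]
          exact mul_le_mul_of_nonneg_left (hTx j) (norm_nonneg _)
  have hfin := hsum.const_mul ‖J‖
  rw [mul_zero] at hfin
  have := ge_of_tendsto' hfin hone
  linarith

/-- The theorem reduced to a majorant. -/
theorem chain_of_majorant {S R : X →L[ℂ] X} (K : ℝ) (hK : ∀ n : ℤ, ‖U S R n‖ ≤ K) (h : R * S = 1)
    (hSR : S * R ≠ 1) (c : W) (hc : ∃ n : ℤ, n ≠ 0 ∧ c n ≠ 0)
    (hfac : ∀ r : ℝ, ∃ M : ℂ → ENNReal, Measurable M ∧ ∫⁻ z in Metric.ball (0 : ℂ) r, M z ≠ ⊤ ∧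
      ∀ z ∈ Metric.ball (0 : ℂ) r, M z ≠ ⊤ → ∃ (k : ℤ) (g : W),
        (∀ t, ev t c - z = fourier k t * Complex.exp (ev t g)) ∧ (k = 0 → ‖g‖ ≤ (M z).toReal)) :
    InfiniteChain (top S R K hK c) := by
  set T := top S R K hK c with hT
  have hK0 : 0 ≤ K := (norm_nonneg _).trans (hK 0)
  by_cases hex : ∃ (z : ℂ) (k : ℤ) (g : W), k ≠ 0 ∧
      ∀ t, ev t c - z = fourier k t * Complex.exp (ev t g)
  · obtain ⟨z, k, g, hk, he⟩ := hex
    exact chain_of_ne K hK h hSR c g z k hk he
  push Not at hex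
  obtain ⟨M, hMm, hMi, hM⟩ := hfac (‖ev 0 c‖ + 1)
  set D := Metric.ball (0 : ℂ) (‖ev 0 c‖ + 1) with hD
  have hDo : IsOpen D := Metric.isOpen_ball
  have hae : ∀ᵐ z ∂(volume.restrict D), M z < ⊤ := ae_lt_top hMm hMi
  have hkey : ∀ᵐ z ∂(volume.restrict D), z ∉ spectrum ℂ T ∧
      Real.posLog ‖resolvent T z‖ ≤ K * (M z).toReal := by
    have hD2 : ∀ᵐ z ∂(volume.restrict D), z ∈ D := ae_restrict_mem hDo.measurableSet
    filter_upwards [hae, hD2] with z hz hzD
    obtain ⟨k, g, he, hg⟩ := hM z hzD hz.ne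
    have hk : k = 0 := by
      by_contra hk
      obtain ⟨t, ht⟩ := hex z k g hk
      exact ht (he t)
    subst hk
    obtain ⟨r1, r2⟩ := resolvent_of_zero K hK h c g z (fun t => by
      rw [he t, fourier_zero, one_mul])
    refine ⟨r1, ?_⟩
    rw [Real.posLog, max_le_iff]
    refine ⟨by positivity, ?_⟩
    rcases eq_or_lt_of_le (norm_nonneg (resolvent T z)) with h0 | h0
    · rw [← h0, Real.log_zero]; positivity
    · rw [Real.log_le_iff_le_exp h0]
      refine r2.trans (Real.exp_le_exp.2 ?_)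
      exact mul_le_mul_of_nonneg_left (hg rfl) hK0
  have hσ : volume (spectrum ℂ T ∩ D) = 0 := by
    have h1 : volume.restrict D (spectrum ℂ T) = 0 := by
      rw [← compl_compl (spectrum ℂ T)]
      rw [← mem_ae_iff]
      filter_upwards [hkey] with z hz
      exact hz.1
    rwa [Measure.restrict_apply (spectrum.isClosed T).measurableSet] at h1
  have hmeas : Measurable fun z : ℂ => resolvent T z := by
    classical
    have h1 : ∀ z, resolvent T z = Set.piecewise (resolventSet ℂ T) (resolvent T) (fun _ => 0) z := by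
      intro z
      by_cases hz : z ∈ resolventSet ℂ T
      · rw [Set.piecewise_eq_of_mem _ _ _ hz]
      · rw [Set.piecewise_eq_of_notMem _ _ _ hz, resolvent]
        exact Ring.inverse_non_unit _ hz
    have h2 : (fun z : ℂ => resolvent T z)
        = Set.piecewise (resolventSet ℂ T) (resolvent T) (fun _ => 0) := funext h1
    rw [h2]
    have ho : IsOpen (resolventSet ℂ T) := spectrum.isOpen_resolventSet T
    refine measurable_of_restrict_of_restrict_compl ho.measurableSet ?_ ?_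
    · rw [Set.restrict_piecewise]
      have : ContinuousOn (resolvent T) (resolventSet ℂ T) := fun z hz =>
        (spectrum.hasDerivAt_resolvent hz).continuousAt.continuousWithinAt
      exact (continuousOn_iff_continuous_restrict.1 this).measurable
    · rw [Set.restrict_piecewise_compl]
      exact measurable_const
  have hI : IntegrableOn (fun z : ℂ => Real.posLog ‖resolvent T z‖) D := by
    have hMint : Integrable (fun z => K * (M z).toReal) (volume.restrict D) :=
      (integrable_toReal_of_lintegral_ne_top hMm.aemeasurable hMi).const_mul K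
    refine hMint.mono' ?_ ?_
    · exact (measurable_const.max
        (Real.measurable_log.comp hmeas.norm)).aestronglyMeasurable
    · filter_upwards [hkey] with z hz
      rw [Real.norm_of_nonneg Real.posLog_nonneg]
      exact hz.2
  refine (result X T D hDo hσ hI).2 ⟨ev 0 c, ?_, ?_⟩
  · rw [hD, mem_ball_zero_iff]; linarith
  · -- the image of the symbol is connected and not a point
    intro r hr
    have hcon : IsPreconnected (Set.range fun t : UnitAddCircle => ev t c) :=
      isPreconnected_range (continuous_ev c)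
    have hnt : (Set.range fun t : UnitAddCircle => ev t c).Nontrivial := by
      by_contra hnt
      rw [Set.not_nontrivial_iff] at hnt
      obtain ⟨n, hn, hcn⟩ := hc
      have h1 : ∀ t, ev t c = ev t (ev 0 c • del 0) := by
        intro t
        rw [map_smul, ev_del, fourier_zero, smul_eq_mul, mul_one]
        exact hnt ⟨t, rfl⟩ ⟨0, rfl⟩
      have h2 := ev_inj h1
      apply hcn
      rw [h2, lp.coeFn_smul, Pi.smul_apply, del_apply, if_neg hn, smul_zero]
    have hperf := hcon.preperfect_of_nontrivial hnt (ev 0 c) ⟨0, rfl⟩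
    rw [accPt_iff_nhds] at hperf
    obtain ⟨y, ⟨hy1, t, rfl⟩, hy2⟩ := hperf (Metric.ball (ev 0 c) r) (Metric.ball_mem_nhds _ hr)
    refine ⟨ev t c, mem_spectrum K hK h hSR c t, hy2, ?_⟩
    rw [← dist_eq_norm]
    exact hy1

end Approx

end Pool.Agent.H933.TI
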