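import Pool.Agent.H933.TI.Core
import Pool.Agent.H933.TI.Op3

/-!
# Integration over the spectral parameter
-/

set_option autoImplicit false
set_option linter.unusedVariables false

open scoped BigOperators ENNReal
open MeasureTheory AddCircle Metric Pool.Agent.Results.MP_f981b0_an.LogIntegrableNests

namespace Pool.Agent.H933.TI

lemma lint_ball0 {s : ℝ} (hs : s < 2) (r : ℝ) :
    ∫⁻ w in ball (0 : ℂ) r, (ENNReal.ofReal ‖w‖) ^ (-s) ≠ ⊤ := by
  have hdim : Module.finrank ℝ ℂ = 2 := Complex.finrank_real_complex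
  have h1 : IntegrableOn (fun w : ℂ => ‖w‖ ^ (-s)) (ball (0 : ℂ) r) volume := by
    refine integrableOn_ball_of_norm_le_rpow (C := 1) (α := s) (by rw [hdim]; norm_num)
      (by rw [hdim]; exact_mod_cast hs) ?_ ?_
    · refine Filter.Eventually.of_forall fun w => ?_
      rw [one_mul, Real.norm_of_nonneg (by positivity)]
    · exact (measurable_norm.pow_const (-s)).aestronglyMeasurable
  have h2 : ∫⁻ w in ball (0 : ℂ) r, (ENNReal.ofReal ‖w‖) ^ (-s)
      = ∫⁻ w in ball (0 : ℂ) r, ENNReal.ofReal (‖w‖ ^ (-s)) := by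
    refine lintegral_congr_ae ?_
    have h3 : ∀ᵐ w : ℂ ∂(volume.restrict (ball (0 : ℂ) r)), w ≠ 0 :=
      ae_restrict_of_ae (Measure.ae_ne volume 0)
    filter_upwards [h3] with w hw
    rw [ENNReal.ofReal_rpow_of_pos (norm_pos_iff.2 hw)]
  rw [h2]
  have h4 := h1.2
  rw [hasFiniteIntegral_iff_norm] at h4
  refine ne_of_lt ?_
  convert h4 using 3 with w
  rw [Real.norm_of_nonneg (by positivity)]

lemma lint_ball {s : ℝ} {r r0 : ℝ} {a : ℂ} (ha : ‖a‖ ≤ r0) :
    ∫⁻ z in ball (0 : ℂ) r, (ENNReal.ofReal ‖a - z‖) ^ (-s)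
      ≤ ∫⁻ w in ball (0 : ℂ) (r0 + r), (ENNReal.ofReal ‖w‖) ^ (-s) := by
  rw [← lintegral_indicator measurableSet_ball, ← lintegral_indicator measurableSet_ball]
  rw [← lintegral_sub_left_eq_self
    ((ball (0 : ℂ) (r0 + r)).indicator fun w : ℂ => (ENNReal.ofReal ‖w‖) ^ (-s)) a]
  refine lintegral_mono fun z => ?_
  by_cases hz : z ∈ ball (0 : ℂ) r
  · have h1 : a - z ∈ ball (0 : ℂ) (r0 + r) := by
      rw [mem_ball_zero_iff] at hz ⊢
      calc ‖a - z‖ ≤ ‖a‖ + ‖z‖ := norm_sub_le _ _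
        _ < r0 + r := by linarith
    rw [Set.indicator_of_mem hz, Set.indicator_of_mem h1]
  · rw [Set.indicator_of_notMem hz]
    exact zero_le

section

variable {X : Type} [NormedAddCommGroup X] [NormedSpace ℂ X] [CompleteSpace X]

/-- The main theorem in terms of the oscillations over dyadic intervals. -/
theorem chain_of_grid {S R : X →L[ℂ] X} (K : ℝ) (hK : ∀ n : ℤ, ‖U S R n‖ ≤ K) (h : R * S = 1)
    (hSR : S * R ≠ 1) (c : W) (hc : ∃ n : ℤ, n ≠ 0 ∧ c n ≠ 0)
    {ρ : ℕ → ℕ → ℝ} (hρ0 : ∀ n j, 0 < ρ n j) (hρp : ∀ n j, ρ n (j + 2 ^ n) = ρ n j)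
    (hρ : ∀ (n j : ℕ) (t : ℝ), pt n j ≤ t → t ≤ pt n (j + 1) →
      ‖ev (t : UnitAddCircle) c - ev (pt n j : UnitAddCircle) c‖ ≤ ρ n j)
    {s κ C : ℝ} (hs0 : 0 < s) (hs2 : s < 2) (hκ0 : 0 < κ) (hκ1 : κ < 1)
    (hC : ∀ n, ∑ j ∈ Finset.range (2 ^ n), (ρ n j) ^ s ≤ C * (κ ^ n) ^ 2) :
    InfiniteChain (top S R K hK c) := by
  refine chain_of_majorant K hK h hSR c hc fun r => ?_
  set A : ℝ → ℂ := fun t => ev (t : UnitAddCircle) c with hA
  have hAc : Continuous A := (continuous_ev c).comp (AddCircle.continuous_mk' 1)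
  have hAp : ∀ t, A (t + 1) = A t := by
    intro t
    simp only [hA]
    congr 2
    exact AddCircle.coe_add_period 1 t
  have hAn : ∀ t, ‖A t‖ ≤ ‖c‖ := fun t => norm_ev_le _ _
  set P : ℂ → ℂ → ℝ≥0∞ := fun a z => (ENNReal.ofReal ‖a - z‖) ^ (-s) with hP
  have hPm : ∀ a, Measurable (P a) := fun a =>
    (ENNReal.measurable_ofReal.comp (measurable_const.sub measurable_id).norm).pow_const (-s)
  set I0 : ℝ≥0∞ := ∫⁻ w in ball (0 : ℂ) (‖c‖ + r), (ENNReal.ofReal ‖w‖) ^ (-s) with hI0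
  have hI0t : I0 ≠ ⊤ := lint_ball0 hs2 _
  have hPI : ∀ t : ℝ, ∫⁻ z in ball (0 : ℂ) r, P (A t) z ≤ I0 := fun t => lint_ball (hAn t)
  set th : ℕ → ℂ → ℝ≥0∞ := fun n z =>
    ∑ j ∈ Finset.range (2 ^ n), ENNReal.ofReal (κ⁻¹ ^ n * (2 * ρ n j) ^ s) * P (A (pt n j)) z
    with hth
  have hthm : ∀ n, Measurable (th n) := fun n =>
    Finset.measurable_sum _ fun j _ => (hPm _).const_mul _
  set Φ : ℂ → ℝ≥0∞ := fun z => ∑' n, th n z with hΦ
  have hΦm : Measurable Φ := Measurable.ennreal_tsum hthm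
  have hΦi : ∫⁻ z in ball (0 : ℂ) r, Φ z ≠ ⊤ := by
    have h1 : ∀ n, ∫⁻ z in ball (0 : ℂ) r, th n z ≤ ENNReal.ofReal (2 ^ s * C * κ ^ n) * I0 := by
      intro n
      calc ∫⁻ z in ball (0 : ℂ) r, th n z
          = ∑ j ∈ Finset.range (2 ^ n), ENNReal.ofReal (κ⁻¹ ^ n * (2 * ρ n j) ^ s)
            * ∫⁻ z in ball (0 : ℂ) r, P (A (pt n j)) z := by
            rw [hth]
            simp only
            rw [lintegral_finsetSum _ fun j _ => (hPm _).const_mul _]
            exact Finset.sum_congr rfl fun j _ => lintegral_const_mul _ (hPm _)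
        _ ≤ ∑ j ∈ Finset.range (2 ^ n), ENNReal.ofReal (κ⁻¹ ^ n * (2 * ρ n j) ^ s) * I0 :=
            Finset.sum_le_sum fun j _ => mul_le_mul_right (hPI _) _
        _ = (∑ j ∈ Finset.range (2 ^ n), ENNReal.ofReal (κ⁻¹ ^ n * (2 * ρ n j) ^ s)) * I0 := by
            rw [Finset.sum_mul]
        _ ≤ _ := by
            refine mul_le_mul_left ?_ _
            rw [← ENNReal.ofReal_sum_of_nonneg (fun j _ => by have := hρ0 n j; positivity)]
            refine ENNReal.ofReal_le_ofReal ?_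
            have h2 : ∀ j, κ⁻¹ ^ n * (2 * ρ n j) ^ s = κ⁻¹ ^ n * 2 ^ s * (ρ n j) ^ s := fun j => by
              rw [Real.mul_rpow (by norm_num) (hρ0 n j).le]; ring
            simp only [h2]
            rw [← Finset.mul_sum]
            calc κ⁻¹ ^ n * 2 ^ s * ∑ j ∈ Finset.range (2 ^ n), (ρ n j) ^ s
                ≤ κ⁻¹ ^ n * 2 ^ s * (C * (κ ^ n) ^ 2) :=
                  mul_le_mul_of_nonneg_left (hC n) (by positivity)
              _ = 2 ^ s * C * (κ⁻¹ ^ n * κ ^ n) * κ ^ n := by ring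
              _ = 2 ^ s * C * κ ^ n := by
                  rw [← mul_pow, inv_mul_cancel₀ hκ0.ne', one_pow, mul_one]
    have h3 : ∫⁻ z in ball (0 : ℂ) r, Φ z
        ≤ (∑' n : ℕ, ENNReal.ofReal (2 ^ s * C * κ ^ n)) * I0 := by
      rw [hΦ]
      simp only
      rw [lintegral_tsum fun n => (hthm n).aemeasurable, ← ENNReal.tsum_mul_right]
      exact ENNReal.tsum_le_tsum h1
    refine ne_top_of_le_ne_top (ENNReal.mul_ne_top ?_ hI0t) h3
    have hC0 : 0 ≤ C := by
      have h4 := hC 0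
      simp only [pow_zero, Finset.range_one, Finset.sum_singleton, one_pow, mul_one] at h4
      exact (Real.rpow_nonneg (hρ0 0 0).le s).trans h4
    have h5 : Summable fun n : ℕ => 2 ^ s * C * κ ^ n :=
      (summable_geometric_of_lt_one hκ0.le hκ1).mul_left _
    rw [← ENNReal.ofReal_tsum_of_nonneg (fun n => by positivity) h5]
    exact ENNReal.ofReal_ne_top
  -- the majorant
  set c0 : ℝ := |‖A 0‖ + r| + (5 + 3 / (1 - κ)) with hc0
  set c1 : ℝ := 4 + 12 / (1 - κ) with hc1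
  have hκ1' : 0 < 1 - κ := by linarith
  have hc00 : 0 ≤ c0 := by positivity
  have hc10 : 0 ≤ c1 := by positivity
  set M : ℂ → ℝ≥0∞ := fun z =>
    ENNReal.ofReal c0 + ENNReal.ofReal (1 / s) * P (A 0) z + ENNReal.ofReal c1 * Φ z with hM
  refine ⟨M, ?_, ?_, ?_⟩
  · exact (measurable_const.add ((hPm _).const_mul _)).add (hΦm.const_mul _)
  · rw [hM]
    simp only
    rw [lintegral_add_right _ (hΦm.const_mul _), lintegral_add_right _ ((hPm _).const_mul _),
      lintegral_const_mul _ (hPm _), lintegral_const_mul _ hΦm, setLIntegral_const]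
    refine ENNReal.add_ne_top.2 ⟨ENNReal.add_ne_top.2 ⟨?_, ?_⟩, ?_⟩
    · exact ENNReal.mul_ne_top ENNReal.ofReal_ne_top measure_ball_lt_top.ne
    · exact ENNReal.mul_ne_top ENNReal.ofReal_ne_top (ne_top_of_le_ne_top hI0t (hPI 0))
    · exact ENNReal.mul_ne_top ENNReal.ofReal_ne_top hΦi
  · intro z hz hMz
    have hκ1'' : 0 < c1 := by positivity
    rw [hM] at hMz
    simp only at hMz
    rw [ENNReal.add_ne_top, ENNReal.add_ne_top] at hMz
    obtain ⟨⟨hM1, hM2⟩, hM3⟩ := hMz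
    have hΦz : Φ z ≠ ⊤ := by
      intro h0
      rw [h0, ENNReal.mul_top (by rw [ne_eq, ENNReal.ofReal_eq_zero]; linarith)] at hM3
      exact hM3 rfl
    have hthz : ∀ n, th n z ≠ ⊤ := fun n => ENNReal.ne_top_of_tsum_ne_top hΦz n
    have hkpos : ∀ n j, 0 < κ⁻¹ ^ n * (2 * ρ n j) ^ s := fun n j => by
      have := hρ0 n j; positivity
    have hd1 : ∀ n j, j ∈ Finset.range (2 ^ n) → A (pt n j) ≠ z := by
      intro n j hj h0
      have h1 := ENNReal.sum_ne_top.1 (hthz n) j hj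
      rw [hP] at h1
      simp only at h1
      rw [h0, sub_self, norm_zero, ENNReal.ofReal_zero, ENNReal.zero_rpow_of_neg (by linarith),
        ENNReal.mul_top (by rw [ne_eq, ENNReal.ofReal_eq_zero, not_le]; exact hkpos n j)] at h1
      exact h1 rfl
    have hd : ∀ n j, A (pt n j) ≠ z := by
      intro n j
      have hper : Function.Periodic (fun j => A (pt n j)) (2 ^ n) := by
        intro j
        simp only [pt_period, hAp]
      have := hd1 n (j % 2 ^ n) (Finset.mem_range.2 (Nat.mod_lt _ (by positivity)))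
      rwa [hper.map_mod_nat j] at this
    have hPr : ∀ t, A t ≠ z → P (A t) z = ENNReal.ofReal (‖A t - z‖ ^ (-s)) := by
      intro t ht
      rw [hP]
      exact ENNReal.ofReal_rpow_of_pos (norm_pos_iff.2 (sub_ne_zero.2 ht))
    have hthr : ∀ n, th n z = ENNReal.ofReal (κ⁻¹ ^ n
        * ∑ j ∈ Finset.range (2 ^ n), (2 * ρ n j / ‖A (pt n j) - z‖) ^ s) := by
      intro n
      rw [Finset.mul_sum, ENNReal.ofReal_sum_of_nonneg (fun j _ => by
        have := hρ0 n j; positivity)]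
      rw [hth]
      refine Finset.sum_congr rfl fun j _ => ?_
      rw [hPr _ (hd n j), ← ENNReal.ofReal_mul (hkpos n j).le]
      congr 1
      have hdp : 0 < ‖A (pt n j) - z‖ := norm_pos_iff.2 (sub_ne_zero.2 (hd n j))
      rw [Real.div_rpow (by have := hρ0 n j; positivity) hdp.le, Real.rpow_neg hdp.le]
      ring
    have hnn : ∀ n : ℕ, 0 ≤ κ⁻¹ ^ n
        * ∑ j ∈ Finset.range (2 ^ n), (2 * ρ n j / ‖A (pt n j) - z‖) ^ s := fun n => by
      refine mul_nonneg (by positivity) (Finset.sum_nonneg fun j _ => ?_)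
      have := hρ0 n j
      positivity
    have hsumm : Summable fun n : ℕ => κ⁻¹ ^ n
        * ∑ j ∈ Finset.range (2 ^ n), (2 * ρ n j / ‖A (pt n j) - z‖) ^ s := by
      have h1 := ENNReal.summable_toReal hΦz
      refine h1.congr fun n => ?_
      rw [hthr n, ENNReal.toReal_ofReal (hnn n)]
    have hΦr : (Φ z).toReal = ∑' n : ℕ, κ⁻¹ ^ n
        * ∑ j ∈ Finset.range (2 ^ n), (2 * ρ n j / ‖A (pt n j) - z‖) ^ s := by
      rw [hΦ]
      simp only
      rw [ENNReal.tsum_toReal_eq hthz]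
      refine tsum_congr fun n => ?_
      rw [hthr n, ENNReal.toReal_ofReal (hnn n)]
    obtain ⟨k, g, hg1, hg2⟩ := grid_log hAc hAp hρ0 hρp hρ hs0 hs2.le hκ0 hκ1 z hd hsumm
    refine ⟨k, g, ?_, ?_⟩
    · intro t
      obtain ⟨x, -, rfl⟩ := AddCircle.eq_coe_Ico (p := (1 : ℝ)) t
      exact hg1 _ x rfl
    · intro hk
      refine (hg2 hk).trans ?_
      have hA0 : A 0 ≠ z := by
        have h1 := hd 0 0
        have h2 : pt 0 0 = 0 := by unfold pt; simp
        rwa [h2] at h1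
      have hMr : (M z).toReal = c0 + 1 / s * ‖A 0 - z‖ ^ (-s) + c1 * (Φ z).toReal := by
        rw [hM]
        simp only
        rw [ENNReal.toReal_add (ENNReal.add_ne_top.2 ⟨hM1, hM2⟩) hM3, ENNReal.toReal_add hM1 hM2,
          ENNReal.toReal_mul, ENNReal.toReal_mul, ENNReal.toReal_ofReal hc00,
          ENNReal.toReal_ofReal hc10, ENNReal.toReal_ofReal (by positivity), hPr 0 hA0,
          ENNReal.toReal_ofReal (by positivity)]
      rw [hMr, hΦr]
      have hx0 : 0 < ‖A 0 - z‖ := norm_pos_iff.2 (sub_ne_zero.2 hA0)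
      have hlog : |Real.log ‖A 0 - z‖| ≤ |‖A 0‖ + r| + 1 / s * ‖A 0 - z‖ ^ (-s) := by
        have hr : ‖A 0 - z‖ ≤ |‖A 0‖ + r| := by
          rw [mem_ball_zero_iff] at hz
          calc ‖A 0 - z‖ ≤ ‖A 0‖ + ‖z‖ := norm_sub_le _ _
            _ ≤ ‖A 0‖ + r := by linarith
            _ ≤ _ := le_abs_self _
        have hp0 : 0 ≤ 1 / s * ‖A 0 - z‖ ^ (-s) := by positivity
        rw [abs_le]
        constructor
        · have h1 : -(Real.log ‖A 0 - z‖) * s ≤ ‖A 0 - z‖ ^ (-s) := by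
            have h2 := Real.log_le_self (x := ‖A 0 - z‖ ^ (-s)) (by positivity)
            rw [Real.log_rpow hx0] at h2
            linarith
          have h3 : -(Real.log ‖A 0 - z‖) ≤ 1 / s * ‖A 0 - z‖ ^ (-s) := by
            rw [one_div_mul_eq_div, le_div_iff₀ hs0]
            exact h1
          have h4 : 0 ≤ |‖A 0‖ + r| := abs_nonneg _
          linarith
        · have h1 := Real.log_le_self hx0.le
          linarith
      rw [hc0, hc1]
      linarith

end

end Pool.Agent.H933.TI
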