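import Mathlib

/-!
# Toeplitz operators generated by a one-sided invertible operator

`W` is the space of absolutely summable families of complex numbers indexed by the integers.
For operators `S`, `R` with `R S = 1` and bounded powers `top` maps the unit vectors of `W` to the
operators `U n` (`S ^ n` for `n ≥ 0`, `R ^ (-n)` for `n < 0`). The Wiener–Hopf factorisation of an
exponential is `top_exp`.
-/

set_option autoImplicit false
set_option linter.unusedSectionVars false
set_option linter.deprecated false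

open scoped BigOperators Nat

namespace Pool.Agent.H933.TI

/-- absolutely summable families indexed by the integers -/
abbrev W : Type := lp (fun _ : ℤ => ℂ) 1

/-- unit vectors -/
noncomputable def del (n : ℤ) : W := lp.single 1 n (1 : ℂ)

lemma W.summable_norm (f : W) : Summable fun n => ‖f n‖ := by
  have := f.2.summable (by simp)
  simpa using this

lemma W.norm_eq (f : W) : ‖f‖ = ∑' n, ‖f n‖ := by
  rw [lp.norm_eq_tsum_rpow (by simp)]
  simp

lemma norm_del (n : ℤ) : ‖del n‖ = 1 := by
  unfold del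
  rw [lp.norm_single (by simp)]
  simp

lemma del_apply (n m : ℤ) : (del n) m = if m = n then 1 else 0 := by
  unfold del
  rw [lp.single_apply]
  by_cases h : m = n
  · subst h; simp
  · simp [h]

lemma hasSum_del (f : W) : HasSum (fun n => f n • del n) f := by
  have := lp.hasSum_single (p := 1) (by simp) f
  convert this using 2 with n
  unfold del
  rw [← lp.single_smul]
  simp

/-- make an element of `W` -/
noncomputable def mkW (c : ℤ → ℂ) (hc : Summable fun n => ‖c n‖) : W :=
  ⟨c, memℓp_gen (by simpa using hc)⟩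

@[simp] lemma mkW_apply (c : ℤ → ℂ) (hc : Summable fun n => ‖c n‖) (n : ℤ) : mkW c hc n = c n := rfl

lemma norm_mkW (c : ℤ → ℂ) (hc : Summable fun n => ‖c n‖) : ‖mkW c hc‖ = ∑' n, ‖c n‖ := by
  rw [W.norm_eq]; rfl

section Lift

variable {Y : Type*} [NormedAddCommGroup Y] [NormedSpace ℂ Y] [CompleteSpace Y]

lemma summable_lift (y : ℤ → Y) (K : ℝ) (hy : ∀ n, ‖y n‖ ≤ K) (f : W) :
    Summable fun n => ‖f n • y n‖ := by
  refine Summable.of_nonneg_of_le (fun n => norm_nonneg _) (fun n => ?_)
    ((W.summable_norm f).mul_right K)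
  rw [norm_smul]
  exact mul_le_mul_of_nonneg_left (hy n) (norm_nonneg _)

/-- the bounded linear map on `W` which takes given values on the unit vectors -/
noncomputable def lift (y : ℤ → Y) (K : ℝ) (hy : ∀ n, ‖y n‖ ≤ K) : W →L[ℂ] Y :=
  LinearMap.mkContinuous
    { toFun := fun f => ∑' n, f n • y n
      map_add' := by
        intro f g
        rw [← Summable.tsum_add (summable_lift y K hy f).of_norm (summable_lift y K hy g).of_norm]
        refine tsum_congr fun n => ?_
        rw [lp.coeFn_add, Pi.add_apply, add_smul]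
      map_smul' := by
        intro c f
        rw [RingHom.id_apply, ← Summable.tsum_const_smul c (summable_lift y K hy f).of_norm]
        refine tsum_congr fun n => ?_
        rw [lp.coeFn_smul, Pi.smul_apply, smul_assoc] } K (by
    intro f
    have h1 : ‖∑' n, f n • y n‖ ≤ ∑' n, ‖f n • y n‖ := norm_tsum_le_tsum_norm (summable_lift y K hy f)
    refine h1.trans ?_
    rw [W.norm_eq, ← tsum_mul_left]
    refine Summable.tsum_le_tsum (fun n => ?_) (summable_lift y K hy f)
      ((W.summable_norm f).mul_left K)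
    rw [norm_smul, mul_comm]
    exact mul_le_mul_of_nonneg_right (hy n) (norm_nonneg _))

lemma lift_apply (y : ℤ → Y) (K : ℝ) (hy : ∀ n, ‖y n‖ ≤ K) (f : W) :
    lift y K hy f = ∑' n, f n • y n := rfl

lemma lift_del (y : ℤ → Y) (K : ℝ) (hy : ∀ n, ‖y n‖ ≤ K) (n : ℤ) :
    lift y K hy (del n) = y n := by
  rw [lift_apply, tsum_eq_single n]
  · rw [del_apply]; simp
  · intro m hm
    rw [del_apply]; simp [hm]

lemma norm_lift_le (y : ℤ → Y) (K : ℝ) (hy : ∀ n, ‖y n‖ ≤ K) (f : W) :
    ‖lift y K hy f‖ ≤ K * ‖f‖ := by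
  have hK : 0 ≤ K := (norm_nonneg _).trans (hy 0)
  exact (lift y K hy).le_of_opNorm_le (LinearMap.mkContinuous_norm_le _ hK _) f

lemma ext_del {Φ Ψ : W →L[ℂ] Y} (h : ∀ n, Φ (del n) = Ψ (del n)) : Φ = Ψ := by
  ext f
  have h1 := (hasSum_del f).mapL Φ
  have h2 := (hasSum_del f).mapL Ψ
  have : (fun n => Φ (f n • del n)) = fun n => Ψ (f n • del n) := by
    ext n; simp only [map_smul, h]
  rw [this] at h1
  exact h1.unique h2

end Lift

/-- translations -/
noncomputable def tau (m : ℤ) : W →L[ℂ] W := lift (fun n => del (n + m)) 1 (fun n => (norm_del _).le)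

lemma tau_del (m n : ℤ) : tau m (del n) = del (n + m) := lift_del _ _ _ _

lemma norm_tau_le (m : ℤ) : ‖tau m‖ ≤ 1 := by
  refine ContinuousLinearMap.opNorm_le_bound _ zero_le_one fun f => ?_
  exact norm_lift_le _ _ _ f

lemma tau_mul (m n : ℤ) : tau m * tau n = tau (m + n) := by
  refine ext_del fun k => ?_
  rw [mul_apply_eq_comp, tau_del, tau_del, tau_del]
  congr 1; ring

/-- convolution operators -/
noncomputable def conv : W →L[ℂ] (W →L[ℂ] W) := lift tau 1 norm_tau_le

lemma conv_del (m : ℤ) : conv (del m) = tau m := lift_del _ _ _ _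

lemma conv_apply_del (g : W) (k : ℤ) : conv g (del k) = ∑' n, g n • del (k + n) := by
  have h : HasSum (fun n => g n • tau n) (conv g) := (summable_lift tau 1 norm_tau_le g).of_norm.hasSum
  have h2 := h.mapL (ContinuousLinearMap.apply ℂ W (del k))
  have h3 : (fun n => (ContinuousLinearMap.apply ℂ W (del k)) (g n • tau n))
      = fun n => g n • del (k + n) := by
    ext1 n
    rw [ContinuousLinearMap.apply_apply, ContinuousLinearMap.smul_apply, tau_del]
  rw [h3] at h2
  exact h2.tsum_eq.symm

lemma commute_tau_conv (A : W →L[ℂ] W) (hA : ∀ m, A * tau m = tau m * A) (g : W) :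
    A * conv g = conv g * A := by
  have : (ContinuousLinearMap.mul ℂ (W →L[ℂ] W) A).comp conv
      = ((ContinuousLinearMap.mul ℂ (W →L[ℂ] W)).flip A).comp conv := by
    refine ext_del fun m => ?_
    simp only [ContinuousLinearMap.comp_apply, conv_del, ContinuousLinearMap.mul_apply',
      ContinuousLinearMap.flip_apply]
    exact hA m
  have := DFunLike.congr_fun this g
  simpa using this

lemma conv_commute (g h : W) : Commute (conv g) (conv h) := by
  refine commute_tau_conv (conv g) (fun m => ?_) h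
  refine (commute_tau_conv (tau m) (fun k => ?_) g).symm
  rw [tau_mul, tau_mul, add_comm]

section Exp

variable {B : Type*} [NormedRing B] [NormedAlgebra ℂ B] [CompleteSpace B]

lemma exp_add' {x y : B} (h : Commute x y) :
    NormedSpace.exp (x + y) = NormedSpace.exp x * NormedSpace.exp y :=
  NormedSpace.exp_add_of_commute_of_mem_ball (𝕂 := ℂ) h
    ((NormedSpace.expSeries_radius_eq_top ℂ B).symm ▸ edist_lt_top _ _)
    ((NormedSpace.expSeries_radius_eq_top ℂ B).symm ▸ edist_lt_top _ _)

lemma exp_mul_exp_neg (x : B) : NormedSpace.exp x * NormedSpace.exp (-x) = 1 := by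
  rw [← exp_add' (Commute.neg_right (Commute.refl x)), add_neg_cancel, NormedSpace.exp_zero]

lemma exp_neg_mul_exp (x : B) : NormedSpace.exp (-x) * NormedSpace.exp x = 1 := by
  rw [← exp_add' (Commute.neg_left (Commute.refl x)), neg_add_cancel, NormedSpace.exp_zero]

lemma norm_exp_le (hB : ‖(1 : B)‖ ≤ 1) (x : B) : ‖NormedSpace.exp x‖ ≤ Real.exp ‖x‖ := by
  have h := NormedSpace.exp_series_hasSum_exp' (𝕂 := ℂ) x
  rw [← h.tsum_eq]
  have hs : HasSum (fun n : ℕ => ‖x‖ ^ n / (n ! : ℝ)) (Real.exp ‖x‖) := by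
    have := NormedSpace.expSeries_div_hasSum_exp (𝔸 := ℝ) ‖x‖
    rwa [← Real.exp_eq_exp_ℝ] at this
  refine tsum_of_norm_bounded hs fun n => ?_
  rw [norm_smul, norm_inv, Complex.norm_natCast, div_eq_inv_mul]
  refine mul_le_mul_of_nonneg_left ?_ (by positivity)
  cases n with
  | zero => simpa using hB
  | succ n => exact norm_pow_le' x (Nat.succ_pos n)

lemma exp_apply_hasSum (L : W →L[ℂ] W) (f : W) :
    HasSum (fun n : ℕ => ((n ! : ℂ)⁻¹) • (L ^ n) f) (NormedSpace.exp L f) := by
  have h := NormedSpace.exp_series_hasSum_exp' (𝕂 := ℂ) L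
  have h2 := h.mapL (ContinuousLinearMap.apply ℂ W f)
  simpa using h2

lemma exp_intertwine_right (Φ : W →L[ℂ] B) (L : W →L[ℂ] W) (A : B)
    (h : ∀ f, Φ (L f) = Φ f * A) (f : W) : Φ (NormedSpace.exp L f) = Φ f * NormedSpace.exp A := by
  have h1 := (exp_apply_hasSum L f).mapL Φ
  have h2 : HasSum (fun n : ℕ => Φ f * (((n ! : ℂ)⁻¹) • A ^ n)) (Φ f * NormedSpace.exp A) :=
    (NormedSpace.exp_series_hasSum_exp' (𝕂 := ℂ) A).mul_left _
  have h3 : ∀ n : ℕ, ∀ f, Φ ((L ^ n) f) = Φ f * A ^ n := by
    intro n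
    induction n with
    | zero => intro f; simp
    | succ n ih =>
      intro f
      rw [pow_succ', mul_apply_eq_comp, h, ih, pow_succ, mul_assoc]
  have h4 : (fun n : ℕ => Φ (((n ! : ℂ)⁻¹) • (L ^ n) f))
      = fun n : ℕ => Φ f * (((n ! : ℂ)⁻¹) • A ^ n) := by
    ext1 n
    rw [map_smul, h3, mul_smul_comm]
  rw [h4] at h1
  exact h1.unique h2

lemma exp_intertwine_left (Φ : W →L[ℂ] B) (L : W →L[ℂ] W) (A : B)
    (h : ∀ f, Φ (L f) = A * Φ f) (f : W) : Φ (NormedSpace.exp L f) = NormedSpace.exp A * Φ f := by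
  have h1 := (exp_apply_hasSum L f).mapL Φ
  have h2 : HasSum (fun n : ℕ => (((n ! : ℂ)⁻¹) • A ^ n) * Φ f) (NormedSpace.exp A * Φ f) :=
    (NormedSpace.exp_series_hasSum_exp' (𝕂 := ℂ) A).mul_right _
  have h3 : ∀ n : ℕ, ∀ f, Φ ((L ^ n) f) = A ^ n * Φ f := by
    intro n
    induction n with
    | zero => intro f; simp
    | succ n ih =>
      intro f
      rw [pow_succ', mul_apply_eq_comp, h, ih, pow_succ', mul_assoc]
  have h4 : (fun n : ℕ => Φ (((n ! : ℂ)⁻¹) • (L ^ n) f))
      = fun n : ℕ => (((n ! : ℂ)⁻¹) • A ^ n) * Φ f := by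
    ext1 n
    rw [map_smul, h3, smul_mul_assoc]
  rw [h4] at h1
  exact h1.unique h2

end Exp

section Top

variable {X : Type*} [NormedAddCommGroup X] [NormedSpace ℂ X] [CompleteSpace X]

/-- `S ^ n` for `n ≥ 0` and `R ^ (-n)` for `n < 0` -/
def U (S R : X →L[ℂ] X) (n : ℤ) : X →L[ℂ] X := S ^ n.toNat * R ^ (-n).toNat

lemma U_nonneg (S R : X →L[ℂ] X) {n : ℤ} (hn : 0 ≤ n) : U S R n = S ^ n.toNat := by
  unfold U
  have h0 : (-n).toNat = 0 := by omega
  rw [h0, pow_zero, mul_one]

lemma U_nonpos (S R : X →L[ℂ] X) {n : ℤ} (hn : n ≤ 0) : U S R n = R ^ (-n).toNat := by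
  unfold U
  have h0 : n.toNat = 0 := by omega
  rw [h0, pow_zero, one_mul]

lemma U_zero (S R : X →L[ℂ] X) : U S R 0 = 1 := by simp [U]

lemma U_natCast (S R : X →L[ℂ] X) (n : ℕ) : U S R n = S ^ n := by
  rw [U_nonneg _ _ (by omega)]; simp

lemma U_neg_natCast (S R : X →L[ℂ] X) (n : ℕ) : U S R (-n) = R ^ n := by
  rw [U_nonpos _ _ (by omega)]; simp

lemma R_pow_mul_S_pow {S R : X →L[ℂ] X} (h : R * S = 1) (a b : ℕ) :
    R ^ a * S ^ b = U S R (b - a) := by
  induction a generalizing b with
  | zero => simp [U_natCast]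
  | succ a ih =>
    cases b with
    | zero =>
      rw [pow_zero, mul_one]
      have : ((0 : ℕ) : ℤ) - ((a + 1 : ℕ) : ℤ) = -((a + 1 : ℕ) : ℤ) := by simp
      rw [this, U_neg_natCast]
    | succ b =>
      rw [pow_succ R, pow_succ' S, mul_assoc, ← mul_assoc R S, h, one_mul, ih]
      congr 1
      push_cast; ring

lemma U_mul_nonneg {S R : X →L[ℂ] X} (h : R * S = 1) (m : ℤ) {n : ℤ} (hn : 0 ≤ n) :
    U S R m * U S R n = U S R (m + n) := by
  obtain ⟨n, rfl⟩ := Int.eq_ofNat_of_zero_le hn
  rw [U_natCast]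
  rcases le_total 0 m with hm | hm
  · obtain ⟨m, rfl⟩ := Int.eq_ofNat_of_zero_le hm
    rw [U_natCast, ← pow_add, ← U_natCast S R]
    congr 1
  · obtain ⟨k, hk⟩ := Int.eq_ofNat_of_zero_le (show 0 ≤ -m by omega)
    have : m = -(k : ℤ) := by omega
    rw [this, U_neg_natCast, R_pow_mul_S_pow h]
    congr 1; ring

lemma U_mul_nonpos {S R : X →L[ℂ] X} (h : R * S = 1) {m : ℤ} (hm : m ≤ 0) (n : ℤ) :
    U S R m * U S R n = U S R (m + n) := by
  obtain ⟨k, hk⟩ := Int.eq_ofNat_of_zero_le (show 0 ≤ -m by omega)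
  have hm' : m = -(k : ℤ) := by omega
  rcases le_total 0 n with hn | hn
  · exact U_mul_nonneg h m hn
  · obtain ⟨l, hl⟩ := Int.eq_ofNat_of_zero_le (show 0 ≤ -n by omega)
    have hn' : n = -(l : ℤ) := by omega
    rw [hm', hn', U_neg_natCast, U_neg_natCast, ← pow_add, ← U_neg_natCast S R]
    congr 1
    push_cast; ring

variable (S R : X →L[ℂ] X) (K : ℝ) (hK : ∀ n : ℤ, ‖U S R n‖ ≤ K)

/-- the Toeplitz operator of an absolutely summable family -/
noncomputable def top : W →L[ℂ] (X →L[ℂ] X) := lift (U S R) K hK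

lemma top_del (n : ℤ) : top S R K hK (del n) = U S R n := lift_del _ _ _ _

lemma norm_top_le (f : W) : ‖top S R K hK f‖ ≤ K * ‖f‖ := norm_lift_le _ _ _ _

lemma top_conv_nonneg (h : R * S = 1) (g : W) (hg : ∀ n < 0, g n = 0) (f : W) :
    top S R K hK (conv g f) = top S R K hK f * top S R K hK g := by
  have : (top S R K hK).comp (conv g)
      = ((ContinuousLinearMap.mul ℂ (X →L[ℂ] X)).flip (top S R K hK g)).comp (top S R K hK) := by
    refine ext_del fun k => ?_
    simp only [ContinuousLinearMap.comp_apply, ContinuousLinearMap.mul_apply',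
      ContinuousLinearMap.flip_apply, top_del]
    have h1 : HasSum (fun n => g n • del (k + n)) (conv g (del k)) := by
      rw [conv_apply_del]
      refine Summable.hasSum (Summable.of_norm ?_)
      exact summable_lift (fun n => del (k + n)) 1 (fun n => (norm_del _).le) g
    have h2 := h1.mapL (top S R K hK)
    have h3 : HasSum (fun n => g n • U S R n) (top S R K hK g) :=
      (summable_lift _ K hK g).of_norm.hasSum
    have h4 := h3.mul_left (U S R k)
    have h5 : (fun n => (top S R K hK) (g n • del (k + n)))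
        = fun n => U S R k * (g n • U S R n) := by
      ext1 n
      rw [map_smul, top_del, mul_smul_comm]
      rcases lt_or_ge n 0 with hn | hn
      · rw [hg n hn, zero_smul, zero_smul]
      · rw [U_mul_nonneg h k hn]
    rw [h5] at h2
    exact h2.unique h4
  have := DFunLike.congr_fun this f
  simpa using this

lemma top_conv_nonpos (h : R * S = 1) (g : W) (hg : ∀ n > 0, g n = 0) (f : W) :
    top S R K hK (conv g f) = top S R K hK g * top S R K hK f := by
  have : (top S R K hK).comp (conv g)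
      = (ContinuousLinearMap.mul ℂ (X →L[ℂ] X) (top S R K hK g)).comp (top S R K hK) := by
    refine ext_del fun k => ?_
    simp only [ContinuousLinearMap.comp_apply, ContinuousLinearMap.mul_apply', top_del]
    have h1 : HasSum (fun n => g n • del (k + n)) (conv g (del k)) := by
      rw [conv_apply_del]
      refine Summable.hasSum (Summable.of_norm ?_)
      exact summable_lift (fun n => del (k + n)) 1 (fun n => (norm_del _).le) g
    have h2 := h1.mapL (top S R K hK)
    have h3 : HasSum (fun n => g n • U S R n) (top S R K hK g) :=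
      (summable_lift _ K hK g).of_norm.hasSum
    have h4 := h3.mul_right (U S R k)
    have h5 : (fun n => (top S R K hK) (g n • del (k + n)))
        = fun n => (g n • U S R n) * U S R k := by
      ext1 n
      rw [map_smul, top_del, smul_mul_assoc]
      rcases le_or_gt n 0 with hn | hn
      · rw [U_mul_nonpos h hn k, add_comm]
      · rw [hg n hn, zero_smul, zero_smul]
    rw [h5] at h2
    exact h2.unique h4
  have := DFunLike.congr_fun this f
  simpa using this

end Top

/-- nonnegative part -/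
noncomputable def gp (g : W) : W := mkW (fun n => if 0 ≤ n then g n else 0)
  (Summable.of_nonneg_of_le (fun n => norm_nonneg _) (fun n => by split_ifs <;> simp)
    (W.summable_norm g))

/-- negative part -/
noncomputable def gm (g : W) : W := mkW (fun n => if 0 ≤ n then 0 else g n)
  (Summable.of_nonneg_of_le (fun n => norm_nonneg _) (fun n => by split_ifs <;> simp)
    (W.summable_norm g))

lemma gp_add_gm (g : W) : gp g + gm g = g := by
  ext n
  rw [lp.coeFn_add, Pi.add_apply]
  simp only [gp, gm, mkW_apply]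
  split_ifs <;> simp

lemma norm_gp_add (g : W) : ‖gp g‖ + ‖gm g‖ = ‖g‖ := by
  rw [W.norm_eq, W.norm_eq, W.norm_eq, ← Summable.tsum_add (W.summable_norm _) (W.summable_norm _)]
  refine tsum_congr fun n => ?_
  simp only [gp, gm, mkW_apply]
  split_ifs <;> simp

section Fact

variable {X : Type*} [NormedAddCommGroup X] [NormedSpace ℂ X] [CompleteSpace X]

lemma top_exp (S R : X →L[ℂ] X) (K : ℝ) (hK : ∀ n : ℤ, ‖U S R n‖ ≤ K) (h : R * S = 1)
    (g : W) (k : ℤ) :
    top S R K hK (NormedSpace.exp (conv g) (del k))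
      = NormedSpace.exp (top S R K hK (gm g)) * U S R k * NormedSpace.exp (top S R K hK (gp g)) := by
  have h1 : conv g = conv (gp g) + conv (gm g) := by rw [← map_add, gp_add_gm]
  have h2 : NormedSpace.exp (conv g) = NormedSpace.exp (conv (gp g)) * NormedSpace.exp (conv (gm g)) := by
    rw [h1]
    exact exp_add' (conv_commute _ _)
  rw [h2, mul_apply_eq_comp]
  rw [exp_intertwine_right (top S R K hK) (conv (gp g)) (top S R K hK (gp g))
    (fun f => top_conv_nonneg S R K hK h (gp g) (fun n hn => by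
      simp only [gp, mkW_apply]; rw [if_neg (by omega)]) f)]
  rw [exp_intertwine_left (top S R K hK) (conv (gm g)) (top S R K hK (gm g))
    (fun f => top_conv_nonpos S R K hK h (gm g) (fun n hn => by
      simp only [gm, mkW_apply]; rw [if_pos (by omega)]) f)]
  rw [top_del]

end Fact

end Pool.Agent.H933.TI
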