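import Pool.Agent.H933.TI.Chain
import Pool.Agent.H933.TI.Meas

/-!
# Symbols in the Sobolev spaces of order above `1/2`
-/

set_option autoImplicit false
set_option linter.unusedVariables false

open scoped BigOperators ENNReal
open MeasureTheory AddCircle Metric Pool.Agent.Results.MP_f981b0_an.LogIntegrableNests

namespace Pool.Agent.H933.TI

lemma norm_fourier_sub_one_le {r : ℝ} (hr0 : 0 < r) (hr1 : r ≤ 1) (m : ℤ) (n : ℕ) :
    ‖(fourier m (((1 / 2 ^ n : ℝ)) : UnitAddCircle) : ℂ) - 1‖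
      ≤ 2 * Real.pi * (|(m : ℝ)| / 2 ^ n) ^ r := by
  set x : ℝ := |(m : ℝ)| / 2 ^ n with hx
  have hx0 : 0 ≤ x := by positivity
  have hpi := Real.pi_gt_three
  rcases le_total x 1 with h1 | h1
  · rw [fourier_coe_apply]
    have hθ : (2 * (Real.pi : ℂ) * Complex.I * m * (((1 / 2 ^ n : ℝ)) : ℂ) / ((1 : ℝ) : ℂ))
        = Complex.I * ((2 * Real.pi * m * (1 / 2 ^ n) : ℝ) : ℂ) := by
      push_cast; ring
    rw [hθ]
    refine (Real.norm_exp_I_mul_ofReal_sub_one_le).trans ?_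
    have h2 : ‖2 * Real.pi * m * (1 / 2 ^ n)‖ = 2 * Real.pi * x := by
      rw [hx, Real.norm_eq_abs, abs_mul, abs_mul, abs_mul, abs_of_pos (show (0 : ℝ) < 2 by norm_num),
        abs_of_pos Real.pi_pos, abs_of_pos (show (0 : ℝ) < 1 / 2 ^ n by positivity)]
      ring
    rw [h2]
    refine mul_le_mul_of_nonneg_left ?_ (by positivity)
    rcases eq_or_lt_of_le hx0 with h | h
    · rw [← h, Real.zero_rpow hr0.ne']
    · calc x = x ^ (1 : ℝ) := (Real.rpow_one x).symm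
        _ ≤ x ^ r := Real.rpow_le_rpow_of_exponent_ge h h1 hr1
  · have h2 : ‖(fourier m (((1 / 2 ^ n : ℝ)) : UnitAddCircle) : ℂ) - 1‖ ≤ 2 := by
      refine (norm_sub_le _ _).trans ?_
      rw [norm_fourier_apply, norm_one]; norm_num
    have h3 : 1 ≤ x ^ r := Real.one_le_rpow h1 hr0.le
    nlinarith

lemma dif_L2 (c : W) {r : ℝ} (hr0 : 0 < r) (hr1 : r ≤ 1)
    (hs : Summable fun m : ℤ => |(m : ℝ)| ^ (2 * r) * ‖c m‖ ^ 2) (n : ℕ) :
    ∫ t : UnitAddCircle, ‖ev (t + ((1 / 2 ^ n : ℝ) : UnitAddCircle)) c - ev t c‖ ^ 2 ∂haarAddCircle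
      ≤ (2 * Real.pi) ^ 2 * ((2 ^ n : ℝ) ^ (-(2 * r)))
        * ∑' m : ℤ, |(m : ℝ)| ^ (2 * r) * ‖c m‖ ^ 2 := by
  set H : UnitAddCircle := ((1 / 2 ^ n : ℝ) : UnitAddCircle) with hH
  have h1 := parseval (dif (Ev c) H)
  have h2 : ∀ t, ‖dif (Ev c) H t‖ ^ 2 = ‖ev (t + H) c - ev t c‖ ^ 2 := by
    intro t
    change ‖Ev c (t + H) - Ev c t‖ ^ 2 = _
    rw [Ev_apply, Ev_apply]
  simp only [h2] at h1
  rw [← h1.tsum_eq, ← tsum_mul_left]
  refine Summable.tsum_le_tsum (fun m => ?_) h1.summable (hs.mul_left _)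
  rw [coeff_dif, coeff_Ev, norm_mul, mul_pow]
  have h3 := norm_fourier_sub_one_le hr0 hr1 m n
  have h4 : ‖(fourier m H : ℂ) - 1‖ ^ 2 ≤ (2 * Real.pi * (|(m : ℝ)| / 2 ^ n) ^ r) ^ 2 :=
    pow_le_pow_left₀ (norm_nonneg _) h3 2
  have h5 : (2 * Real.pi * (|(m : ℝ)| / 2 ^ n) ^ r) ^ 2
      = (2 * Real.pi) ^ 2 * ((2 ^ n : ℝ) ^ (-(2 * r))) * |(m : ℝ)| ^ (2 * r) := by
    rw [mul_pow, ← Real.rpow_natCast ((|(m : ℝ)| / 2 ^ n) ^ r) 2, ← Real.rpow_mul (by positivity),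
      Real.div_rpow (by positivity) (by positivity), Real.rpow_neg (by positivity)]
    have : r * ((2 : ℕ) : ℝ) = 2 * r := by push_cast; ring
    rw [this]; ring
  calc ‖(fourier m H : ℂ) - 1‖ ^ 2 * ‖c m‖ ^ 2
      ≤ ((2 * Real.pi) ^ 2 * ((2 ^ n : ℝ) ^ (-(2 * r))) * |(m : ℝ)| ^ (2 * r)) * ‖c m‖ ^ 2 := by
        rw [← h5]; exact mul_le_mul_of_nonneg_right h4 (by positivity)
    _ = _ := by ring

/-- the sum of the squares of the dyadic differences, from the point `τ` -/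
noncomputable def Vs (c : W) (n : ℕ) (τ : UnitAddCircle) : ℝ :=
  ∑ i ∈ Finset.range (2 ^ n),
    ‖ev (τ + (pt n (i + 1) : UnitAddCircle)) c - ev (τ + (pt n i : UnitAddCircle)) c‖ ^ 2

lemma continuous_Vs (c : W) (n : ℕ) : Continuous (Vs c n) := by
  unfold Vs
  have := continuous_ev c
  fun_prop

lemma int_circle {f : UnitAddCircle → ℝ} (hf : Continuous f) : Integrable f haarAddCircle :=
  hf.integrable_of_hasCompactSupport (HasCompactSupport.of_compactSpace _)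

lemma int_Vs (c : W) (n : ℕ) : ∫ τ, Vs c n τ ∂haarAddCircle
    = 2 ^ n * ∫ t : UnitAddCircle,
      ‖ev (t + ((1 / 2 ^ n : ℝ) : UnitAddCircle)) c - ev t c‖ ^ 2 ∂haarAddCircle := by
  have hc := continuous_ev c
  unfold Vs
  rw [integral_finsetSum _ fun i _ => int_circle (by fun_prop)]
  have h1 : ∀ i ∈ Finset.range (2 ^ n), ∫ τ : UnitAddCircle,
      ‖ev (τ + (pt n (i + 1) : UnitAddCircle)) c - ev (τ + (pt n i : UnitAddCircle)) c‖ ^ 2
        ∂haarAddCircle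
      = ∫ t : UnitAddCircle,
      ‖ev (t + ((1 / 2 ^ n : ℝ) : UnitAddCircle)) c - ev t c‖ ^ 2 ∂haarAddCircle := by
    intro i _
    rw [← integral_add_right_eq_self (μ := haarAddCircle) (fun t : UnitAddCircle =>
      ‖ev (t + ((1 / 2 ^ n : ℝ) : UnitAddCircle)) c - ev t c‖ ^ 2) (pt n i : UnitAddCircle)]
    refine integral_congr_ae (Filter.Eventually.of_forall fun τ => ?_)
    simp only
    rw [pt_succ, AddCircle.coe_add, add_assoc]
  rw [Finset.sum_congr rfl h1, Finset.sum_const, Finset.card_range, nsmul_eq_mul]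
  push_cast
  ring

lemma exists_shift {V : ℕ → UnitAddCircle → ℝ} (hV : ∀ n, Continuous (V n))
    (hV0 : ∀ n t, 0 ≤ V n t) {u C : ℝ} (hu0 : 0 < u) (hu1 : u < 1)
    (hint : ∀ n, ∫ t, V n t ∂haarAddCircle ≤ C * (u ^ n) ^ 4) :
    ∃ (τ : UnitAddCircle) (C' : ℝ), ∀ n, V n τ ≤ C' * (u ^ n) ^ 2 := by
  have hC0 : 0 ≤ C := by
    have h := hint 0
    have h2 : 0 ≤ ∫ t, V 0 t ∂haarAddCircle := integral_nonneg fun t => hV0 0 t
    simp only [pow_zero, one_pow, mul_one] at h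
    exact h2.trans h
  set F : UnitAddCircle → ℝ≥0∞ := fun t => ∑' n, ENNReal.ofReal ((u⁻¹ ^ n) ^ 2 * V n t) with hF
  have hm : ∀ n, Measurable fun t => ENNReal.ofReal ((u⁻¹ ^ n) ^ 2 * V n t) := fun n =>
    ENNReal.measurable_ofReal.comp ((hV n).measurable.const_mul _)
  have hFm : Measurable F := Measurable.ennreal_tsum hm
  have hFi : ∫⁻ t, F t ∂haarAddCircle ≠ ⊤ := by
    rw [hF]
    simp only
    rw [lintegral_tsum fun n => (hm n).aemeasurable]
    have h1 : ∀ n, ∫⁻ t, ENNReal.ofReal ((u⁻¹ ^ n) ^ 2 * V n t) ∂haarAddCircle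
        ≤ ENNReal.ofReal (C * (u ^ 2) ^ n) := by
      intro n
      have hi : Integrable (fun t => (u⁻¹ ^ n) ^ 2 * V n t) haarAddCircle :=
        int_circle (continuous_const.mul (hV n))
      rw [← ofReal_integral_eq_lintegral_ofReal hi
        (Filter.Eventually.of_forall fun t => mul_nonneg (by positivity) (hV0 n t))]
      refine ENNReal.ofReal_le_ofReal ?_
      rw [integral_const_mul]
      calc (u⁻¹ ^ n) ^ 2 * ∫ t, V n t ∂haarAddCircle ≤ (u⁻¹ ^ n) ^ 2 * (C * (u ^ n) ^ 4) :=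
            mul_le_mul_of_nonneg_left (hint n) (by positivity)
        _ = C * (u⁻¹ ^ n * u ^ n) ^ 2 * (u ^ n) ^ 2 := by ring
        _ = C * (u ^ 2) ^ n := by
            rw [← mul_pow, inv_mul_cancel₀ hu0.ne', one_pow, one_pow, mul_one, ← pow_mul, ← pow_mul,
              mul_comm n 2]
    refine ne_top_of_le_ne_top ?_ (ENNReal.tsum_le_tsum h1)
    have h5 : Summable fun n : ℕ => C * (u ^ 2) ^ n :=
      (summable_geometric_of_lt_one (by positivity) (by nlinarith)).mul_left _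
    rw [← ENNReal.ofReal_tsum_of_nonneg (fun n => by positivity) h5]
    exact ENNReal.ofReal_ne_top
  obtain ⟨τ, hτ⟩ := (ae_lt_top hFm hFi).exists
  refine ⟨τ, (F τ).toReal, fun n => ?_⟩
  have h1 : ENNReal.ofReal ((u⁻¹ ^ n) ^ 2 * V n τ) ≤ F τ := ENNReal.le_tsum n
  have h2 : (u⁻¹ ^ n) ^ 2 * V n τ ≤ (F τ).toReal := by
    rw [← ENNReal.toReal_ofReal (mul_nonneg (by positivity) (hV0 n τ) :
      0 ≤ (u⁻¹ ^ n) ^ 2 * V n τ)]
    exact ENNReal.toReal_mono hτ.ne h1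
  calc V n τ = ((u⁻¹ ^ n) ^ 2 * V n τ) * (u ^ n) ^ 2 := by
        have : (u⁻¹ ^ n) ^ 2 * (u ^ n) ^ 2 = 1 := by
          rw [← mul_pow, ← mul_pow, inv_mul_cancel₀ hu0.ne', one_pow, one_pow]
        calc V n τ = V n τ * ((u⁻¹ ^ n) ^ 2 * (u ^ n) ^ 2) := by rw [this, mul_one]
          _ = _ := by ring
    _ ≤ (F τ).toReal * (u ^ n) ^ 2 := mul_le_mul_of_nonneg_right h2 (by positivity)

/-- rotation of the symbol -/
noncomputable def rot (c : W) (τ : UnitAddCircle) : W :=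
  mkW (fun n => c n * (fourier n τ : ℂ)) (by
    refine (W.summable_norm c).congr fun n => ?_
    rw [norm_mul, norm_fourier_apply, mul_one])

lemma ev_rot (c : W) (τ t : UnitAddCircle) : ev t (rot c τ) = ev (τ + t) c := by
  rw [ev_apply, ev_apply]
  refine tsum_congr fun n => ?_
  have h2 : (fourier n (τ + t) : ℂ) = fourier n τ * fourier n t := by
    simp only [fourier_apply, smul_add, AddCircle.toCircle_add, Circle.coe_mul]
  rw [h2]
  simp only [rot, mkW_apply, smul_eq_mul]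
  ring

section

variable {X : Type} [NormedAddCommGroup X] [NormedSpace ℂ X] [CompleteSpace X]

lemma U_rot (S R : X →L[ℂ] X) (τ : UnitAddCircle) (n : ℤ) :
    U ((fourier (-1) τ : ℂ) • S) ((fourier 1 τ : ℂ) • R) n = (fourier (-n) τ : ℂ) • U S R n := by
  have h1 : ∀ m : ℕ, (fourier (-1) τ : ℂ) ^ m = fourier (-(m : ℤ)) τ := by
    intro m
    induction m with
    | zero => simp
    | succ m ih =>
      rw [pow_succ, ih, ← fourier_add]
      congr 2
      push_cast; ring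
  rcases le_total 0 n with hn | hn
  · obtain ⟨m, rfl⟩ := Int.eq_ofNat_of_zero_le hn
    rw [U_natCast, U_natCast, smul_pow, h1]
  · obtain ⟨m, hm⟩ := Int.eq_ofNat_of_zero_le (show 0 ≤ -n by omega)
    have hm' : n = -(m : ℤ) := by omega
    subst hm'
    rw [U_neg_natCast, U_neg_natCast, smul_pow, ← fourier_natCast, neg_neg]

/-- The theorem for symbols in the Wiener algebra with the Sobolev condition, `1/2 < r ≤ 1`. -/
theorem chain_sobolev {S R : X →L[ℂ] X} (K : ℝ) (hK : ∀ n : ℤ, ‖U S R n‖ ≤ K) (h : R * S = 1)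
    (hSR : S * R ≠ 1) (c : W) (hc : ∃ n : ℤ, n ≠ 0 ∧ c n ≠ 0) {r : ℝ} (hr : 1 / 2 < r) (hr1 : r ≤ 1)
    (hs : Summable fun m : ℤ => |(m : ℝ)| ^ (2 * r) * ‖c m‖ ^ 2) :
    InfiniteChain (top S R K hK c) := by
  set γ : ℝ := r - 1 / 2 with hγ
  have hγ0 : 0 < γ := by linarith
  have hγ1 : γ ≤ 1 / 2 := by linarith
  set u : ℝ := (2 : ℝ) ^ (-(γ / 2)) with hu
  have hu0 : 0 < u := by positivity
  have hu1 : u < 1 := Real.rpow_lt_one_of_one_lt_of_neg (by norm_num) (by linarith)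
  set Sr : ℝ := ∑' m : ℤ, |(m : ℝ)| ^ (2 * r) * ‖c m‖ ^ 2 with hSr
  obtain ⟨τ, C, hτ⟩ := exists_shift (V := Vs c) (continuous_Vs c)
    (fun n t => Finset.sum_nonneg fun _ _ => by positivity) (C := (2 * Real.pi) ^ 2 * Sr)
    hu0 hu1 (fun n => by
      rw [int_Vs]
      calc 2 ^ n * ∫ t : UnitAddCircle,
            ‖ev (t + ((1 / 2 ^ n : ℝ) : UnitAddCircle)) c - ev t c‖ ^ 2 ∂haarAddCircle
          ≤ 2 ^ n * ((2 * Real.pi) ^ 2 * ((2 ^ n : ℝ) ^ (-(2 * r))) * Sr) :=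
            mul_le_mul_of_nonneg_left (dif_L2 c (by linarith) hr1 hs n) (by positivity)
        _ = (2 * Real.pi) ^ 2 * Sr * (2 ^ n * (2 ^ n : ℝ) ^ (-(2 * r))) := by ring
        _ = (2 * Real.pi) ^ 2 * Sr * (u ^ n) ^ 4 := by
            congr 1
            rw [hu, ← pow_mul, ← Real.rpow_natCast, ← Real.rpow_natCast,
              ← Real.rpow_mul (by norm_num), ← Real.rpow_mul (by norm_num),
              ← Real.rpow_add (by norm_num)]
            congr 1
            rw [hγ]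
            push_cast
            ring)
  -- the rotated symbol
  set c' : W := rot c τ with hc'
  set B : ℝ → ℂ := fun t => ev (t : UnitAddCircle) c' with hB
  have hBc : Continuous B := (continuous_ev c').comp (AddCircle.continuous_mk' 1)
  have hBp : ∀ t, B (t + 1) = B t := by
    intro t
    simp only [hB]
    congr 2
    exact AddCircle.coe_add_period 1 t
  obtain ⟨ρ, C', h1, h2, h3, h4⟩ := chaining' hBc hBp hγ0 hγ1 (C := C) (fun m => by
    refine le_trans (le_of_eq ?_) (hτ m)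
    unfold Vs
    refine Finset.sum_congr rfl fun i _ => ?_
    simp only [hB, hc', ev_rot])
  have hK' : ∀ n : ℤ, ‖U ((fourier (-1) τ : ℂ) • S) ((fourier 1 τ : ℂ) • R) n‖ ≤ K := by
    intro n
    rw [U_rot, norm_smul, norm_fourier_apply, one_mul]
    exact hK n
  have e1 : (fourier 1 τ : ℂ) * fourier (-1) τ = 1 := by
    rw [← fourier_add]; simp
  have hRS : ((fourier 1 τ : ℂ) • R) * ((fourier (-1) τ : ℂ) • S) = 1 := by
    rw [smul_mul_smul_comm, h, e1, one_smul]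
  have hSR' : ((fourier (-1) τ : ℂ) • S) * ((fourier 1 τ : ℂ) • R) ≠ 1 := by
    rw [smul_mul_smul_comm, mul_comm (fourier (-1) τ : ℂ), e1, one_smul]
    exact hSR
  have hfin := chain_of_grid K hK' hRS hSR' c' (by
    obtain ⟨n, hn, hcn⟩ := hc
    refine ⟨n, hn, ?_⟩
    simp only [hc', rot, mkW_apply]
    refine mul_ne_zero hcn ?_
    rw [← norm_ne_zero_iff, norm_fourier_apply]
    exact one_ne_zero) h1 h2 h3 (s := 2 - γ / 2) (κ := (2 : ℝ) ^ (-(γ / 4))) (C := C')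
    (by linarith) (by linarith) (by positivity)
    (Real.rpow_lt_one_of_one_lt_of_neg (by norm_num) (by linarith)) h4
  have htop : top ((fourier (-1) τ : ℂ) • S) ((fourier 1 τ : ℂ) • R) K hK' c' = top S R K hK c := by
    unfold top
    rw [lift_apply, lift_apply]
    refine tsum_congr fun n => ?_
    rw [U_rot, smul_smul]
    congr 1
    simp only [hc', rot, mkW_apply]
    rw [mul_assoc, ← fourier_add, add_neg_cancel, fourier_zero, mul_one]
  rwa [htop] at hfin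

/-- Absolute convergence. -/
lemma summable_of_sobolev {c : ℤ → ℂ} {r : ℝ} (hr : 1 / 2 < r)
    (hs : Summable fun m : ℤ => |(m : ℝ)| ^ (2 * r) * ‖c m‖ ^ 2) : Summable fun n => ‖c n‖ := by
  have h1 : Summable fun m : ℤ => |(m : ℝ)| ^ (-(2 * r)) :=
    Real.summable_abs_int_rpow (by linarith)
  have h2 : Summable fun m : ℤ => (if m = 0 then ‖c 0‖ else 0)
      + (|(m : ℝ)| ^ (-(2 * r)) + |(m : ℝ)| ^ (2 * r) * ‖c m‖ ^ 2) := by
    refine Summable.add ?_ (h1.add hs)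
    exact summable_of_ne_finset_zero (s := {0}) fun m hm => by
      rw [Finset.mem_singleton] at hm
      rw [if_neg hm]
  refine Summable.of_nonneg_of_le (fun m => norm_nonneg _) (fun m => ?_) h2
  by_cases hm : m = 0
  · subst hm
    rw [if_pos rfl]
    have : 0 ≤ |((0 : ℤ) : ℝ)| ^ (-(2 * r)) + |((0 : ℤ) : ℝ)| ^ (2 * r) * ‖c 0‖ ^ 2 := by positivity
    linarith
  · rw [if_neg hm, zero_add]
    have hpos : 0 < |(m : ℝ)| := abs_pos.2 (by exact_mod_cast hm)
    set x := |(m : ℝ)| ^ (2 * r) with hx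
    have hx0 : 0 < x := by positivity
    have hxi : |(m : ℝ)| ^ (-(2 * r)) = x⁻¹ := by rw [hx, Real.rpow_neg hpos.le]
    rw [hxi]
    have key : ‖c m‖ * x ≤ 1 + (x * ‖c m‖) ^ 2 := by nlinarith [sq_nonneg (x * ‖c m‖ - 1)]
    calc ‖c m‖ = (‖c m‖ * x) / x := by field_simp
      _ ≤ (1 + (x * ‖c m‖) ^ 2) / x := by gcongr
      _ = x⁻¹ + x * ‖c m‖ ^ 2 := by field_simp

end

end Pool.Agent.H933.TI
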